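import Pool.Agent.ETPN.HP1

/-!
**THEOREM HP** (note 2730, helper38), steps (5)-(8): if the non-slots of one symbol `c ≠ 0` do not
span the span of the slots, a structure with `K4At` is refuted.
-/

set_option autoImplicit false
set_option linter.unusedSimpArgs false
set_option linter.unnecessarySeqFocus false
set_option linter.unusedSectionVars false

namespace Pool.Agent.ETPN

open Pool.Agent.Helper58.PLine (QData)
open Pool.Agent.ETCP
open Pool.Agent.ETPF
open Pool.Agent.ETPG
open ETC (ind ind_true ind_false ind_and ind_congr ind_nonneg ind_le sum_ind_shift sg zm)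

variable {V Q : Type} [AddCommGroup V] [Module (ZMod 2) V] {D : QData V Q}

variable {c : Q} {E : Submodule (ZMod 2) V} {l : Module.Dual (ZMod 2) V} {a n0 : V}

/-- `q (t, v + m) = q (n, x)` if and only if `q (t, v) = q (n, x + m')`, for `q (t, m) = c`,
`q (n, m') = c` -/
theorem sw {n t m m' x v : V} (hm : D.q t m = c) (hm' : D.q n m' = c) :
    D.q t (v + m) = D.q n x ↔ D.q t v = D.q n (x + m') := by
  constructor
  · intro h
    have := ETC.add_common h (hm.trans hm'.symm)
    rwa [vv] at this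
  · intro h
    have := ETC.add_common h (hm.trans hm'.symm)
    rwa [vv] at this

variable (D) in
/-- the number of the `t` in `P` with `q (u, t) = b` -/
noncomputable def kP [Fintype V] (P : V → Prop) (u : V) (b : Q) : ℤ := ∑ t, ind (P t ∧ D.q u t = b)

/-- **(5)** -/
theorem five [Fintype V] {n s t x m' : V} (hs : Sg D c s) (ht : Sg D c t)
    (hm' : D.q n m' = c) :
    ∑ u, ind (D.q s u = c ∧ D.q t u = D.q n x) =
      ∑ v, ind (C D s v ∧ D.q t v = D.q n (x + m')) := by
  obtain ⟨m, h1, h2⟩ := hs.common ht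
  refine sum_ind_shift _ _ m fun v => ?_
  rw [q_shift h1, sw h2 hm']

theorem five' [Fintype V] {n s t x m' : V} (hs : Sg D c s) (ht : Sg D c t)
    (hm' : D.q n m' = c) :
    ∑ u, ind (C D s u ∧ D.q t u = D.q n x) =
      ∑ v, ind (D.q s v = c ∧ D.q t v = D.q n (x + m')) := by
  have := five (x := x + m') hs ht hm'
  rw [vv] at this
  exact this.symm

/-- the sum of (5) over `t ∈ C` -/
theorem phi_swap [Fintype V] {P : V → Prop} (hP : ∀ t, P t → Sg D c t) {n s x m' : V}
    (hs : Sg D c s) (hm' : D.q n m' = c) :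
    ∑ u, ind (D.q s u = c) * kP D P u (D.q n x) + ∑ u, ind (C D s u) * kP D P u (D.q n x) =
    ∑ u, ind (D.q s u = c) * kP D P u (D.q n (x + m')) +
      ∑ u, ind (C D s u) * kP D P u (D.q n (x + m')) := by
  have e : ∀ (R : V → Prop) (b : Q), ∑ u, ind (R u) * kP D P u b =
      ∑ t, ind (P t) * ∑ u, ind (R u ∧ D.q t u = b) := by
    intro R b
    simp only [kP, Finset.mul_sum]
    rw [Finset.sum_comm]
    refine Finset.sum_congr rfl fun t _ => Finset.sum_congr rfl fun u _ => ?_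
    rw [D.symm t u]
    simp only [ind_and]; ring
  have h1 : ∀ t, ind (P t) * ∑ u, ind (D.q s u = c ∧ D.q t u = D.q n x) =
      ind (P t) * ∑ u, ind (C D s u ∧ D.q t u = D.q n (x + m')) := by
    intro t
    by_cases ht : P t
    · rw [five hs (hP t ht) hm']
    · rw [ind_false ht, zero_mul, zero_mul]
  have h2 : ∀ t, ind (P t) * ∑ u, ind (C D s u ∧ D.q t u = D.q n x) =
      ind (P t) * ∑ u, ind (D.q s u = c ∧ D.q t u = D.q n (x + m')) := by
    intro t
    by_cases ht : P t
    · rw [five' hs (hP t ht) hm']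
    · rw [ind_false ht, zero_mul, zero_mul]
  rw [e (fun u => D.q s u = c), e (fun u => C D s u), e (fun u => D.q s u = c),
    e (fun u => C D s u), Finset.sum_congr rfl fun t _ => h1 t,
    Finset.sum_congr rfl fun t _ => h2 t]
  ring

/-- splitting of `E` in `{l = 1}` and `{l = 0}` -/
theorem kE_split [Fintype V] (u : V) (b : Q) :
    kP D (fun w => w ∈ E) u b = kP D (Cc E l) u b + kP D (fun w => w ∈ Hm E l) u b := by
  unfold kP
  rw [← Finset.sum_add_distrib]
  refine Finset.sum_congr rfl fun w _ => ?_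
  by_cases hb : D.q u w = b
  · by_cases hw : w ∈ E
    · rcases zm (l w) with h0 | h1
      · have g1 : ind (Cc E l w ∧ D.q u w = b) = 0 :=
          ind_false fun hh => by
            have := hh.1.2
            rw [h0] at this; exact zero_ne_one this
        rw [ind_true ⟨hw, hb⟩, g1, ind_true ⟨(⟨hw, h0⟩ : w ∈ Hm E l), hb⟩]; ring
      · have g1 : ind (w ∈ Hm E l ∧ D.q u w = b) = 0 :=
          ind_false fun hh => by
            have := hh.1.2
            rw [h1] at this; exact one_ne_zero this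
        rw [ind_true ⟨hw, hb⟩, g1, ind_true ⟨(⟨hw, h1⟩ : Cc E l w), hb⟩]; ring
    · have g1 : ind (w ∈ E ∧ D.q u w = b) = 0 := ind_false fun hh => hw hh.1
      have g2 : ind (Cc E l w ∧ D.q u w = b) = 0 := ind_false fun hh => hw hh.1.1
      have g3 : ind (w ∈ Hm E l ∧ D.q u w = b) = 0 := ind_false fun hh => hw hh.1.1
      rw [g1, g2, g3]; ring
  · have g1 : ind (w ∈ E ∧ D.q u w = b) = 0 := ind_false fun hh => hb hh.2
    have g2 : ind (Cc E l w ∧ D.q u w = b) = 0 := ind_false fun hh => hb hh.2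
    have g3 : ind (w ∈ Hm E l ∧ D.q u w = b) = 0 := ind_false fun hh => hb hh.2
    rw [g1, g2, g3]; ring

/-- if `V_u` meets `C` then the two halves agree -/
theorem kC_half [Fintype V] {u w : V} (hw : Cc E l w) (h : C D u w) (b : Q) :
    2 * kP D (Cc E l) u b = kP D (fun w => w ∈ E) u b := by
  have h1 : kP D (Cc E l) u b = kP D (fun w => w ∈ Hm E l) u b := by
    refine sum_ind_shift _ _ w fun v => ?_
    rw [cc_shift hw]
    have e : D.q u (v + w) = D.q u v := q_eq (h.of_eq rfl (eo (by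
      abel_nf <;> simp only [ch2, ch3, ch4, add_zero, zero_add])))
    rw [e]
  rw [kE_split (l := l), ← h1]; ring

namespace HPB

variable (X : HPB D c E l a n0)

include X

/-- for slots `u` the numbers of values in `E` agree -/
theorem kE_slot [Fintype V] {u n x m' : V} (hu : Sg D c u) (hm' : D.q n m' = c) :
    kP D (fun w => w ∈ E) u (D.q n x) = kP D (fun w => w ∈ E) u (D.q n (x + m')) := by
  obtain ⟨m, hm⟩ := hu
  refine sum_ind_shift _ _ m fun v => ?_
  change (v + m ∈ E ∧ _) ↔ (v ∈ E ∧ _)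
  rw [Submodule.add_mem_iff_left E (X.nb_mem hm), sw hm hm']

/-- for `u ∈ A` -/
theorem kC_A [Fintype V] {u n x m' : V} (hu : Aa D c l u) (hm' : D.q n m' = c) :
    kP D (Cc E l) u (D.q n x) = kP D (fun w => w ∈ Hm E l) u (D.q n (x + m')) := by
  obtain ⟨m, hm⟩ := hu.1
  refine sum_ind_shift _ _ m fun v => ?_
  rw [cc_shift (X.nC hu hm), sw hm hm']

/-- **(I)** -/
theorem II [Fintype V] {n n' x m' : V} (hn' : Cc E l n') (hm' : D.q n m' = c) :
    2 * ∑ u, ind (D.q n' u = c ∧ Aa D c l u) * kP D (fun w => w ∈ Hm E l) u (D.q n (x + m')) +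
      ∑ u, ind (C D n' u) * kP D (fun w => w ∈ E) u (D.q n x) =
    2 * ∑ u, ind (D.q n' u = c ∧ Aa D c l u) * kP D (fun w => w ∈ Hm E l) u (D.q n x) +
      ∑ u, ind (C D n' u) * kP D (fun w => w ∈ E) u (D.q n (x + m')) := by
  have key := phi_swap (P := Cc E l) (x := x) (fun t ht => X.slot ht) (X.slot hn') hm'
  -- the slots `u ∉ A`
  have r1 : ∀ u, ¬ Aa D c l u → ∀ b, ind (D.q n' u = c) * (2 * kP D (Cc E l) u b) =
      ind (D.q n' u = c) * kP D (fun w => w ∈ E) u b := by
    intro u hu b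
    by_cases h : D.q n' u = c
    · have su : Sg D c u := Sg.right h
      obtain ⟨w, h1, h2⟩ : ∃ w, C D u w ∧ l w ≠ 0 := by
        by_contra h3
        push Not at h3
        exact hu ⟨su, h3⟩
      rw [kC_half ⟨X.ann_mem su h1, one_of h2⟩ h1]
    · rw [ind_false h, zero_mul, zero_mul]
  have r2 : ∀ u b, ind (C D n' u) * (2 * kP D (Cc E l) u b) =
      ind (C D n' u) * kP D (fun w => w ∈ E) u b := by
    intro u b
    by_cases h : C D n' u
    · rw [kC_half hn' h.symm]
    · rw [ind_false h, zero_mul, zero_mul]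
  have r3 : ∀ x m', D.q n m' = c → ∀ u, ind (D.q n' u = c) * (2 * kP D (Cc E l) u (D.q n x)) =
      2 * (ind (D.q n' u = c ∧ Aa D c l u) *
        kP D (fun w => w ∈ Hm E l) u (D.q n (x + m'))) +
      ind (D.q n' u = c ∧ ¬ Aa D c l u) * kP D (fun w => w ∈ E) u (D.q n x) := by
    intro x m' hm' u
    by_cases hu : Aa D c l u
    · have g1 : ind (D.q n' u = c ∧ ¬ Aa D c l u) = 0 := ind_false fun hh => hh.2 hu
      have g2 : ind (D.q n' u = c ∧ Aa D c l u) = ind (D.q n' u = c) :=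
        ind_congr ⟨fun hh => hh.1, fun hh => ⟨hh, hu⟩⟩
      rw [g1, g2, X.kC_A hu hm']; ring
    · have g1 : ind (D.q n' u = c ∧ Aa D c l u) = 0 := ind_false fun hh => hu hh.2
      have g2 : ind (D.q n' u = c ∧ ¬ Aa D c l u) = ind (D.q n' u = c) :=
        ind_congr ⟨fun hh => hh.1, fun hh => ⟨hh, hu⟩⟩
      rw [g1, g2, r1 u hu]; ring
  have r4 : ∑ u, ind (D.q n' u = c ∧ ¬ Aa D c l u) * kP D (fun w => w ∈ E) u (D.q n x) =
      ∑ u, ind (D.q n' u = c ∧ ¬ Aa D c l u) *
        kP D (fun w => w ∈ E) u (D.q n (x + m')) := by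
    refine Finset.sum_congr rfl fun u _ => ?_
    by_cases h : D.q n' u = c ∧ ¬ Aa D c l u
    · rw [X.kE_slot (Sg.right h.1) hm']
    · rw [ind_false h, zero_mul, zero_mul]
  have k1 : ∀ x m', D.q n m' = c → 2 * ∑ u, ind (D.q n' u = c) * kP D (Cc E l) u (D.q n x) =
      2 * ∑ u, ind (D.q n' u = c ∧ Aa D c l u) *
        kP D (fun w => w ∈ Hm E l) u (D.q n (x + m')) +
      ∑ u, ind (D.q n' u = c ∧ ¬ Aa D c l u) * kP D (fun w => w ∈ E) u (D.q n x) := by
    intro x m' hm'
    rw [Finset.mul_sum, Finset.mul_sum, ← Finset.sum_add_distrib]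
    refine Finset.sum_congr rfl fun u _ => ?_
    rw [← r3 x m' hm' u]; ring
  have k2 : ∀ b, 2 * ∑ u, ind (C D n' u) * kP D (Cc E l) u b =
      ∑ u, ind (C D n' u) * kP D (fun w => w ∈ E) u b := by
    intro b
    rw [Finset.mul_sum]
    refine Finset.sum_congr rfl fun u _ => ?_
    rw [← r2 u b]; ring
  have k3 := k1 x m' hm'
  have k4 := k1 (x + m') m' hm'
  rw [vv] at k4
  have k5 := k2 (D.q n x)
  have k6 := k2 (D.q n (x + m'))
  rw [← r4] at k4
  linarith

omit X in
/-- the values of a symbol on a fibre -/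
theorem _root_.Pool.Agent.ETPN.kP_eq [Fintype V] {P : V → Prop} {A : Submodule (ZMod 2) V}
    (hP : ∀ w, P w ↔ w ∈ A) (v : V) (b : Q) :
    kP D P v b = cA D A v * ind (∃ w ∈ A, D.q v w = b) := by
  by_cases h : ∃ w ∈ A, D.q v w = b
  · rw [ind_true h, mul_one]
    obtain ⟨w, h1, h2⟩ := h
    refine sum_ind_shift _ _ w fun u => ?_
    rw [hP, mem_shift' h1, ← h2]
    refine and_congr_right fun _ => ?_
    exact q_shift rfl
  · rw [ind_false h, mul_zero]
    exact sum_ind_zero fun w hw => h ⟨w, (hP w).1 hw.1, hw.2⟩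

/-- **(6)** any two elements of `C` have a common neighbour in `a + Stab` -/
theorem six [Finite V] {n n' : V} (hn : Cc E l n) (hn' : Cc E l n') :
    ∃ w, w + a ∈ Gm D c ∧ D.q w n = c ∧ D.q w n' = c := by
  have := Fintype.ofFinite V
  by_contra hcon
  push Not at hcon
  obtain ⟨an, h1, h2⟩ := X.mA hn
  obtain ⟨an', h3, h4⟩ := X.mA hn'
  have h2' : D.q n an = c := by rw [D.symm]; exact h2
  -- the subgroups
  let X0 : Submodule (ZMod 2) V := mkS (fun x => x ∈ Gm D c ∨ x + a ∈ Gm D c)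
    (Or.inl (Submodule.zero_mem _)) (by
      rintro x y (h | h) (h' | h')
      · exact Or.inl (Submodule.add_mem _ h h')
      · right
        have := Submodule.add_mem _ h h'
        rwa [show x + (y + a) = x + y + a from by abel] at this
      · right
        have := Submodule.add_mem _ h h'
        rwa [show x + a + y = x + y + a from by abel] at this
      · left
        have := Submodule.add_mem _ h h'
        rwa [show x + a + (y + a) = x + y from eo (by
          abel_nf <;> simp only [ch2, ch3, ch4, add_zero, zero_add])] at this)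
  let W : Submodule (ZMod 2) V := mkS (fun v => ∃ t1 t2, (t1 ∈ Gm D c ∧ C D n t1) ∧
      (t2 ∈ Gm D c ∧ C D n' t2) ∧ (v = t1 + t2 ∨ v = t1 + t2 + an'))
    ⟨0, 0, ⟨Submodule.zero_mem _, C.zero n⟩, ⟨Submodule.zero_mem _, C.zero n'⟩,
      Or.inl (by rw [add_zero])⟩ (by
      rintro x y ⟨t1, t2, ⟨g1, g2⟩, ⟨g3, g4⟩, h⟩ ⟨t1', t2', ⟨g1', g2'⟩, ⟨g3', g4'⟩, h'⟩
      refine ⟨t1 + t1', t2 + t2', ⟨Submodule.add_mem _ g1 g1', g2.add g2'⟩,
        ⟨Submodule.add_mem _ g3 g3', g4.add g4'⟩, ?_⟩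
      rcases h with rfl | rfl
      · rcases h' with rfl | rfl
        · left; abel
        · right; abel
      · rcases h' with rfl | rfl
        · right; abel
        · left
          exact eo (by abel_nf <;> simp only [ch2, ch3, ch4, add_zero, zero_add]))
  have hW : an ∉ W := by
    rintro ⟨t1, t2, ⟨g1, g2⟩, ⟨g3, g4⟩, h | h⟩
    · refine X.slot_not_gm (Sg.left h2) ?_
      rw [h]; exact Submodule.add_mem _ g1 g3
    · refine hcon (an + t1) ?_ ?_ ?_
      · have := Submodule.add_mem _ h1 g1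
        rwa [show an + a + t1 = an + t1 + a from by abel] at this
      · rw [D.symm]; exact qa h2' g2
      · rw [h, show t1 + t2 + an' + t1 = an' + t2 from eo (by
          abel_nf <;> simp only [ch2, ch3, ch4, add_zero, zero_add]), D.symm]
        exact qa (by rw [D.symm]; exact h4) g4
  obtain ⟨χ, hχ, hχW⟩ := ETC.exists_dual_sep hW
  have hX0 : an ∈ X0 := Or.inr h1
  -- `χ` on `A ∩ N_n'`
  have c1 : ∀ u, D.q n' u = c → Aa D c l u → χ u = 0 := by
    intro u hu hA
    refine hχW u ⟨0, u + an', ⟨Submodule.zero_mem _, C.zero n⟩, ⟨?_, ?_⟩, Or.inr ?_⟩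
    · have := Submodule.add_mem _ (X.a_iff.1 hA) h3
      rwa [show u + a + (an' + a) = u + an' from eo (by
        abel_nf <;> simp only [ch2, ch3, ch4, add_zero, zero_add])] at this
    · exact q_eq_iff.1 (hu.trans (by rw [D.symm]; exact h4.symm))
    · exact eo (by abel_nf <;> simp only [ch2, ch3, ch4, add_zero, zero_add])
  -- `χ` on `X0 ∩ V_n`
  have c2 : ∀ x ∈ X0, C D n x → χ x = 0 := by
    rintro x (hx | hx) hc
    · exact hχW x ⟨x, 0, ⟨hx, hc⟩, ⟨Submodule.zero_mem _, C.zero n'⟩, Or.inl (by rw [add_zero])⟩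
    · exfalso
      have hA : Aa D c l x := X.a_iff.2 hx
      have := hA.2 n hc.symm
      rw [hn.2] at this
      exact one_ne_zero this
  -- the function of `x`
  let F : V → ℤ := fun x => ∑ v, ind (C D n' v) * kP D (fun w => w ∈ E) v (D.q n x)
  let G : V → ℤ := fun x => ∑ u, ind (D.q n' u = c ∧ Aa D c l u) *
    kP D (fun w => w ∈ Hm E l) u (D.q n x)
  have e1 : ∀ x, F x - 2 * G x = F (x + an) - 2 * G (x + an) := by
    intro x
    have := X.II (x := x) hn' h2'
    change 2 * G (x + an) + F x = 2 * G x + F (x + an) at this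
    linarith
  have e2 : ∑ x, ind (x ∈ X0) * sg (χ x) * (F x - 2 * G x) = 0 := by
    have g1 : ∑ x, ind (x ∈ X0) * sg (χ x) * (F x - 2 * G x) =
        ∑ x, ind (x + an ∈ X0) * sg (χ (x + an)) * (F (x + an) - 2 * G (x + an)) :=
      (Equiv.sum_comp (Equiv.addRight an) (fun x => ind (x ∈ X0) * sg (χ x) *
        (F x - 2 * G x))).symm
    have g2 : ∑ x, ind (x + an ∈ X0) * sg (χ (x + an)) * (F (x + an) - 2 * G (x + an)) =
        - ∑ x, ind (x ∈ X0) * sg (χ x) * (F x - 2 * G x) := by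
      rw [← Finset.sum_neg_distrib]
      refine Finset.sum_congr rfl fun x _ => ?_
      rw [ind_congr (mem_shift' hX0 : x + an ∈ X0 ↔ x ∈ X0), map_add, ETC.sg_add, hχ,
        ETC.sg_one, ← e1]
      ring
    omega
  -- `G` does not contribute
  have e3 : ∑ x, ind (x ∈ X0) * sg (χ x) * G x = 0 := by
    have g1 : ∑ x, ind (x ∈ X0) * sg (χ x) * G x =
        ∑ u, ind (D.q n' u = c ∧ Aa D c l u) * (cA D (Hm E l) u *
          ∑ x, ind (x ∈ X0 ∧ ∃ h ∈ Hm E l, D.q u h = D.q n x) * sg (χ x)) := by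
      simp only [G, Finset.mul_sum]
      rw [Finset.sum_comm]
      refine Finset.sum_congr rfl fun u _ => Finset.sum_congr rfl fun x _ => ?_
      rw [kP_eq (fun w => Iff.rfl : ∀ w, w ∈ Hm E l ↔ w ∈ Hm E l)]
      simp only [ind_and]; ring
    rw [g1]
    refine Finset.sum_eq_zero fun u _ => ?_
    by_cases hu : D.q n' u = c ∧ Aa D c l u
    · have g2 : ∑ x, ind (x ∈ X0 ∧ ∃ h ∈ Hm E l, D.q u h = D.q n x) * sg (χ x) = 0 := by
        refine pd_zero (fun x => x ∈ X0 ∧ ∃ h ∈ Hm E l, D.q u h = D.q n x) ?_ χ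
          (x := u + an) ?_ ?_
        · rintro x y ⟨i1, w, i2, i3⟩ ⟨j1, w', j2, j3⟩
          exact ⟨Submodule.add_mem _ i1 j1, w + w', Submodule.add_mem _ i2 j2,
            ETC.add_common i3 j3⟩
        · refine ⟨Or.inl ?_, ?_⟩
          · have := Submodule.add_mem _ (X.a_iff.1 hu.2) h1
            rwa [show u + a + (an + a) = u + an from eo (by
              abel_nf <;> simp only [ch2, ch3, ch4, add_zero, zero_add])] at this
          · obtain ⟨m, hm1, hm2⟩ := hu.2.1.common (X.slot hn)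
            refine ⟨n + m, ?_, ?_⟩
            · rw [hm_shift (X.nC hu.2 hm1)]; exact hn
            · have i1 : D.q u (n + m) = D.q n (u + m) :=
                ETC.add_common (D.symm _ _) (hm1.trans hm2.symm)
              rw [i1]
              have i2 : C D n (m + an) := q_eq_iff.1 (hm2.trans h2'.symm)
              exact q_eq (i2.of_eq rfl (eo (by
                abel_nf <;> simp only [ch2, ch3, ch4, add_zero, zero_add])))
        · rw [map_add, c1 u hu.1 hu.2, hχ, zero_add]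
      rw [g2, mul_zero, mul_zero]
    · rw [ind_false hu, zero_mul]
  -- `F` does
  have e4 : 0 < ∑ x, ind (x ∈ X0) * sg (χ x) * F x := by
    have g1 : ∑ x, ind (x ∈ X0) * sg (χ x) * F x =
        ∑ v, ind (C D n' v) * (cA D E v *
          ∑ x, ind (x ∈ X0 ∧ ∃ w ∈ E, D.q v w = D.q n x) * sg (χ x)) := by
      simp only [F, Finset.mul_sum]
      rw [Finset.sum_comm]
      refine Finset.sum_congr rfl fun u _ => Finset.sum_congr rfl fun x _ => ?_
      rw [kP_eq (fun w => Iff.rfl : ∀ w, w ∈ E ↔ w ∈ E)]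
      simp only [ind_and]; ring
    have cA0 : ∀ v, 0 ≤ cA D E v := fun v => Finset.sum_nonneg fun _ _ => ind_nonneg _
    have pos : ∀ v, 0 ≤ ind (C D n' v) * (cA D E v *
          ∑ x, ind (x ∈ X0 ∧ ∃ w ∈ E, D.q v w = D.q n x) * sg (χ x)) := by
      intro v
      refine mul_nonneg (ind_nonneg _) (mul_nonneg (cA0 v) ?_)
      refine pd_ind (fun x => x ∈ X0 ∧ ∃ w ∈ E, D.q v w = D.q n x) ?_ χ
      rintro x y ⟨i1, w, i2, i3⟩ ⟨j1, w', j2, j3⟩
      exact ⟨Submodule.add_mem _ i1 j1, w + w', Submodule.add_mem _ i2 j2, ETC.add_common i3 j3⟩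
    rw [g1]
    refine Finset.sum_pos' (fun v _ => pos v) ⟨0, Finset.mem_univ _, ?_⟩
    rw [ind_true (C.zero n' : C D n' 0), one_mul]
    refine mul_pos (sum_ind_pos (v := (0 : V)) ⟨E.zero_mem, C.zero 0⟩) ?_
    have g2 : ∀ x, ind (x ∈ X0 ∧ ∃ w ∈ E, D.q 0 w = D.q n x) * sg (χ x) =
        ind (x ∈ X0 ∧ ∃ w ∈ E, D.q 0 w = D.q n x) := by
      intro x
      by_cases h : x ∈ X0 ∧ ∃ w ∈ E, D.q 0 w = D.q n x
      · obtain ⟨i1, w, i2, i3⟩ := h
        have i4 : C D n x := (i3.symm.trans (C.zero' w : C D 0 w))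
        rw [c2 x i1 i4, ETC.sg_zero, mul_one]
      · rw [ind_false h, zero_mul]
    rw [Finset.sum_congr rfl fun x _ => g2 x]
    exact sum_ind_pos (v := (0 : V)) ⟨Submodule.zero_mem _, 0, E.zero_mem,
      Eq.trans (C.zero 0 : C D 0 0) (Eq.symm (C.zero n : C D n 0))⟩
  have e5 : ∑ x, ind (x ∈ X0) * sg (χ x) * (F x - 2 * G x) =
      ∑ x, ind (x ∈ X0) * sg (χ x) * F x - 2 * ∑ x, ind (x ∈ X0) * sg (χ x) * G x := by
    rw [Finset.mul_sum, ← Finset.sum_sub_distrib]
    refine Finset.sum_congr rfl fun x _ => ?_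
    ring
  rw [e2, e3] at e5
  linarith

/-- **(8)** the slot `a0` -/
theorem pair [Finite V] : ∃ a0, Sg D c a0 ∧ ∀ n, Sg D c n → C D a0 n ∨ D.q a0 n = c := by
  obtain ⟨a0, h1, h2⟩ := base_of_moments (D := D) (Γ := Gm D c) (G := Hm E l) (x := a)
    (fun s hs k hk => by
      have hA : Aa D c l s := X.a_iff.2 hs
      exact ⟨X.ann_mem hA.1 hk, hA.2 k hk⟩)
    (fun {_} => X.m1) (fun {_} => X.m2 fun n n' hn hn' => X.six hn hn')
  have hA : Aa D c l a0 := X.a_iff.2 h1
  refine ⟨a0, hA.1, fun n hn => ?_⟩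
  rcases zm (l n) with h3 | h3
  · exact Or.inl (h2 n ⟨X.sd n hn, h3⟩)
  · right
    obtain ⟨r, hr⟩ := hA.1
    have h4 : n + r ∈ Hm E l := (hm_shift (X.nC hA hr)).2 ⟨X.sd n hn, h3⟩
    rw [← hr]
    exact q_eq_iff.2 (h2 _ h4)

end HPB

/-- **THEOREM HP** (note 2730, helper38): if for one symbol `c ≠ 0` there are a subspace `E`
containing all slots of `c` and a functional `l`, not zero on `E`, such that all `v ∈ E` with
`l v = 1` are slots of `c`, a structure with `K4At` is refuted. -/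
theorem false_of_HP [Finite V] (he : D.e = 0) {c : Q} (cne : c ≠ D.z)
    (k4 : ∀ z, z ≠ 0 → ETCD2.K4At D z) {E : Submodule (ZMod 2) V}
    {l : Module.Dual (ZMod 2) V} (sd : ∀ s, Sg D c s → s ∈ E)
    (hc : ∀ v ∈ E, l v = 1 → Sg D c v) (ne : ∃ v ∈ E, l v = 1) : False := by
  have X : HPS D c E l := ⟨he, cne, sd, hc⟩
  obtain ⟨n0, h1, h2⟩ := ne
  obtain ⟨a, -, h3⟩ := X.one h1 h2
  have Y : HPB D c E l a n0 := ⟨X, h3, h1, h2⟩
  obtain ⟨a0, h4, h5⟩ := Y.pair
  refine false_of_pair cne h4 (k4 a0 ?_) h5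
  rintro rfl
  exact X.nz h4

/-- the same: the non-slots of `c` in the span of the slots of `c` span that span, for every
symbol `c ≠ 0` of a structure with `K4At`. -/
theorem nonslots_span [Finite V] (he : D.e = 0) {c : Q} (cne : c ≠ D.z)
    (k4 : ∀ z, z ≠ 0 → ETCD2.K4At D z) :
    Submodule.span (ZMod 2) {v | Sg D c v} ≤
      Submodule.span (ZMod 2) {v | v ∈ Submodule.span (ZMod 2) {v | Sg D c v} ∧ ¬ Sg D c v} := by
  intro x hx
  by_contra hcon
  obtain ⟨l, h1, h2⟩ := ETC.exists_dual_sep hcon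
  refine false_of_HP he cne k4 (E := Submodule.span (ZMod 2) {v | Sg D c v}) (l := l)
    (fun s hs => Submodule.subset_span hs) (fun v hv hl => ?_) ⟨x, hx, h1⟩
  by_contra hns
  have := h2 v (Submodule.subset_span ⟨hv, hns⟩)
  rw [hl] at this
  exact one_ne_zero this

end Pool.Agent.ETPN
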