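import Pool.Agent.ETPN.N4

/-!
**THEOREM P** (note 2764, helper27): (ST) at one slot `t` of `c` implies (ST) at all slots of `c`;
with THEOREM G a structure with `K4At` has no `x` of minimal rank and `t` not commuting with `x`
with `V_t` commutative.
-/

set_option autoImplicit false
set_option linter.unusedSimpArgs false
set_option linter.unnecessarySeqFocus false
set_option linter.unusedSectionVars false

namespace Pool.Agent.ETPN

open Pool.Agent.Helper58.PLine (QData)
open Pool.Agent.ETCP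
open Pool.Agent.ETPF
open Pool.Agent.ETPG
open ETC (ind ind_true ind_false ind_and ind_congr ind_nonneg ind_le sum_ind_shift)

variable {V Q : Type} [AddCommGroup V] [Module (ZMod 2) V] {D : QData V Q}

/-- the hypotheses: `-1 = 1`, `c ≠ 0` and (ST) at the slot `t` of `c` -/
structure TP (D : QData V Q) (c : Q) (t : V) : Prop where
  he : D.e = 0
  cne : c ≠ D.z
  ht : Sg D c t
  st : ∀ b, Sg D c b → C D t b → b + t ∈ Gm D c

namespace TP

variable {c : Q} {t : V} (X : TP D c t)

include X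

theorem a1 {u : V} (hu : Sx D c t u) : ∃ w, w + t ∈ Gm D c ∧ D.q u w = c ∧ C D t w := by
  obtain ⟨r, h1, h2⟩ := (sg_add hu.1).1 hu.2
  exact ⟨r, X.st _ (Sg.right h2) h1, h2, h1⟩

theorem sx_of {y : V} (h : D.q t y = c) : Sx D c t y := by
  refine ⟨Sg.right h, t, ?_⟩
  have h1 : D.q (y + t) t = D.q y t := q_eq' ((C.self X.he t).of_eq (eo (by
    abel_nf <;> simp only [ch2, ch3, ch4, add_zero, zero_add])) rfl)
  rw [h1, D.symm, h]

theorem sx_of' {w y : V} (hw : w + t ∈ Gm D c) (h : D.q w y = c) : Sx D c t y := by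
  have h2 : Sg D c (y + w) := ⟨w, by
    have h1 : D.q (y + w) w = D.q y w := q_eq' ((C.self X.he w).of_eq (eo (by
      abel_nf <;> simp only [ch2, ch3, ch4, add_zero, zero_add])) rfl)
    rw [h1, D.symm, h]⟩
  refine ⟨Sg.right h, ?_⟩
  have h3 := hw _ h2
  rwa [show y + w + (w + t) = y + t from eo (by
    abel_nf <;> simp only [ch2, ch3, ch4, add_zero, zero_add])] at h3

theorem a3 [Finite V] {u w : V} (hu : Sx D c t u) (hw : w + t ∈ Gm D c) :
    ∀ v, C D w v → Sg D c (u + v) := by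
  obtain ⟨w1, h1, h2, -⟩ := X.a1 hu
  have h3 : Fm D c u w := by
    intro k hk
    have h4 : Sg D c (w1 + k) := Sg.right (qa h2 hk)
    have h5 := TG.gm_add hw h1 _ h4
    rwa [show w1 + k + (w + w1) = w + k from eo (by
      abel_nf <;> simp only [ch2, ch3, ch4, add_zero, zero_add])] at h5
  exact Fm.swap (TG.a2 X.ht hw) hu.1 h3

theorem sx_add [Finite V] {u w v : V} (hu : Sx D c t u) (hw : w + t ∈ Gm D c)
    (hv : C D w v) : Sx D c t (u + v) := by
  refine ⟨X.a3 hu hw v hv, ?_⟩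
  have h1 := X.a3 hu hw (v + w) (hv.add (C.self X.he w))
  have h2 := hw _ h1
  rwa [show u + (v + w) + (w + t) = u + v + t from eo (by
    abel_nf <;> simp only [ch2, ch3, ch4, add_zero, zero_add])] at h2

theorem ann_sub [Finite V] {w v : V} (hw : w + t ∈ Gm D c) (hv : C D w v) : v ∈ Gx D c t :=
  fun _ hu => X.sx_add hu hw hv

theorem ann_sub' [Finite V] {v : V} (hv : C D t v) : v ∈ Gx D c t :=
  X.ann_sub (by rw [ZModModule.add_self]; exact Submodule.zero_mem _) hv

theorem sx_iff [Finite V] {y u : V} (hy : D.q t y = c) : Sx D c t u ↔ u + y ∈ Gx D c t := by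
  constructor
  · intro hu
    obtain ⟨w, h1, h2, -⟩ := X.a1 hu
    obtain ⟨r, h3, h4⟩ := (TG.a2 X.ht h1).common X.ht
    have h5 : u + r ∈ Gx D c t := X.ann_sub h1 (q_eq_iff.1 (by rw [h3, D.symm, h2]))
    have h6 : r + y ∈ Gx D c t := X.ann_sub' (q_eq_iff.1 (by rw [h4, hy]))
    have h7 := (Gx D c t).add_mem h5 h6
    rwa [show u + r + (r + y) = u + y from eo (by
      abel_nf <;> simp only [ch2, ch3, ch4, add_zero, zero_add])] at h7
  · intro hu
    have := hu y (X.sx_of hy)
    rwa [show y + (u + y) = u from eo (by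
      abel_nf <;> simp only [ch2, ch3, ch4, add_zero, zero_add])] at this

theorem sx_iff' [Finite V] {y u : V} (hy : Sx D c t y) : Sx D c t u ↔ u + y ∈ Gx D c t := by
  obtain ⟨y0, h0⟩ := X.ht
  constructor
  · intro hu
    have h1 := (Gx D c t).add_mem ((X.sx_iff h0).1 hu) ((X.sx_iff h0).1 hy)
    rwa [show u + y0 + (y + y0) = u + y from eo (by
      abel_nf <;> simp only [ch2, ch3, ch4, add_zero, zero_add])] at h1
  · intro hu
    have := hu y hy
    rwa [show y + (u + y) = u from eo (by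
      abel_nf <;> simp only [ch2, ch3, ch4, add_zero, zero_add])] at this

theorem b1 [Fintype V] {w : V} (hw : w + t ∈ Gm D c) :
    ∑ y, ind (Sx D c t y ∧ D.q w y = c) = cG D c t w := by
  obtain ⟨y, hy⟩ := TG.a2 X.ht hw
  refine sum_ind_shift _ _ y fun v => ?_
  have h1 : Sx D c t y := X.sx_of' hw hy
  rw [X.sx_iff' h1, q_shift hy]
  have e : v + y + y = v := eo (by abel_nf <;> simp only [ch2, ch3, ch4, add_zero, zero_add])
  rw [e]

theorem b2 [Fintype V] {y : V} (hy : Sx D c t y) :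
    ∑ w, ind (w + t ∈ Gm D c ∧ D.q w y = c) = cM D c y := by
  obtain ⟨w, h1, h2, -⟩ := X.a1 hy
  refine sum_ind_shift _ _ w fun v => ?_
  rw [mem_shift h1, q_shift' (by rw [D.symm]; exact h2)]
  exact and_congr_right fun _ => ⟨C.symm, C.symm⟩

theorem b3 {g : V} (hg : g ∈ Gm D c) : ∃ r, D.q t r = c ∧ C D g r := by
  obtain ⟨r, h1, h2⟩ := X.ht.common (TG.sl_gm X.ht hg)
  refine ⟨r, h1, ?_⟩
  exact (q_eq'_iff.1 (h1.trans h2.symm)).of_eq (eo (by
    abel_nf <;> simp only [ch2, ch3, ch4, add_zero, zero_add])) rfl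

theorem b4 [Fintype V] {g : V} (hg : g ∈ Gm D c) :
    ∑ y, ind (Sx D c t y ∧ C D g y) = cG D c t g := by
  obtain ⟨r, h1, h2⟩ := X.b3 hg
  refine sum_ind_shift _ _ r fun v => ?_
  rw [X.sx_iff' (X.sx_of h1), C_shift h2]
  have e : v + r + r = v := eo (by abel_nf <;> simp only [ch2, ch3, ch4, add_zero, zero_add])
  rw [e]

theorem e0 [Fintype V] :
    ∑ w, ind (w + t ∈ Gm D c) * cG D c t w = ∑ g, ind (g ∈ Gm D c) * cG D c t g := by
  calc ∑ w, ind (w + t ∈ Gm D c) * cG D c t w
      = ∑ w, ∑ y, ind (w + t ∈ Gm D c) * ind (Sx D c t y ∧ D.q w y = c) := by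
        refine Finset.sum_congr rfl fun w _ => ?_
        by_cases hw : w + t ∈ Gm D c
        · rw [← Finset.mul_sum, X.b1 hw]
        · simp only [ind_false hw, zero_mul, Finset.sum_const_zero]
    _ = ∑ y, ∑ w, ind (Sx D c t y) * ind (w + t ∈ Gm D c ∧ D.q w y = c) := by
        rw [Finset.sum_comm]
        refine Finset.sum_congr rfl fun y _ => Finset.sum_congr rfl fun w _ => ?_
        simp only [ind_and]; ring
    _ = ∑ y, ∑ g, ind (Sx D c t y) * ind (g ∈ Gm D c ∧ C D y g) := by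
        refine Finset.sum_congr rfl fun y _ => ?_
        by_cases hy : Sx D c t y
        · rw [← Finset.mul_sum, ← Finset.mul_sum, X.b2 hy, cM]
        · simp only [ind_false hy, zero_mul]
    _ = ∑ g, ∑ y, ind (g ∈ Gm D c) * ind (Sx D c t y ∧ C D g y) := by
        rw [Finset.sum_comm]
        refine Finset.sum_congr rfl fun g _ => Finset.sum_congr rfl fun y _ => ?_
        simp only [ind_and]
        rw [ind_congr (show C D y g ↔ C D g y from ⟨C.symm, C.symm⟩)]; ring
    _ = _ := by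
        refine Finset.sum_congr rfl fun g _ => ?_
        rw [← Finset.mul_sum]
        by_cases hg : g ∈ Gm D c
        · rw [X.b4 hg]
        · rw [ind_false hg, zero_mul, zero_mul]

/-- **(2)**: every `h ∈ G` commutes with some `w ∈ t + Stab` -/
theorem star [Finite V] {h : V} (hh : h ∈ Gx D c t) : ∃ w, w + t ∈ Gm D c ∧ C D w h := by
  have := Fintype.ofFinite V
  have e := X.e0
  rw [TG.cG_swap, TG.cG_swap] at e
  have hle : ∀ h ∈ (Finset.univ : Finset V), ind (h ∈ Gx D c t) *
      ∑ w, ind (w + t ∈ Gm D c ∧ C D w h) ≤ ind (h ∈ Gx D c t) *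
      ∑ g, ind (g ∈ Gm D c ∧ C D g h) := by
    intro h _
    refine mul_le_mul_of_nonneg_left (sum_ind_le fun w0 hw0 v => ?_) (ind_nonneg _)
    rw [mem_shift hw0.1, C_shift' hw0.2]
  have e1 := (Finset.sum_eq_sum_iff_of_le hle).1 e h (Finset.mem_univ _)
  rw [ind_true hh, one_mul, one_mul] at e1
  have e2 : 0 < ∑ g, ind (g ∈ Gm D c ∧ C D g h) :=
    sum_ind_pos (v := (0 : V)) ⟨Submodule.zero_mem _, C.zero' h⟩
  rw [← e1] at e2
  exact exists_of_sum_pos e2

/-- **(3)** the slots in `G` are in `t + Stab` -/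
theorem three [Finite V] {a : V} (ha : Sg D c a) (hG : a ∈ Gx D c t) : a + t ∈ Gm D c := by
  obtain ⟨w, h1, h2⟩ := X.star hG
  have h3 : ∀ z, D.q a z = c → Sx D c t z := by
    intro z hz
    have hz' : D.q z a = c := by rw [D.symm]; exact hz
    refine ⟨Sg.right hz, ?_⟩
    have h4 : Sg D c (z + w) := (sg_add (Sg.right hz)).2 ⟨a, h2, hz'⟩
    have h5 := h1 _ h4
    rwa [show z + w + (w + t) = z + t from eo (by
      abel_nf <;> simp only [ch2, ch3, ch4, add_zero, zero_add])] at h5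
  obtain ⟨z, hz⟩ := ha
  have ha : Sg D c a := ⟨z, hz⟩
  have h4 : ∀ v, C D a v → v ∈ Gx D c t := by
    intro v hv
    have h5 := (X.sx_iff' (h3 z hz)).1 (h3 _ (qa hz hv))
    rwa [show z + v + z = v from eo (by
      abel_nf <;> simp only [ch2, ch3, ch4, add_zero, zero_add])] at h5
  intro s hs
  obtain ⟨y, h5, h6⟩ := hs.common X.ht
  have hy : Sx D c t y := X.sx_of h6
  have h7 : Fm D c a y := fun v hv => (h4 v hv y hy).1
  have h8 : Fm D c y a := Fm.swap hy.1 ha h7
  have h9 : C D y (s + t) := q_eq_iff.1 (by rw [D.symm y s, D.symm y t, h5, h6])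
  have := h8 _ h9
  rwa [show a + (s + t) = s + (a + t) from by abel] at this

/-- **(4)** -/
theorem four [Finite V] {y w v : V} (hy : Sx D c t y) (hw : w + t ∈ Gm D c) (h1 : C D y v)
    (h2 : C D w v) : v ∈ Gm D c := by
  have h3 : Sg D c (y + w) := by
    have := hw _ hy.2
    rwa [show y + t + (w + t) = y + w from eo (by
      abel_nf <;> simp only [ch2, ch3, ch4, add_zero, zero_add])] at this
  obtain ⟨r, h4, h5⟩ := (sg_add hy.1).1 h3
  have h6 := X.three (Sg.right h5) (X.ann_sub hw h4)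
  have h7 := X.three (Sg.right (qa h5 h1)) (X.ann_sub hw (h4.add h2))
  have := Submodule.add_mem _ h6 h7
  rwa [show r + t + (r + v + t) = v from eo (by
      abel_nf <;> simp only [ch2, ch3, ch4, add_zero, zero_add])] at this

/-- **(5)** (ST) at every neighbour of `t` -/
theorem five [Finite V] {y : V} (hy : D.q t y = c) : TP D c y := by
  refine ⟨X.he, X.cne, Sg.right hy, fun b hb hyb => ?_⟩
  obtain ⟨r, h1, h2⟩ := X.ht.common hb
  have h3 : C D t (r + y) := q_eq_iff.1 (h1.trans hy.symm)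
  have h4 : D.q b (r + y) = c := qa h2 hyb.symm
  have h5 : Sx D c t b := ⟨hb, (sg_add hb).2 ⟨r + y, h3, h4⟩⟩
  have hy' : Sx D c t y := X.sx_of hy
  have h6 : b + y ∈ Gx D c t := (X.sx_iff' hy').1 h5
  obtain ⟨w, h7, h8⟩ := X.star h6
  exact X.four hy' h7 (hyb.add (C.self X.he y)) h8

/-- **THEOREM P** -/
theorem all [Finite V] {s : V} (hs : Sg D c s) : TP D c s := by
  obtain ⟨y, h1, h2⟩ := X.ht.common hs
  exact (X.five h1).five (by rw [D.symm]; exact h2)

end TP

/-- (ST) at a slot `t` such that `V_t` commutes with `S ∩ V_t` -/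
theorem TP.of_comm {c : Q} {t : V} (he : D.e = 0) (cne : c ≠ D.z) (ht : Sg D c t)
    (hc : ∀ a v, Sg D c a → C D t a → C D t v → C D a v) : TP D c t := by
  refine ⟨he, cne, ht, fun a ha hta => ?_⟩
  -- `N_t ⊆ N_a`
  have h1 : ∀ y, D.q t y = c → D.q a y = c := by
    intro y hy
    obtain ⟨r, h2, h3⟩ := ht.common ha
    have h4 := hc a (r + y) ha hta (q_eq_iff.1 (h2.trans hy.symm))
    have h5 := qa h3 h4
    rwa [show r + (r + y) = y from eo (by
      abel_nf <;> simp only [ch2, ch3, ch4, add_zero, zero_add])] at h5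
  intro s hs
  obtain ⟨y, h2, h3⟩ := hs.common ht
  have h4 := h1 y h3
  have h5 : C D y (a + t) := q_eq_iff.1 (by rw [D.symm y a, D.symm y t, h4, h3])
  exact Sg.right (qa (by rw [D.symm]; exact h2 : D.q y s = c) h5)

/-- one slot `t` with (ST) of one symbol `c = q (x, u) ≠ 0`, `x` of minimal rank, refutes a
structure with `K4At` -/
theorem false_of_ST_slot [Finite V] (he : D.e = 0) {x u t : V} (hu : ¬ C D x u)
    (mr : ∀ v, v ≠ 0 → Nat.card (D.ann v) ≤ Nat.card (D.ann x)) (k4 : ETCD2.K4At D x)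
    (ht : Sg D (D.q x u) t) (st : ∀ b, Sg D (D.q x u) b → C D t b → b + t ∈ Gm D (D.q x u)) :
    False := by
  have X : TP D (D.q x u) t := ⟨he, hu, ht, st⟩
  refine false_of_one_ST he hu mr k4 fun s s' h1 h2 h3 r hr => ?_
  have := (X.all h1).st s' h2 h3 r hr
  rwa [add_comm s' s] at this

/-- **EX''** (note 2764, helper27): `x` of minimal rank, `t` not commuting with `x`, all elements
of `V_t` commute with the slots of `q (x, t)` in `V_t` -/
theorem false_of_comm [Finite V] (he : D.e = 0) {x t : V} (hxt : ¬ C D x t)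
    (mr : ∀ v, v ≠ 0 → Nat.card (D.ann v) ≤ Nat.card (D.ann x)) (k4 : ETCD2.K4At D x)
    (hc : ∀ a v, Sg D (D.q x t) a → C D t a → C D t v → C D a v) : False := by
  have X := TP.of_comm he (c := D.q x t) hxt (Sg.right rfl) hc
  exact false_of_ST_slot he hxt mr k4 X.ht X.st

end Pool.Agent.ETPN
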