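import Pool.Agent.ETPN.N4

/-!
**THEOREM W** (note 2717, helper34): one slot `t` of one symbol `c ≠ 0` with
`V_t ⊆ ⟨t⟩ + Stab (S_c)` refutes a structure with `K4At`.
-/

set_option autoImplicit false
set_option linter.unusedSimpArgs false
set_option linter.unnecessarySeqFocus false
set_option linter.unusedSectionVars false

namespace Pool.Agent.ETPN

open Pool.Agent.Helper58.PLine (QData)
open Pool.Agent.ETCP
open Pool.Agent.ETPF
open Pool.Agent.ETPG

variable {V Q : Type} [AddCommGroup V] [Module (ZMod 2) V] {D : QData V Q}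

variable (D) in
/-- the stabilizer of `{r | r + V_s ⊆ S}` -/
def Gf (c : Q) (s : V) : Submodule (ZMod 2) V :=
  mkS (fun v => ∀ r, Fm D c s r → Fm D c s (r + v)) (fun r h => by rwa [add_zero])
    fun a b h h' r hr => by rw [← add_assoc]; exact h' _ (h _ hr)

theorem fm_base [Finite V] {c : Q} {s g r : V} (hs : Sg D c s) (hg : g ∈ Gm D c)
    (h : Fm D c s r) : Fm D c (s + g) r := by
  have h1 : Fm D c r s := Fm.swap (Fm.slot h) hs h
  have h2 := Fm.gm h1 hg
  exact Fm.swap (hg s hs) (Fm.slot h) h2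

theorem gm_Gf {c : Q} {s g : V} (hg : g ∈ Gm D c) : g ∈ Gf D c s := fun _ hr => Fm.gm hr hg

theorem ann_Gf [Finite V] {c : Q} {s w v : V} (hs : Sg D c s) (hw : w + s ∈ Gm D c)
    (hv : C D w v) : v ∈ Gf D c s := by
  intro r hr
  have h1 := fm_base hs hw hr
  rw [show s + (w + s) = w from eo (by
    abel_nf <;> simp only [ch2, ch3, ch4, add_zero, zero_add])] at h1
  have h2 := Fm.ann h1 hv
  have h3 : s + w ∈ Gm D c := by rwa [add_comm]
  have h4 := fm_base (TG.a2 hs hw) h3 h2
  rwa [show w + (s + w) = s from eo (by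
    abel_nf <;> simp only [ch2, ch3, ch4, add_zero, zero_add])] at h4

theorem slot_Gf {c : Q} {s r v : V} (hr : D.q s r = c) (hv : v ∈ Gf D c s) :
    Sg D c (r + v) := Fm.slot (hv r (Fm.self hr))

/-- a cross -/
structure CR (D : QData V Q) (c : Q) (G1 G2 : Submodule (ZMod 2) V) (a b : V) : Prop where
  a1 : a ∈ G1
  b2 : b ∈ G2
  slot : ∀ s, Sg D c s ↔ s + b ∈ G1 ∨ s + a ∈ G2
  h1 : ∀ g ∈ Gm D c, g ∈ G1
  h2 : ∀ g ∈ Gm D c, g ∈ G2
  h12 : ∀ v ∈ G1, v ∈ G2 → v ∈ Gm D c
  nz : ¬ Sg D c 0

namespace CR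

variable {c : Q} {G1 G2 : Submodule (ZMod 2) V} {a b : V} (X : CR D c G1 G2 a b)

include X

theorem symm : CR D c G2 G1 b a := ⟨X.b2, X.a1, fun s => (X.slot s).trans or_comm, X.h2, X.h1,
  fun v h h' => X.h12 v h' h, X.nz⟩

theorem b1 : b ∉ G1 := fun h => X.nz ((X.slot 0).2 (Or.inl (by rwa [zero_add])))

/-- slots in `G1` -/
theorem in1 {g : V} (hg : g ∈ G1) (h : Sg D c g) : g + a ∈ Gm D c := by
  rcases (X.slot g).1 h with h1 | h1
  · exact absurd ((Submodule.add_mem_iff_right G1 hg).1 h1) X.b1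
  · exact X.h12 _ (G1.add_mem hg X.a1) h1

/-- no common neighbour in `b + G1` -/
theorem no1 (he : D.e = 0) {x y w : V} (hx : x ∈ G1) (hxa : x + a ∉ Gm D c) (hy : y ∈ G2)
    (hy0 : y ∉ Gm D c) (hw : w + b ∈ G1) (h1 : D.q w (x + b) = c) (h2 : D.q w (a + y) = c) :
    False := by
  have h3 : D.q w (x + b + w) = c := qa h1 (C.self he w)
  have h4 : D.q w (a + y + w) = c := qa h2 (C.self he w)
  have h5 := X.in1 (g := x + b + w) (by
    have := G1.add_mem hx hw
    rwa [show x + (w + b) = x + b + w from by abel] at this) (Sg.right h3)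
  have h6 : w + b ∈ Gm D c := by
    rcases (X.slot _).1 (Sg.right h4) with h7 | h7
    · exfalso
      apply hy0
      refine X.h12 _ ?_ hy
      have := G1.add_mem (G1.add_mem h7 hw) X.a1
      rwa [show a + y + w + b + (w + b) + a = y from eo (by
        abel_nf <;> simp only [ch2, ch3, ch4, add_zero, zero_add])] at this
    · refine X.h12 _ hw ?_
      have := G2.add_mem (G2.add_mem h7 hy) X.b2
      rwa [show a + y + w + a + y + b = w + b from eo (by
        abel_nf <;> simp only [ch2, ch3, ch4, add_zero, zero_add])] at this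
  apply hxa
  have := (Gm D c).add_mem h5 h6
  rwa [show x + b + w + a + (w + b) = x + a from eo (by
    abel_nf <;> simp only [ch2, ch3, ch4, add_zero, zero_add])] at this

/-- one of the two arms is short -/
theorem arm (he : D.e = 0) {x y : V} (hx : x ∈ G1) (hx0 : x ∉ Gm D c) (hxa : x + a ∉ Gm D c)
    (hy : y ∈ G2) (hy0 : y ∉ Gm D c) (hyb : y + b ∉ Gm D c) : False := by
  have s1 : Sg D c (x + b) := (X.slot _).2 (Or.inl (by
    rwa [show x + b + b = x from eo (by
      abel_nf <;> simp only [ch2, ch3, ch4, add_zero, zero_add])]))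
  have s2 : Sg D c (a + y) := (X.slot _).2 (Or.inr (by
    rwa [show a + y + a = y from eo (by
      abel_nf <;> simp only [ch2, ch3, ch4, add_zero, zero_add])]))
  obtain ⟨w, h1, h2⟩ := s1.common s2
  rw [D.symm] at h1 h2
  rcases (X.slot w).1 (Sg.left h1) with h3 | h3
  · exact X.no1 he hx hxa hy hy0 h3 h1 h2
  · refine X.symm.no1 he hy hyb hx hx0 h3 ?_ ?_
    · rwa [add_comm y a]
    · rwa [add_comm b x]

/-- the short arm -/
theorem short [Finite V] (he : D.e = 0) (cne : c ≠ D.z) (k4 : ∀ z, z ≠ 0 → ETCD2.K4At D z)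
    (hs : ∀ y ∈ G2, y ∈ Gm D c ∨ y + b ∈ Gm D c) : False := by
  -- `S = (b + G1) ∪ (a + Stab)`
  have sl : ∀ s, Sg D c s → s + b ∈ G1 ∨ s + a ∈ Gm D c := by
    intro s h
    rcases (X.slot s).1 h with h1 | h1
    · exact Or.inl h1
    · rcases hs _ h1 with h2 | h2
      · exact Or.inr h2
      · left
        have := G1.add_mem (X.h1 _ h2) X.a1
        rwa [show s + a + b + a = s + b from eo (by
          abel_nf <;> simp only [ch2, ch3, ch4, add_zero, zero_add])] at this
  have sa : Sg D c a := (X.slot a).2 (Or.inr (by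
    rw [ZModModule.add_self]; exact Submodule.zero_mem _))
  have nh : ∀ g ∈ Gm D c, ¬ Sg D c g := fun g hg h => by
    have := hg g h
    rw [ZModModule.add_self] at this
    exact X.nz this
  -- neighbours of `a + Stab`
  have na : ∀ w r, w + a ∈ Gm D c → D.q w r = c → r + b ∈ G1 := by
    intro w r hw hr
    refine (sl r (Sg.right hr)).resolve_right fun h => ?_
    refine nh (r + w) ?_ (Sg.right (qa hr (C.self he w)))
    have := (Gm D c).add_mem h hw
    rwa [show r + a + (w + a) = r + w from eo (by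
      abel_nf <;> simp only [ch2, ch3, ch4, add_zero, zero_add])] at this
  -- neighbours of `b + G1`
  have nb : ∀ n, n + b ∈ G1 → Sg D c n → ∃ w, w + a ∈ Gm D c ∧ D.q n w = c := by
    intro n hn sn
    obtain ⟨m, hm⟩ := sn
    rcases sl m (Sg.right hm) with h1 | h1
    · refine ⟨m + n, ?_, qa hm (C.self he n)⟩
      refine X.in1 ?_ (Sg.right (qa hm (C.self he n)))
      have := G1.add_mem h1 hn
      rwa [show m + b + (n + b) = m + n from eo (by
        abel_nf <;> simp only [ch2, ch3, ch4, add_zero, zero_add])] at this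
    · exact ⟨m, h1, hm⟩
  -- no commuting pair between `a + Stab` and `b + G1`
  have nc : ∀ n w, n + b ∈ G1 → Sg D c n → w + a ∈ Gm D c → ¬ C D n w := by
    intro n w hn sn hw hc
    obtain ⟨w', h1, h2⟩ := nb n hn sn
    refine nh (w' + w) ?_ (Sg.right (qa h2 hc))
    have := (Gm D c).add_mem h1 hw
    rwa [show w' + a + (w + a) = w' + w from eo (by
      abel_nf <;> simp only [ch2, ch3, ch4, add_zero, zero_add])] at this
  have T : TG D c := by
    refine ⟨he, cne, fun s s' h1 h2 h3 => ?_⟩
    rcases sl s h1 with h4 | h4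
    · rcases sl s' h2 with h5 | h5
      · obtain ⟨w, h6, h7⟩ := nb s h4 h1
        -- `s + s' ∈ V_s ∩ G1`
        have h8 : s + s' ∈ G1 := by
          have := G1.add_mem h4 h5
          rwa [show s + b + (s' + b) = s + s' from eo (by
            abel_nf <;> simp only [ch2, ch3, ch4, add_zero, zero_add])] at this
        have h9 : C D s (s + s') := (C.self he s).add h3
        have h10 := X.in1 (g := w + (s + s')) (by
          refine G1.add_mem ?_ h8
          have := G1.add_mem (X.h1 _ h6) X.a1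
          rwa [show w + a + a = w from eo (by
            abel_nf <;> simp only [ch2, ch3, ch4, add_zero, zero_add])] at this)
          (Sg.right (qa h7 h9))
        have := (Gm D c).add_mem h10 h6
        rwa [show w + (s + s') + a + (w + a) = s + s' from eo (by
          abel_nf <;> simp only [ch2, ch3, ch4, add_zero, zero_add])] at this
      · exact absurd h3 (nc s s' h4 h1 h5)
    · rcases sl s' h2 with h5 | h5
      · exact absurd h3.symm (nc s' s h5 h2 h4)
      · have := (Gm D c).add_mem h4 h5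
        rwa [show s + a + (s' + a) = s + s' from eo (by
          abel_nf <;> simp only [ch2, ch3, ch4, add_zero, zero_add])] at this
  obtain ⟨x0, h1, h2⟩ := T.exists_base sa
  have s0 : Sg D c x0 := TG.a2 sa h1
  -- `G1 ⊆ V_{x0}`
  have hG : ∀ v ∈ G1, C D x0 v := by
    intro v hv
    refine h2 v fun u hu => ?_
    have hub : u + b ∈ G1 := by
      refine (sl u hu.1).resolve_right fun h => nh _ h hu.2
    refine ⟨(X.slot _).2 (Or.inl ?_), (X.slot _).2 (Or.inl ?_)⟩
    · have := G1.add_mem hub hv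
      rwa [show u + b + v = u + v + b from by abel] at this
    · have := G1.add_mem (G1.add_mem hub hv) X.a1
      rwa [show u + b + v + a = u + v + a + b from by abel] at this
  refine false_of_pair cne s0 (k4 x0 (T.ne_zero s0)) fun n hn => ?_
  rcases sl n hn with h3 | h3
  · right
    obtain ⟨r, hr⟩ := s0
    have h4 := na x0 r h1 hr
    have h5 : C D x0 (n + r) := by
      have := hG _ (G1.add_mem h3 h4)
      rwa [show n + b + (r + b) = n + r from eo (by
        abel_nf <;> simp only [ch2, ch3, ch4, add_zero, zero_add])] at this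
    rw [← hr]
    exact q_eq_iff.2 h5
  · left
    refine hG _ ?_
    have := G1.add_mem (X.h1 _ h3) X.a1
    rwa [show n + a + a = n from eo (by
      abel_nf <;> simp only [ch2, ch3, ch4, add_zero, zero_add])] at this

end CR

/-- the cross of a slot `t` with `V_t ⊆ ⟨t⟩ + Stab` -/
theorem cross [Finite V] (he : D.e = 0) {c : Q} (cne : c ≠ D.z) {t u : V}
    (hu : D.q t u = c) (h : ∀ v, C D t v → v ∈ Gm D c ∨ v + t ∈ Gm D c) :
    CR D c (Gf D c u) (Gf D c (u + t)) u (u + t) := by
  have nz : ¬ Sg D c 0 := by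
    rintro ⟨r, hr⟩
    exact cne (hr.symm.trans (C.zero' r))
  have htu : D.q u t = c := by rw [D.symm]; exact hu
  have su : Sg D c u := ⟨t, htu⟩
  have hu' : D.q t (u + t) = c := qa hu (C.self he t)
  have htu' : D.q (u + t) t = c := by rw [D.symm]; exact hu'
  have su' : Sg D c (u + t) := ⟨t, htu'⟩
  have e0 : ∀ v : V, v + v ∈ Gm D c := fun v => by
    rw [ZModModule.add_self]; exact Submodule.zero_mem _
  have c1 : ∀ s, Sg D c s → s + t ∈ Gf D c u ∨ s + t ∈ Gf D c (u + t) := by
    intro s hs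
    obtain ⟨w, h1, h2⟩ := hs.common ⟨u, hu⟩
    have h3 : C D t (w + u) := q_eq_iff.1 (h2.trans hu.symm)
    have h4 : C D w (s + t) := q_eq_iff.1 (by rw [D.symm w s, D.symm w t, h1, h2])
    rcases h _ h3 with h5 | h5
    · exact Or.inl (ann_Gf su h5 h4)
    · exact Or.inr (ann_Gf su' (by rwa [← add_assoc]) h4)
  have d1 : ∀ v, v ∈ Gf D c u → Sg D c (t + v) := fun v hv => slot_Gf htu hv
  have d2 : ∀ v, v ∈ Gf D c (u + t) → Sg D c (t + v) := fun v hv => slot_Gf htu' hv
  have a1 : u ∈ Gf D c u := ann_Gf su (e0 u) (C.self he u)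
  have b2 : u + t ∈ Gf D c (u + t) := ann_Gf su' (e0 _) (C.self he _)
  have r1 : ∀ s, s + (u + t) ∈ Gf D c u ↔ s + t ∈ Gf D c u := by
    intro s
    constructor
    · intro h1
      have := Submodule.add_mem _ h1 a1
      rwa [show s + (u + t) + u = s + t from eo (by
        abel_nf <;> simp only [ch2, ch3, ch4, add_zero, zero_add])] at this
    · intro h1
      have := Submodule.add_mem _ h1 a1
      rwa [show s + t + u = s + (u + t) from by abel] at this
  have r2 : ∀ s, s + u ∈ Gf D c (u + t) ↔ s + t ∈ Gf D c (u + t) := by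
    intro s
    constructor
    · intro h1
      have := Submodule.add_mem _ h1 b2
      rwa [show s + u + (u + t) = s + t from eo (by
        abel_nf <;> simp only [ch2, ch3, ch4, add_zero, zero_add])] at this
    · intro h1
      have := Submodule.add_mem _ h1 b2
      rwa [show s + t + (u + t) = s + u from eo (by
        abel_nf <;> simp only [ch2, ch3, ch4, add_zero, zero_add])] at this
  have e1 : ∀ s : V, t + (s + t) = s := fun s => eo (by
    abel_nf <;> simp only [ch2, ch3, ch4, add_zero, zero_add])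
  refine ⟨a1, b2, fun s => ?_, fun g hg => gm_Gf hg, fun g hg => gm_Gf hg, ?_, nz⟩
  · rw [r1, r2]
    constructor
    · exact c1 s
    · rintro (h1 | h1)
      · have := d1 _ h1; rwa [e1] at this
      · have := d2 _ h1; rwa [e1] at this
  · intro v h1 h2 s hs
    have e2 : s + v + t = s + t + v := by abel
    rcases c1 s hs with h3 | h3
    · have := d1 (s + v + t) (by rw [e2]; exact Submodule.add_mem _ h3 h1)
      rwa [e1] at this
    · have := d2 (s + v + t) (by rw [e2]; exact Submodule.add_mem _ h3 h2)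
      rwa [e1] at this

/-- **THEOREM W** (note 2717, helper34): one slot `t` of one symbol `c ≠ 0` with
`V_t ⊆ ⟨t⟩ + Stab (S_c)` refutes a structure with `K4At`. -/
theorem false_of_W [Finite V] (he : D.e = 0) {c : Q} (cne : c ≠ D.z)
    (k4 : ∀ z, z ≠ 0 → ETCD2.K4At D z) {t : V} (ht : Sg D c t)
    (h : ∀ v, C D t v → v ∈ Gm D c ∨ v + t ∈ Gm D c) : False := by
  obtain ⟨u, hu⟩ := ht
  have X := cross he cne hu h
  by_cases h1 : ∀ y ∈ Gf D c (u + t), y ∈ Gm D c ∨ y + (u + t) ∈ Gm D c
  · exact X.short he cne k4 h1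
  · by_cases h2 : ∀ y ∈ Gf D c u, y ∈ Gm D c ∨ y + u ∈ Gm D c
    · exact X.symm.short he cne k4 h2
    · push Not at h1 h2
      obtain ⟨y, h3, h4, h5⟩ := h1
      obtain ⟨x, h6, h7, h8⟩ := h2
      exact X.arm he h6 h7 h8 h3 h4 h5

end Pool.Agent.ETPN
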