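import Pool.Agent.ETPN.U

/-!
**COMPONENT THEOREM** (note 2754, helper73; note 2756, helper82): if the slots of one symbol
`c ≠ 0` split as a disjoint union of two nonempty sets `X`, `Y` with `X + Y ⊆ S_c` and `c` is
clean (commuting slots have a non-slot sum), a structure with `K4At` is refuted.
-/

set_option autoImplicit false
set_option linter.unusedSimpArgs false
set_option linter.unnecessarySeqFocus false
set_option linter.unusedSectionVars false

namespace Pool.Agent.ETPN

open Pool.Agent.Helper58.PLine (QData)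
open Pool.Agent.ETCP
open Pool.Agent.ETPF
open Pool.Agent.ETPG
open ETC (ind ind_true ind_false ind_and ind_congr ind_nonneg ind_le sum_ind_shift)

variable {V Q : Type} [AddCommGroup V] [Module (ZMod 2) V] {D : QData V Q}

/-- the graph `Γ_c`: slots with a non-slot sum -/
def Ga (D : QData V Q) (c : Q) (s t : V) : Prop := Sg D c s ∧ Sg D c t ∧ ¬ Sg D c (s + t)

/-- same component of `Γ_c` -/
def Cp (D : QData V Q) (c : Q) : V → V → Prop := Relation.ReflTransGen (Ga D c)

theorem Ga.symm {c : Q} {s t : V} (h : Ga D c s t) : Ga D c t s :=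
  ⟨h.2.1, h.1, by rw [add_comm]; exact h.2.2⟩

theorem Cp.symm {c : Q} {s t : V} (h : Cp D c s t) : Cp D c t s := by
  induction h with
  | refl => exact Relation.ReflTransGen.refl
  | tail _ h2 ih => exact Relation.ReflTransGen.head h2.symm ih

theorem Cp.trans {c : Q} {s t r : V} (h : Cp D c s t) (h' : Cp D c t r) : Cp D c s r :=
  Relation.ReflTransGen.trans h h'

theorem Cp.slot {c : Q} {s t : V} (hs : Sg D c s) (h : Cp D c s t) : Sg D c t := by
  induction h with
  | refl => exact hs
  | tail _ h2 _ => exact h2.2.1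

theorem Cp.sum {c : Q} {s t : V} (hs : Sg D c s) (ht : Sg D c t) (h : ¬ Cp D c s t) :
    Sg D c (s + t) := by
  by_contra hcon
  exact h (Relation.ReflTransGen.single ⟨hs, ht, hcon⟩)

/-- 1.(i) -/
theorem Cp.add {c : Q} {s s' t : V} (ht : Sg D c t) (h : Cp D c s s')
    (hn : ¬ Cp D c s t) : Cp D c (s + t) (s' + t) := by
  induction h with
  | refl => exact Relation.ReflTransGen.refl
  | @tail a b h1 h2 ih =>
    refine Relation.ReflTransGen.tail ih ⟨?_, ?_, ?_⟩
    · exact Cp.sum h2.1 ht fun h3 => hn (Cp.trans h1 h3)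
    · exact Cp.sum h2.2.1 ht fun h3 => hn (Cp.trans h1 (Relation.ReflTransGen.head h2 h3))
    · rw [show a + t + (b + t) = a + b from eo (by
        abel_nf <;> simp only [ch2, ch3, ch4, add_zero, zero_add])]
      exact h2.2.2

theorem Cp.add' {c : Q} {s s' t : V} (ht : Sg D c t) (h : Cp D c s s')
    (hn : ¬ Cp D c s t) : Cp D c (t + s) (t + s') := by
  rw [add_comm t s, add_comm t s']
  exact Cp.add ht h hn

/-- a component `X ∋ x0` of maximal size -/
structure CM (D : QData V Q) (c : Q) (x0 : V) : Prop where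
  he : D.e = 0
  cne : c ≠ D.z
  hx : Sg D c x0
  mx : ∀ y, Sg D c y → Nat.card {v // Cp D c y v} ≤ Nat.card {v // Cp D c x0 v}

/-- the stabilizer of the component of `x0` -/
def FX (D : QData V Q) (c : Q) (x0 : V) : Submodule (ZMod 2) V :=
  mkS (fun g => ∀ x, Cp D c x0 x → Cp D c x0 (x + g)) (fun x h => by rwa [add_zero])
    fun a b h h' x hx => by rw [← add_assoc]; exact h' _ (h _ hx)

theorem mem_FX {c : Q} {x0 g : V} :
    g ∈ FX D c x0 ↔ ∀ x, Cp D c x0 x → Cp D c x0 (x + g) := Iff.rfl

namespace CM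

variable {c : Q} {x0 : V} (X : CM D c x0)

include X

theorem nz : ¬ Sg D c 0 := by
  rintro ⟨r, hr⟩
  exact X.cne (hr.symm.trans (C.zero' r))

theorem not_F {x : V} (h : Cp D c x0 x) : x ∉ FX D c x0 := by
  intro h1
  have := Cp.slot X.hx (mem_FX.1 h1 x h)
  rw [ZModModule.add_self] at this
  exact X.nz this

/-- `X + y` is in `X` or in a third component -/
theorem third [Finite V] {y : V} (hy : Sg D c y) (hn : ¬ Cp D c x0 y)
    (hF : y ∉ FX D c x0) {x : V} (hx : Cp D c x0 x) : ¬ Cp D c x0 (x + y) ∧ ¬ Cp D c y (x + y) := by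
  have sx := Cp.slot X.hx hx
  have nx : ¬ Cp D c x y := fun h => hn (hx.trans h)
  constructor
  · intro h1
    refine hF (mem_FX.2 fun x' hx' => ?_)
    exact h1.trans (Cp.add hy (hx.symm.trans hx') nx)
  · intro h1
    -- `X ∪ {0}` embeds in the component of `y`
    have h2 : ∀ x', Cp D c x0 x' → Cp D c y (y + x') := by
      intro x' hx'
      rw [add_comm]
      exact h1.trans (Cp.add hy (hx.symm.trans hx') nx)
    have h3 := X.mx y hy
    let f : Option {v // Cp D c x0 v} → {v // Cp D c y v} := fun o =>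
      match o with
      | none => ⟨y, Relation.ReflTransGen.refl⟩
      | some v => ⟨y + v.1, h2 v.1 v.2⟩
    have hf : Function.Injective f := by
      intro a b hab
      cases a with
      | none =>
        cases b with
        | none => rfl
        | some b =>
          exfalso
          have h4 : y = y + b.1 := congrArg Subtype.val hab
          have h5 : b.1 = 0 := by
            have := congrArg (fun v => y + v) h4
            rw [ZModModule.add_self, ← add_assoc, ZModModule.add_self, zero_add] at this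
            exact this.symm
          have := Cp.slot X.hx b.2
          rw [h5] at this
          exact X.nz this
      | some a =>
        cases b with
        | none =>
          exfalso
          have h4 : y + a.1 = y := congrArg Subtype.val hab
          have h5 : a.1 = 0 := by
            have := congrArg (fun v => y + v) h4
            rw [ZModModule.add_self, ← add_assoc, ZModModule.add_self, zero_add] at this
            exact this
          have := Cp.slot X.hx a.2
          rw [h5] at this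
          exact X.nz this
        | some b =>
          have h4 : y + a.1 = y + b.1 := congrArg Subtype.val hab
          have h5 : a.1 = b.1 := add_left_cancel h4
          rw [Subtype.ext h5]
    have h4 := Nat.card_le_card_of_injective f hf
    have : Fintype {v // Cp D c x0 v} := Fintype.ofFinite _
    rw [Nat.card_eq_fintype_card, Fintype.card_option, ← Nat.card_eq_fintype_card] at h4
    omega

/-- case (a): `X` is closed under triple sums, `K + comp y ⊆ X` -/
theorem caseA [Finite V] {y : V} (hy : Sg D c y) (hn : ¬ Cp D c x0 y)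
    (hF : y ∉ FX D c x0) {x x' : V} (hx : Cp D c x0 x) (hx' : Cp D c x0 x') :
    Cp D c y (y + (x + x')) ∧ x + x' ∈ FX D c x0 ∧
      ∀ y', Cp D c y y' → y + y' ∈ FX D c x0 := by
  have key : ∀ a b, Cp D c x0 a → Cp D c x0 b → Cp D c y (a + y + b) := by
    intro a b ha hb
    have sa := Cp.slot X.hx ha
    obtain ⟨h1, h2⟩ := X.third hy hn hF ha
    have h3 : Sg D c (a + y) := Cp.sum sa hy fun h => hn (ha.trans h)
    have h4 : Cp D c (a + (a + y)) (b + (a + y)) :=
      Cp.add h3 (ha.symm.trans hb) fun h => h1 (ha.trans h)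
    rw [show a + (a + y) = y from eo (by
      abel_nf <;> simp only [ch2, ch3, ch4, add_zero, zero_add])] at h4
    rwa [add_comm b] at h4
  have key2 : ∀ a y', Cp D c x0 a → Cp D c y y' → Cp D c x0 (a + y + y') := by
    intro a y' ha hy'
    have sa := Cp.slot X.hx ha
    obtain ⟨h1, h2⟩ := X.third hy hn hF ha
    have h3 : Sg D c (a + y) := Cp.sum sa hy fun h => hn (ha.trans h)
    have h4 : Cp D c (y + (a + y)) (y' + (a + y)) :=
      Cp.add h3 hy' h2
    rw [show y + (a + y) = a from eo (by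
      abel_nf <;> simp only [ch2, ch3, ch4, add_zero, zero_add]), add_comm y'] at h4
    exact ha.trans h4
  refine ⟨?_, mem_FX.2 fun a ha => ?_, fun y' hy' => mem_FX.2 fun a ha => ?_⟩
  · have := key x x' hx hx'
    rwa [show x + y + x' = y + (x + x') from by abel] at this
  · have := key2 a _ ha (key x x' hx hx')
    rwa [show a + y + (x + y + x') = a + (x + x') from eo (by
      abel_nf <;> simp only [ch2, ch3, ch4, add_zero, zero_add])] at this
  · have := key2 a _ ha hy'
    rwa [add_assoc] at this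

/-- several top components: `F ∪ S_c` is a subspace -/
theorem false_top [Finite V] (k4 : ∀ z, z ≠ 0 → ETCD2.K4At D z) {y : V} (hy : Sg D c y)
    (hn : ¬ Cp D c x0 y) (hF : y ∉ FX D c x0) : False := by
  have hX : ∀ x x', Cp D c x0 x → Cp D c x0 x' → x + x' ∈ FX D c x0 := fun x x' h h' =>
    (X.caseA hy hn hF h h').2.1
  have hFX : ∀ f ∈ FX D c x0, ∃ x x', Cp D c x0 x ∧ Cp D c x0 x' ∧ f = x + x' := fun f hf =>
    ⟨x0, x0 + f, Relation.ReflTransGen.refl, mem_FX.1 hf _ Relation.ReflTransGen.refl, eo (by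
      abel_nf <;> simp only [ch2, ch3, ch4, add_zero, zero_add])⟩
  -- slots outside `F` are `F`-invariant
  have hinv : ∀ u, Sg D c u → u ∉ FX D c x0 → ∀ f ∈ FX D c x0, Sg D c (u + f) := by
    intro u hu huF f hf
    by_cases hux : Cp D c x0 u
    · exact Cp.slot X.hx (mem_FX.1 hf _ hux)
    · obtain ⟨x, x', h1, h2, rfl⟩ := hFX f hf
      exact Cp.slot hu (X.caseA hu hux huF h1 h2).1
  have hadd : ∀ a b, (a ∈ FX D c x0 ∨ Sg D c a) → (b ∈ FX D c x0 ∨ Sg D c b) →
      (a + b ∈ FX D c x0 ∨ Sg D c (a + b)) := by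
    intro a b ha hb
    by_cases haF : a ∈ FX D c x0
    · by_cases hbF : b ∈ FX D c x0
      · exact Or.inl ((FX D c x0).add_mem haF hbF)
      · right
        rw [add_comm]
        exact hinv b (hb.resolve_left hbF) hbF a haF
    · have ha' := ha.resolve_left haF
      by_cases hbF : b ∈ FX D c x0
      · exact Or.inr (hinv a ha' haF b hbF)
      · have hb' := hb.resolve_left hbF
        by_cases hab : Cp D c a b
        · left
          by_cases hax : Cp D c x0 a
          · exact hX a b hax (hax.trans hab)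
          · exact (X.caseA ha' hax haF Relation.ReflTransGen.refl
              Relation.ReflTransGen.refl).2.2 b hab
        · exact Or.inr (Cp.sum ha' hb' hab)
  have h0 : x0 ∉ FX D c x0 := X.not_F Relation.ReflTransGen.refl
  obtain ⟨l, h1, h2⟩ := ETC.exists_dual_sep h0
  refine false_of_HP X.he X.cne k4
    (E := mkS (fun v => v ∈ FX D c x0 ∨ Sg D c v) (Or.inl (FX D c x0).zero_mem) hadd) (l := l)
    (fun s hs => Or.inr hs) (fun v hv hl => ?_) ⟨x0, Or.inr X.hx, h1⟩
  rcases hv with h3 | h3
  · exfalso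
    have := h2 v h3
    rw [hl] at this
    exact one_ne_zero this
  · exact h3

end CM

/-- single top component -/
structure CS (D : QData V Q) (c : Q) (x0 : V) : Prop extends CM D c x0 where
  clean : ∀ s t, Sg D c s → Sg D c t → C D s t → ¬ Sg D c (s + t)
  top : ∀ y, Sg D c y → ¬ Cp D c x0 y → y ∈ FX D c x0
  oth : ∃ y, Sg D c y ∧ ¬ Cp D c x0 y

namespace CS

variable {c : Q} {x0 : V} (X : CS D c x0)

include X

/-- (P) -/
theorem prop [Finite V] {x x' t : V} (h : Cp D c x x')
    (ht : t ∈ FX D c x0) (hq : D.q x t = c) : ∃ u ∈ FX D c x0, D.q x' u = c := by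
  induction h with
  | refl => exact ⟨t, ht, hq⟩
  | @tail a b h1 h2 ih =>
    obtain ⟨u, h3, h4⟩ := ih
    obtain ⟨w, h5, h6⟩ := edge (s := b) (x := u) h2.2.1 (Sg.right h4)
      ⟨a, by rw [D.symm]; exact h4, by rw [add_comm]; exact h2.2.2⟩
    refine ⟨w, X.top w (Sg.right h5) fun h7 => h6 ?_, h5⟩
    exact Cp.slot X.hx (mem_FX.1 h3 w h7)

/-- (1) -/
theorem one [Finite V] {x : V} (hx : Cp D c x0 x) : ∃ f ∈ FX D c x0, D.q x f = c := by
  obtain ⟨y, hy, hn⟩ := X.oth
  have hyF := X.top y hy hn
  obtain ⟨z, h1, h2⟩ := (Cp.slot X.hx hx).common hy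
  by_cases hz : Cp D c x0 z
  · exact X.prop (hz.symm.trans hx) hyF (by rw [D.symm]; exact h2)
  · exact ⟨z, X.top z (Sg.right h1) hz, h1⟩

/-- (2), first part -/
theorem two1 [Finite V] {x v : V} (hx : Cp D c x0 x) (hv : C D x v)
    (hF : v ∉ FX D c x0) : Cp D c x0 v := by
  obtain ⟨f, h1, h2⟩ := X.one hx
  have h3 : D.q x (f + v) = c := qa h2 hv
  have h4 : Cp D c x0 (f + v) := by
    by_contra h5
    have h6 := (FX D c x0).add_mem h1 (X.top _ (Sg.right h3) h5)
    rw [show f + (f + v) = v from eo (by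
      abel_nf <;> simp only [ch2, ch3, ch4, add_zero, zero_add])] at h6
    exact hF h6
  have h5 := mem_FX.1 h1 _ h4
  rwa [show f + v + f = v from eo (by
    abel_nf <;> simp only [ch2, ch3, ch4, add_zero, zero_add])] at h5

/-- (2), second part -/
theorem two2 [Finite V] {x v : V} (hx : Cp D c x0 x) (hv : C D x v) :
    v ∈ FX D c x0 ∨ x + v ∈ FX D c x0 := by
  by_cases h1 : v ∈ FX D c x0
  · exact Or.inl h1
  right
  by_contra h2
  have h3 : C D x (x + v) := (C.self X.he x).add hv
  exact X.clean x v (Cp.slot X.hx hx) (Cp.slot X.hx (X.two1 hx hv h1)) hv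
    (Cp.slot X.hx (X.two1 hx h3 h2))

theorem two3 [Finite V] {x n : V} (hx : Cp D c x0 x) (hn : D.q x n = c) :
    n ∈ FX D c x0 ∨ x + n ∈ FX D c x0 := by
  obtain ⟨f, h1, h2⟩ := X.one hx
  have h3 : C D x (f + n) := q_eq_iff.1 (h2.trans hn.symm)
  rcases X.two2 hx h3 with h4 | h4
  · left
    have := (FX D c x0).add_mem h1 h4
    rwa [show f + (f + n) = n from eo (by
      abel_nf <;> simp only [ch2, ch3, ch4, add_zero, zero_add])] at this
  · right
    have := (FX D c x0).add_mem h1 h4
    rwa [show f + (x + (f + n)) = x + n from eo (by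
      abel_nf <;> simp only [ch2, ch3, ch4, add_zero, zero_add])] at this

/-- (3) -/
theorem three [Finite V] : ∃ y, D.q x0 y = c ∧ ∀ z, D.q y z = c → z ∉ FX D c x0 := by
  have := Fintype.ofFinite V
  have r0 : Cp D c x0 x0 := Relation.ReflTransGen.refl
  by_contra hcon
  push Not at hcon
  -- for `y ∈ N_x`: as many `f ∈ F` with `fy = c` as with `fy = 0`
  have e1 : ∀ y, D.q x0 y = c → ∑ f, ind (f ∈ FX D c x0 ∧ D.q f y = c) =
      ∑ f, ind (f ∈ FX D c x0 ∧ D.q f y = D.z) := by
    intro y hy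
    obtain ⟨z, h1, h2⟩ := hcon y hy
    refine sum_ind_shift _ _ z fun f => ?_
    have h3 : D.q z y = c := by rw [D.symm]; exact h1
    rw [q_shift' h3]
    refine and_congr_left fun _ => ⟨fun h4 => ?_, fun h4 => (FX D c x0).add_mem h4 h2⟩
    have := (FX D c x0).add_mem h4 h2
    rwa [show f + z + z = f from eo (by
      abel_nf <;> simp only [ch2, ch3, ch4, add_zero, zero_add])] at this
  have e2 : ∑ f, ind (f ∈ FX D c x0) * inn D c x0 f = 0 := by
    have e3 : ∑ f, ind (f ∈ FX D c x0) * inn D c x0 f = ∑ y, ind (D.q x0 y = c) *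
        (∑ f, ind (f ∈ FX D c x0 ∧ D.q f y = c) -
          ∑ f, ind (f ∈ FX D c x0 ∧ D.q f y = D.z)) := by
      simp only [inn, mul_sub, Finset.mul_sum, ← Finset.sum_sub_distrib]
      rw [Finset.sum_comm]
      refine Finset.sum_congr rfl fun y _ => Finset.sum_congr rfl fun f _ => ?_
      simp only [ind_and]
      ring
    rw [e3]
    refine Finset.sum_eq_zero fun y _ => ?_
    by_cases hy : D.q x0 y = c
    · rw [e1 y hy, sub_self, mul_zero]
    · rw [ind_false hy, zero_mul]
  have e4 : ∑ f, ind (f ∈ FX D c x0) * inn D c x0 f < 0 := by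
    have key : ∀ f ∈ FX D c x0, ¬ Sg D c f → inn D c x0 f < 0 := by
      intro f hf hns
      have h1 : Sg D c (x0 + f) := Cp.slot X.hx (mem_FX.1 hf _ r0)
      obtain ⟨r', h3, h4⟩ := (sg_add X.hx).1 h1
      rw [inn, Finset.sum_sub_distrib, sum_ind_zero fun r' h' => hns ⟨r', h'.2⟩, zero_sub,
        cnt' h4 h3, neg_lt_zero]
      exact mm'_pos _ _
    have h0 : 0 < ∑ f, -(ind (f ∈ FX D c x0) * inn D c x0 f) := by
      refine Finset.sum_pos' (fun f _ => ?_) ⟨0, Finset.mem_univ _, ?_⟩
      · by_cases hf : f ∈ FX D c x0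
        · rw [ind_true hf, one_mul]
          by_cases hs : Sg D c f
          · rw [inn_zero X.hx hs (Cp.slot X.hx (mem_FX.1 hf _ r0)), neg_zero]
          · exact (neg_pos.2 (key f hf hs)).le
        · rw [ind_false hf, zero_mul, neg_zero]
      · rw [ind_true (FX D c x0).zero_mem, one_mul]
        exact neg_pos.2 (key 0 (FX D c x0).zero_mem X.nz)
    rw [Finset.sum_neg_distrib] at h0
    exact neg_pos.1 h0
  rw [e2] at e4
  exact lt_irrefl _ e4

/-- (4) -/
theorem four [Finite V] (k4 : ∀ z, z ≠ 0 → ETCD2.K4At D z) : False := by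
  have r0 : Cp D c x0 x0 := Relation.ReflTransGen.refl
  obtain ⟨y, hy, hz⟩ := X.three
  have hyx : D.q y x0 = c := by rw [D.symm]; exact hy
  have sy : Sg D c y := Sg.right hy
  have hyF : y ∈ FX D c x0 := by
    refine X.top y sy fun h => ?_
    obtain ⟨f, h1, h2⟩ := X.one h
    exact hz f h2 h1
  -- the neighbours of `y` are in `X`
  have hN : ∀ z, D.q y z = c → Cp D c x0 z := by
    intro z h1
    by_contra h2
    exact hz z h1 (X.top z (Sg.right h1) h2)
  -- `W = V_y + F`
  let W : Submodule (ZMod 2) V := mkS (fun v => ∃ k, C D y k ∧ k + v ∈ FX D c x0)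
    ⟨0, C.zero y, by rw [add_zero]; exact (FX D c x0).zero_mem⟩ (by
      rintro a b ⟨k, h1, h2⟩ ⟨k', h3, h4⟩
      refine ⟨k + k', h1.add h3, ?_⟩
      have := (FX D c x0).add_mem h2 h4
      rwa [show k + a + (k' + b) = k + k' + (a + b) from by abel] at this)
  have hW : ∀ v, v ∈ W ↔ ∃ k, C D y k ∧ k + v ∈ FX D c x0 := fun v => Iff.rfl
  have hx0W : x0 ∉ W := by
    intro h
    obtain ⟨k, h1, h2⟩ := (hW x0).1 h
    refine hz (x0 + k) (qa hyx h1) ?_
    rwa [add_comm] at h2
  have hadd : ∀ a b, (a ∈ W ∨ a + x0 ∈ W) → (b ∈ W ∨ b + x0 ∈ W) →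
      (a + b ∈ W ∨ a + b + x0 ∈ W) := by
    rintro a b (ha | ha) (hb | hb)
    · exact Or.inl (W.add_mem ha hb)
    · right
      rw [add_assoc]
      exact W.add_mem ha hb
    · right
      have := W.add_mem ha hb
      rwa [show a + x0 + b = a + b + x0 from by abel] at this
    · left
      have := W.add_mem ha hb
      rwa [show a + x0 + (b + x0) = a + b from eo (by
        abel_nf <;> simp only [ch2, ch3, ch4, add_zero, zero_add])] at this
  obtain ⟨l, h1, h2⟩ := ETC.exists_dual_sep hx0W
  refine false_of_HP X.he X.cne k4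
    (E := mkS (fun v => v ∈ W ∨ v + x0 ∈ W) (Or.inl W.zero_mem) hadd) (l := l)
    (fun s hs => ?_) (fun v hv hl => ?_) ⟨x0, Or.inr (by
      rw [ZModModule.add_self]; exact W.zero_mem), h1⟩
  · by_cases hsX : Cp D c x0 s
    · right
      obtain ⟨z, h3, h4⟩ := sy.common hs
      have h5 : s + z ∈ FX D c x0 := (X.two3 hsX h4).resolve_left fun h => hz z h3 h
      have h6 : C D y (z + x0) := q_eq_iff.1 (h3.trans hyx.symm)
      refine (hW _).2 ⟨z + x0, h6, ?_⟩
      rwa [show z + x0 + (s + x0) = s + z from eo (by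
        abel_nf <;> simp only [ch2, ch3, ch4, add_zero, zero_add])]
    · left
      exact (hW _).2 ⟨0, C.zero y, by rw [zero_add]; exact X.top s hs hsX⟩
  · rcases hv with h3 | h3
    · exfalso
      have := h2 v h3
      rw [hl] at this
      exact one_ne_zero this
    · obtain ⟨k, h4, h5⟩ := (hW _).1 h3
      have h6 := mem_FX.1 h5 _ (hN _ (qa hyx h4))
      rw [show x0 + k + (k + (v + x0)) = v from eo (by
        abel_nf <;> simp only [ch2, ch3, ch4, add_zero, zero_add])] at h6
      exact Cp.slot X.hx h6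

end CS

/-- **COMPONENT THEOREM** (note 2754, helper73): `c ≠ 0` clean and `Γ_c` (slots of `c` with a
non-slot sum) disconnected refute a structure with `K4At`. -/
theorem false_of_disc [Finite V] (he : D.e = 0) {c : Q} (cne : c ≠ D.z)
    (k4 : ∀ z, z ≠ 0 → ETCD2.K4At D z)
    (clean : ∀ s t, Sg D c s → Sg D c t → C D s t → ¬ Sg D c (s + t))
    {s t : V} (hs : Sg D c s) (ht : Sg D c t) (h : ¬ Cp D c s t) : False := by
  obtain ⟨x0, hx0, hmx⟩ := Set.exists_max_image {v | Sg D c v}
    (fun y => Nat.card {v // Cp D c y v}) (Set.toFinite _) ⟨s, hs⟩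
  have X : CM D c x0 := ⟨he, cne, hx0, hmx⟩
  obtain ⟨y, hy, hn⟩ : ∃ y, Sg D c y ∧ ¬ Cp D c x0 y := by
    by_cases h1 : Cp D c x0 s
    · exact ⟨t, ht, fun h2 => h (h1.symm.trans h2)⟩
    · exact ⟨s, hs, h1⟩
  by_cases htop : ∀ y, Sg D c y → ¬ Cp D c x0 y → y ∈ FX D c x0
  · exact CS.four (x0 := x0) { toCM := X, clean := clean, top := htop, oth := ⟨y, hy, hn⟩ } k4
  · push Not at htop
    obtain ⟨y', h1, h2, h3⟩ := htop
    exact X.false_top k4 h1 h2 h3

/-- the same: the slots of a clean `c ≠ 0` are not a disjoint union of two nonempty sets `P`,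
`¬ P` with `P + ¬ P ⊆ S_c`. -/
theorem false_of_split [Finite V] (he : D.e = 0) {c : Q} (cne : c ≠ D.z)
    (k4 : ∀ z, z ≠ 0 → ETCD2.K4At D z)
    (clean : ∀ s t, Sg D c s → Sg D c t → C D s t → ¬ Sg D c (s + t)) (P : V → Prop)
    {s t : V} (hs : Sg D c s) (ht : Sg D c t) (hP : P s) (hP' : ¬ P t)
    (h : ∀ a b, Sg D c a → Sg D c b → P a → ¬ P b → Sg D c (a + b)) : False := by
  refine false_of_disc he cne k4 clean hs ht fun hc => hP' ?_
  clear ht hP'
  induction hc with
  | refl => exact hP
  | @tail a b h1 h2 ih =>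
    by_contra hb
    exact h2.2.2 (h a b h2.1 h2.2.1 ih hb)

/-- without cleanness: if `Γ_c` is disconnected, some component `X` of `Γ_c` contains all slots
outside its stabilizer. -/
theorem single_top [Finite V] (he : D.e = 0) {c : Q} (cne : c ≠ D.z)
    (k4 : ∀ z, z ≠ 0 → ETCD2.K4At D z) {s t : V} (hs : Sg D c s) (ht : Sg D c t)
    (h : ¬ Cp D c s t) : ∃ x0, Sg D c x0 ∧ (∃ y, Sg D c y ∧ ¬ Cp D c x0 y) ∧
      ∀ y, Sg D c y → ¬ Cp D c x0 y → y ∈ FX D c x0 := by
  obtain ⟨x0, hx0, hmx⟩ := Set.exists_max_image {v | Sg D c v}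
    (fun y => Nat.card {v // Cp D c y v}) (Set.toFinite _) ⟨s, hs⟩
  have X : CM D c x0 := ⟨he, cne, hx0, hmx⟩
  refine ⟨x0, hx0, ?_, ?_⟩
  · by_cases h1 : Cp D c x0 s
    · exact ⟨t, ht, fun h2 => h (h1.symm.trans h2)⟩
    · exact ⟨s, hs, h1⟩
  · intro y h1 h2
    by_contra h3
    exact X.false_top k4 h1 h2 h3

end Pool.Agent.ETPN
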