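import Pool.Agent.ETPN.HP2

/-!
**FLAG THEOREM** (note 2740, helper34): a bilinear form `χ` of type `1` on the slots of one symbol
`c ≠ 0` whose radical is covered by the slots and whose classes are affine (or have one class
which is a point) refutes a structure with `K4At`.
-/

set_option autoImplicit false
set_option linter.unusedSimpArgs false
set_option linter.unnecessarySeqFocus false
set_option linter.unusedSectionVars false

namespace Pool.Agent.ETPN

open Pool.Agent.Helper58.PLine (QData)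
open Pool.Agent.ETCP
open Pool.Agent.ETPF
open Pool.Agent.ETPG
open ETC (zm)

variable {V Q : Type} [AddCommGroup V] [Module (ZMod 2) V] {D : QData V Q}

/-- the radical of `χ` on `E` -/
def Rd (E : Submodule (ZMod 2) V) (χ : V →ₗ[ZMod 2] Module.Dual (ZMod 2) V) :
    Submodule (ZMod 2) V :=
  mkS (fun u => u ∈ E ∧ ∀ v ∈ E, χ u v = 0) ⟨E.zero_mem, fun v _ => by
      rw [map_zero]; rfl⟩ fun a b h h' =>
    ⟨E.add_mem h.1 h'.1, fun v hv => by
      rw [map_add, LinearMap.add_apply, h.2 v hv, h'.2 v hv, add_zero]⟩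

theorem mem_Rd {E : Submodule (ZMod 2) V} {χ : V →ₗ[ZMod 2] Module.Dual (ZMod 2) V} {u : V} :
    u ∈ Rd E χ ↔ u ∈ E ∧ ∀ v ∈ E, χ u v = 0 := Iff.rfl

/-- the hypotheses: `χ` is symmetric on `E ⊇ S`, `χ s u = 1` for `q s u = c`, and every coset of
the radical of `χ` contains a slot -/
structure CV (D : QData V Q) (c : Q) (E : Submodule (ZMod 2) V)
    (χ : V →ₗ[ZMod 2] Module.Dual (ZMod 2) V) : Prop where
  he : D.e = 0
  cne : c ≠ D.z
  sd : ∀ s, Sg D c s → s ∈ E
  sym : ∀ u ∈ E, ∀ v ∈ E, χ u v = χ v u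
  r1 : ∀ s u, D.q s u = c → χ s u = 1
  cov : ∀ v ∈ E, v ∉ Rd E χ → ∃ s, Sg D c s ∧ s + v ∈ Rd E χ

theorem add01 {x y : ZMod 2} (h : x ≠ y) : x + y = 1 := by
  revert h; revert x y; decide

theorem ne1 {x : ZMod 2} (h : x ≠ 1) : x = 0 := (zm x).resolve_right h

namespace CV

variable {c : Q} {E : Submodule (ZMod 2) V} {χ : V →ₗ[ZMod 2] Module.Dual (ZMod 2) V}
  (X : CV D c E χ)

include X

theorem nz : ¬ Sg D c 0 := by
  rintro ⟨r, hr⟩
  exact X.cne (hr.symm.trans (C.zero' r))

theorem ann0 {s v : V} (hs : Sg D c s) (hv : C D s v) : χ s v = 0 := by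
  obtain ⟨r, hr⟩ := hs
  have h1 := X.r1 _ _ hr
  have h2 := X.r1 _ _ (qa hr hv)
  rw [map_add, h1] at h2
  revert h2
  generalize χ s v = x
  revert x; decide

theorem self {s : V} (hs : Sg D c s) : χ s s = 0 := X.ann0 hs (C.self X.he s)

theorem ann_mem {s v : V} (hs : Sg D c s) (hv : C D s v) : v ∈ E := by
  obtain ⟨r, hr⟩ := hs
  have h1 := X.sd _ (Sg.right (qa hr hv))
  have h2 := E.add_mem (X.sd _ (Sg.right hr)) h1
  rwa [show r + (r + v) = v from eo (by
    abel_nf <;> simp only [ch2, ch3, ch4, add_zero, zero_add])] at h2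

/-- an element outside the radical -/
theorem ex1 {u : V} (hu : u ∈ E) (h : u ∉ Rd E χ) : ∃ p ∈ E, χ p u = 1 := by
  by_contra hcon
  push Not at hcon
  exact h ⟨hu, fun v hv => by rw [X.sym u hu v hv]; exact ne1 (hcon v hv)⟩

/-- two elements independent modulo the radical -/
theorem ex2 {u v : V} (hu : u ∈ E) (hv : v ∈ E) (h : u ∉ Rd E χ) (h' : u + v ∉ Rd E χ) :
    ∃ p ∈ E, χ p u = 1 ∧ χ p v = 0 := by
  obtain ⟨p, hp, h1⟩ := X.ex1 hu h
  obtain ⟨q, hq, h2⟩ := X.ex1 (E.add_mem hu hv) h'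
  rcases zm (χ p v) with h3 | h3
  · exact ⟨p, hp, h1, h3⟩
  · rw [map_add] at h2
    rcases zm (χ q v) with h4 | h4
    · rw [h4, add_zero] at h2
      exact ⟨q, hq, h2, h4⟩
    · rw [h4] at h2
      have h5 : χ q u = 0 := by
        revert h2
        generalize χ q u = x
        revert x; decide
      refine ⟨p + q, E.add_mem hp hq, ?_, ?_⟩
      · rw [map_add, LinearMap.add_apply, h1, h5, add_zero]
      · rw [map_add, LinearMap.add_apply, h3, h4]; rfl

/-- three elements -/
theorem ex3 {u v w : V} (hu : u ∈ E) (hv : v ∈ E) (hw : w ∈ E) (h : u ∉ Rd E χ)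
    (h' : u + v ∉ Rd E χ) (h2 : w ∉ Rd E χ) (h3 : w + v ∉ Rd E χ) :
    ∃ p ∈ E, χ p v = 0 ∧ χ p u = 1 ∧ χ p w = 1 := by
  obtain ⟨p, hp, a1, a2⟩ := X.ex2 hu hv h h'
  obtain ⟨q, hq, b1, b2⟩ := X.ex2 hw hv h2 h3
  rcases zm (χ p w) with h4 | h4
  · rcases zm (χ q u) with h5 | h5
    · refine ⟨p + q, E.add_mem hp hq, ?_, ?_, ?_⟩
      · rw [map_add, LinearMap.add_apply, a2, b2, add_zero]
      · rw [map_add, LinearMap.add_apply, a1, h5, add_zero]
      · rw [map_add, LinearMap.add_apply, h4, b1, zero_add]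
    · exact ⟨q, hq, b2, h5, b1⟩
  · exact ⟨p, hp, a2, a1, h4⟩

/-- a functional which vanishes on the radical is a row of `χ` on `E` -/
theorem row [Finite V] {l : Module.Dual (ZMod 2) V} (hl : ∀ u ∈ Rd E χ, l u = 0) :
    ∃ t ∈ E, ∀ v ∈ E, l v = χ t v := by
  have := Module.Finite.of_finite (R := ZMod 2) (M := V)
  let W : Submodule (ZMod 2) (Module.Dual (ZMod 2) V) := E.map χ ⊔ E.dualAnnihilator
  have h1 : l ∈ W.dualCoannihilator.dualAnnihilator := by
    rw [Submodule.mem_dualAnnihilator]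
    intro u hu
    rw [Submodule.mem_dualCoannihilator] at hu
    refine hl u ⟨?_, fun v hv => ?_⟩
    · by_contra hcon
      obtain ⟨m, m1, m2⟩ := ETC.exists_dual_sep hcon
      have := hu m (Submodule.mem_sup_right ((Submodule.mem_dualAnnihilator _).2 m2))
      rw [m1] at this
      exact one_ne_zero this
    · by_contra hcon
      have hm : χ v ∈ W := Submodule.mem_sup_left ⟨v, hv, rfl⟩
      have h2 := hu _ hm
      have huE : u ∈ E := by
        by_contra hcon
        obtain ⟨m, m1, m2⟩ := ETC.exists_dual_sep hcon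
        have := hu m (Submodule.mem_sup_right ((Submodule.mem_dualAnnihilator _).2 m2))
        rw [m1] at this
        exact one_ne_zero this
      rw [X.sym u huE v hv] at hcon
      exact hcon h2
  rw [Subspace.dualCoannihilator_dualAnnihilator_eq] at h1
  obtain ⟨a, ⟨t, ht, rfl⟩, b, hb, rfl⟩ := Submodule.mem_sup.1 h1
  refine ⟨t, ht, fun v hv => ?_⟩
  rw [LinearMap.add_apply, (Submodule.mem_dualAnnihilator _).1 hb v hv, add_zero]

/-- **(1)** `N_s + U = {χ s = 1}` -/
theorem nb [Finite V] {s w : V} (hs : Sg D c s) (hw : w ∈ E) (h : χ s w = 1) :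
    ∃ y, D.q s y = c ∧ y + w ∈ Rd E χ := by
  obtain ⟨r, hr⟩ := hs
  have hs : Sg D c s := ⟨r, hr⟩
  have rE := X.sd _ (Sg.right hr)
  have sE := X.sd _ hs
  -- `V_s + U`
  let M : Submodule (ZMod 2) V := mkS (fun x => ∃ v, C D s v ∧ x + v ∈ Rd E χ)
    ⟨0, C.zero s, by rw [add_zero]; exact Submodule.zero_mem _⟩ (by
      rintro a b ⟨v, h1, h2⟩ ⟨v', h3, h4⟩
      refine ⟨v + v', h1.add h3, ?_⟩
      have := Submodule.add_mem _ h2 h4
      rwa [show a + v + (b + v') = a + b + (v + v') from by abel] at this)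
  by_cases hM : w + r ∈ M
  · obtain ⟨v, h1, h2⟩ := hM
    exact ⟨r + v, qa hr h1, by
      rwa [show r + v + w = w + r + v from by abel]⟩
  · exfalso
    obtain ⟨l, l1, l2⟩ := ETC.exists_dual_sep hM
    have l3 : ∀ u ∈ Rd E χ, l u = 0 := fun u hu => l2 u ⟨0, C.zero s, by rwa [add_zero]⟩
    have l4 : ∀ v, C D s v → l v = 0 := fun v hv => l2 v ⟨v, hv, by
      rw [ZModModule.add_self]; exact Submodule.zero_mem _⟩
    obtain ⟨t, ht, h1⟩ := X.row l3
    have hwr : w + r ∈ E := E.add_mem hw rE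
    have h2 : χ t (w + r) = 1 := by rw [← h1 _ hwr]; exact l1
    have h3 : t ∉ Rd E χ := fun hh => by
      have := hh.2 _ hwr
      rw [h2] at this; exact one_ne_zero this
    have h4 : t + s ∉ Rd E χ := fun hh => by
      have := hh.2 _ hwr
      rw [map_add χ, LinearMap.add_apply, h2, map_add, h, X.r1 _ _ hr] at this
      exact absurd this (by decide)
    obtain ⟨t', a1, a2⟩ := X.cov t ht h3
    obtain ⟨t2, b1, b2⟩ := X.cov _ (E.add_mem ht sE) h4
    obtain ⟨u, u1, u2⟩ := hs.common a1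
    obtain ⟨u', v1, v2⟩ := hs.common b1
    have uE := X.sd _ (Sg.right u1)
    have uE' := X.sd _ (Sg.right v1)
    have c1 : l u = 1 := by
      rw [h1 _ uE]
      have := a2.2 u uE
      rw [map_add, LinearMap.add_apply, X.r1 _ _ u2] at this
      revert this
      generalize χ t u = x
      revert x; decide
    have c2 : l u' = 0 := by
      rw [h1 _ uE']
      have := b2.2 u' uE'
      rw [map_add, LinearMap.add_apply, X.r1 _ _ v2, map_add, LinearMap.add_apply,
        X.r1 _ _ v1] at this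
      revert this
      generalize χ t u' = x
      revert x; decide
    have c3 := l4 (u + u') (q_eq_iff.1 (u1.trans v1.symm))
    rw [map_add, c1, c2] at c3
    exact absurd c3 (by decide)

/-- slots are not in the radical -/
theorem slot_rd {s : V} (hs : Sg D c s) : s ∉ Rd E χ := by
  intro h
  obtain ⟨r, hr⟩ := hs
  have := h.2 r (X.sd _ (Sg.right hr))
  rw [X.r1 _ _ hr] at this
  exact one_ne_zero this

theorem cl {u v w : V} (hw : w ∈ E) (h : u + v ∈ Rd E χ) : χ u w = χ v w := by
  have := h.2 w hw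
  rw [map_add, LinearMap.add_apply] at this
  revert this
  generalize χ u w = x
  generalize χ v w = y
  revert x y; decide

theorem cl' {u v w : V} (hu : u ∈ E) (hv : v ∈ E) (hw : w ∈ E) (h : u + v ∈ Rd E χ) :
    χ w u = χ w v := by
  rw [X.sym w hw u hu, X.sym w hw v hv, X.cl hw h]

/-- **(4)** a subspace `G` which contains all differences of slots in the same class contains
the radical, if the slots span. -/
theorem four [Finite V] {G : Submodule (ZMod 2) V}
    (hsp : E ≤ Submodule.span (ZMod 2) {s | Sg D c s})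
    (hG : ∀ s s', Sg D c s → Sg D c s' → s + s' ∈ Rd E χ → s + s' ∈ G)
    (hGU : G ≤ Rd E χ) : Rd E χ ≤ G := by
  -- the sum of two slots
  have key : ∀ s s', Sg D c s → Sg D c s' →
      s + s' ∈ G ∨ ∃ z, Sg D c z ∧ s + s' + z ∈ G := by
    intro s s' hs hs'
    have sE := X.sd _ hs
    have sE' := X.sd _ hs'
    rcases zm (χ s s') with h0 | h1
    swap
    · right
      obtain ⟨y, y1, y2⟩ := X.nb hs sE' h1
      refine ⟨s + y, ?_, ?_⟩
      · have := Sg.right (qa y1 (C.self X.he s))
        rwa [add_comm] at this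
      · have := hG _ _ (Sg.right y1) hs' y2
        rwa [show s + s' + (s + y) = y + s' from eo (by
          abel_nf <;> simp only [ch2, ch3, ch4, add_zero, zero_add])]
    · by_cases hU : s + s' ∈ Rd E χ
      · exact Or.inl (hG _ _ hs hs' hU)
      · right
        obtain ⟨z, z1, z2⟩ := X.cov _ (E.add_mem sE sE') hU
        refine ⟨z, z1, ?_⟩
        have zE := X.sd _ z1
        obtain ⟨p, pE, p1, p2⟩ := X.ex2 sE sE' (X.slot_rd hs) hU
        -- `s = y1 + g1`
        obtain ⟨y1, a1, a2⟩ := X.nb hs pE (by rw [X.sym s sE p pE]; exact p1)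
        have g1 : Sg D c (s + y1) := by
          have := Sg.right (qa a1 (C.self X.he s))
          rwa [add_comm] at this
        have zp : χ z p = 1 := by
          rw [X.cl pE z2, map_add, LinearMap.add_apply, X.sym s sE p pE, X.sym s' sE' p pE,
            p1, p2, add_zero]
        obtain ⟨y2, b1, b2⟩ := X.nb z1 pE zp
        have g2 : Sg D c (z + y2) := by
          have := Sg.right (qa b1 (C.self X.he z))
          rwa [add_comm] at this
        have y12 : y1 + y2 ∈ G := by
          refine hG _ _ (Sg.right a1) (Sg.right b1) ?_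
          have := Submodule.add_mem _ a2 b2
          rwa [show y1 + p + (y2 + p) = y1 + y2 from eo (by
            abel_nf <;> simp only [ch2, ch3, ch4, add_zero, zero_add])] at this
        -- `s' = y3 + y4`
        obtain ⟨a, aE, ha⟩ := X.ex1 sE' (X.slot_rd hs')
        obtain ⟨y3, c1, c2⟩ := X.nb hs' aE (by rw [X.sym s' sE' a aE]; exact ha)
        have g4 : Sg D c (s' + y3) := by
          have := Sg.right (qa c1 (C.self X.he s'))
          rwa [add_comm] at this
        have y1E := X.sd _ (Sg.right a1)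
        have y2E := X.sd _ (Sg.right b1)
        have y3E := X.sd _ (Sg.right c1)
        have g1E := X.sd _ g1
        have g2E := X.sd _ g2
        have g4E := X.sd _ g4
        -- the values of `χ`
        have v1 : χ s' y3 = 1 := X.r1 _ _ c1
        have v2 : χ s y1 = 1 := X.r1 _ _ a1
        have v3 : χ s' y1 = 0 := by
          rw [X.cl' y1E pE sE' a2, X.sym s' sE' p pE]; exact p2
        have n1 : y3 ∉ Rd E χ := X.slot_rd (Sg.right c1)
        have n2 : y3 + s' ∉ Rd E χ := by rw [add_comm]; exact X.slot_rd g4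
        have n3 : s + y1 ∉ Rd E χ := X.slot_rd g1
        have n4 : s + y1 + s' ∉ Rd E χ := by
          intro hh
          have h5 := hh.2 s sE
          rw [map_add, LinearMap.add_apply, map_add, LinearMap.add_apply, X.self hs,
            X.sym y1 y1E s sE, v2, X.sym s' sE' s sE, h0] at h5
          exact absurd h5 (by decide)
        obtain ⟨x, xE, x1, x2, x3⟩ := X.ex3 y3E sE' g1E n1 n2 n3 n4
        have xn : x ∉ Rd E χ := fun hh => by
          have := hh.2 _ y3E
          rw [x2] at this; exact one_ne_zero this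
        obtain ⟨x', d1, d2⟩ := X.cov x xE xn
        have e1 : χ x' y3 = 1 := by rw [X.cl y3E d2]; exact x2
        have e2 : χ x' (s' + y3) = 1 := by
          rw [X.cl g4E d2, map_add, x1, x2, zero_add]
        have e3 : χ x' (s + y1) = 1 := by rw [X.cl g1E d2]; exact x3
        obtain ⟨z1', f1, f2⟩ := X.nb d1 y3E e1
        obtain ⟨z2', f3, f4⟩ := X.nb d1 g4E e2
        obtain ⟨z3', f5, f6⟩ := X.nb d1 g1E e3
        have k1 := hG _ _ (Sg.right f1) (Sg.right c1) f2
        have k2 := hG _ _ (Sg.right f3) g4 f4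
        have k3 := hG _ _ (Sg.right f5) g1 f6
        have k4 : D.q x' (z1' + z2' + z3') = c := by
          have h5 : C D x' (z2' + z3') := q_eq_iff.1 (f3.trans f5.symm)
          have h6 := qa f1 h5
          rwa [← add_assoc] at h6
        have k5 : z1' + z2' + z3' + (z + y2) ∈ G := by
          refine hG _ _ (Sg.right k4) g2 ?_
          have i1 := Submodule.add_mem _ (Submodule.add_mem _ f2 f4) f6
          have i2 := Submodule.add_mem _ z2 (Submodule.add_mem _ a2 b2)
          have i3 := Submodule.add_mem _ i1 i2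
          rwa [show z1' + y3 + (z2' + (s' + y3)) + (z3' + (s + y1)) +
            (z + (s + s') + (y1 + p + (y2 + p))) = z1' + z2' + z3' + (z + y2) from eo (by
            abel_nf <;> simp only [ch2, ch3, ch4, add_zero, zero_add])] at i3
        have k6 := Submodule.add_mem _ (Submodule.add_mem _ (Submodule.add_mem _ k1 k2) k3)
          (Submodule.add_mem _ k5 y12)
        rwa [show z1' + y3 + (z2' + (s' + y3)) + (z3' + (s + y1)) +
            (z1' + z2' + z3' + (z + y2) + (y1 + y2)) = s + s' + z from eo (by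
            abel_nf <;> simp only [ch2, ch3, ch4, add_zero, zero_add])] at k6
  -- the subspace of all `v` congruent to a slot or to `0`
  let L : Submodule (ZMod 2) V := mkS (fun v => v ∈ G ∨ ∃ z, Sg D c z ∧ v + z ∈ G)
    (Or.inl G.zero_mem) (by
      rintro a b (h | ⟨z, h1, h2⟩) (h' | ⟨z', h3, h4⟩)
      · exact Or.inl (G.add_mem h h')
      · refine Or.inr ⟨z', h3, ?_⟩
        have := G.add_mem h h4
        rwa [← add_assoc] at this
      · refine Or.inr ⟨z, h1, ?_⟩
        have := G.add_mem h2 h'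
        rwa [show a + z + b = a + b + z from by abel] at this
      · rcases key z z' h1 h3 with h5 | ⟨w, h5, h6⟩
        · left
          have := G.add_mem (G.add_mem h2 h4) h5
          rwa [show a + z + (b + z') + (z + z') = a + b from eo (by
            abel_nf <;> simp only [ch2, ch3, ch4, add_zero, zero_add])] at this
        · refine Or.inr ⟨w, h5, ?_⟩
          have := G.add_mem (G.add_mem h2 h4) h6
          rwa [show a + z + (b + z') + (z + z' + w) = a + b + w from eo (by
            abel_nf <;> simp only [ch2, ch3, ch4, add_zero, zero_add])] at this)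
  have hL : E ≤ L := by
    refine hsp.trans (Submodule.span_le.2 fun s hs => ?_)
    exact Or.inr ⟨s, hs, by rw [ZModModule.add_self]; exact G.zero_mem⟩
  intro d hd
  rcases hL hd.1 with h | ⟨z, h1, h2⟩
  · exact h
  · exfalso
    refine X.slot_rd h1 ?_
    have := Submodule.add_mem _ hd (hGU h2)
    rwa [show d + (d + z) = z from eo (by
      abel_nf <;> simp only [ch2, ch3, ch4, add_zero, zero_add])] at this

variable (D χ) in
/-- the differences of the slots in the class of `w` -/
def _root_.Pool.Agent.ETPN.Df (c : Q) (w d : V) : Prop := ∃ y, Sg D c y ∧ C D y d ∧ χ y w = 1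

omit X in
theorem _root_.Pool.Agent.ETPN.Df.split {w w' d : V} (h : Df D χ c (w + w') d) :
    Df D χ c w d ∨ Df D χ c w' d := by
  obtain ⟨y, h1, h2, h3⟩ := h
  rcases zm (χ y w) with h4 | h4
  · right
    refine ⟨y, h1, h2, ?_⟩
    rwa [map_add, h4, zero_add] at h3
  · exact Or.inl ⟨y, h1, h2, h4⟩

theorem df_of {s s' : V} (hs : Sg D c s) (hs' : Sg D c s') : Df D χ c s (s + s') := by
  obtain ⟨y, h1, h2⟩ := hs.common hs'
  rw [D.symm] at h1 h2
  exact ⟨y, Sg.left h1, q_eq_iff.1 (h1.trans h2.symm), X.r1 _ _ h1⟩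

theorem df_cl {w w' d : V} (hw : w ∈ E) (hw' : w' ∈ E) (h : w + w' ∈ Rd E χ)
    (hd : Df D χ c w d) : Df D χ c w' d := by
  obtain ⟨y, h1, h2, h3⟩ := hd
  exact ⟨y, h1, h2, by rw [← X.cl' hw hw' (X.sd _ h1) h]; exact h3⟩

theorem df_pair [Finite V] {w d : V} (hw : w ∈ E) (h : Df D χ c w d) :
    ∃ s, Sg D c s ∧ Sg D c (s + d) ∧ s + w ∈ Rd E χ := by
  obtain ⟨y, h1, h2, h3⟩ := h
  obtain ⟨s, h4, h5⟩ := X.nb h1 hw h3
  exact ⟨s, Sg.right h4, Sg.right (qa h4 h2), h5⟩

/-- the classes are affine -/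
def _root_.Pool.Agent.ETPN.Aff (D : QData V Q) (c : Q) (E : Submodule (ZMod 2) V)
    (χ : V →ₗ[ZMod 2] Module.Dual (ZMod 2) V) : Prop :=
  ∀ s1 s2 s3, Sg D c s1 → Sg D c s2 → Sg D c s3 → s1 + s2 ∈ Rd E χ → s1 + s3 ∈ Rd E χ →
    Sg D c (s1 + s2 + s3)

theorem df_add [Finite V] (ha : Aff D c E χ) {w d d' : V} (hw : w ∈ E) (hd : d ∈ Rd E χ)
    (hd' : d' ∈ Rd E χ) (h : Df D χ c w d) (h' : Df D χ c w d') : Df D χ c w (d + d') := by
  obtain ⟨s, a1, a2, a3⟩ := X.df_pair hw h
  obtain ⟨s', b1, b2, b3⟩ := X.df_pair hw h'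
  have h1 : s + s' ∈ Rd E χ := by
    have := Submodule.add_mem _ a3 b3
    rwa [show s + w + (s' + w) = s + s' from eo (by
      abel_nf <;> simp only [ch2, ch3, ch4, add_zero, zero_add])] at this
  have h2 : Sg D c (s + d') := by
    have := ha s s' (s' + d') a1 b1 b2 h1 (by
      have := Submodule.add_mem _ h1 hd'
      rwa [add_assoc] at this)
    rwa [show s + s' + (s' + d') = s + d' from eo (by
      abel_nf <;> simp only [ch2, ch3, ch4, add_zero, zero_add])] at this
  have h3 : Sg D c (s + (d + d')) := by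
    have := ha s (s + d) (s + d') a1 a2 h2 (by
      rwa [show s + (s + d) = d from eo (by
        abel_nf <;> simp only [ch2, ch3, ch4, add_zero, zero_add])]) (by
      rwa [show s + (s + d') = d' from eo (by
        abel_nf <;> simp only [ch2, ch3, ch4, add_zero, zero_add])])
    rwa [show s + (s + d) + (s + d') = s + (d + d') from eo (by
      abel_nf <;> simp only [ch2, ch3, ch4, add_zero, zero_add])] at this
  have h4 := X.df_of a1 h3
  rw [show s + (s + (d + d')) = d + d' from eo (by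
      abel_nf <;> simp only [ch2, ch3, ch4, add_zero, zero_add])] at h4
  exact X.df_cl (X.sd _ a1) hw a3 h4

theorem df_nr {w d : V} (hw : w ∈ E) (h : Df D χ c w d) : w ∉ Rd E χ := by
  obtain ⟨y, h1, h2, h3⟩ := h
  intro hh
  have := hh.2 y (X.sd _ h1)
  rw [X.sym w hw y (X.sd _ h1), h3] at this
  exact one_ne_zero this

theorem df_zero [Finite V] {w : V} (hw : w ∈ E) (h : w ∉ Rd E χ) : Df D χ c w 0 := by
  obtain ⟨s, h1, h2⟩ := X.cov w hw h
  have h3 := X.df_of h1 h1
  rw [ZModModule.add_self] at h3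
  exact X.df_cl (X.sd _ h1) hw h2 h3

/-- **FLAG THEOREM** -/
theorem false_of_flag [Finite V] (k4 : ∀ z, z ≠ 0 → ETCD2.K4At D z)
    (hsp : E ≤ Submodule.span (ZMod 2) {s | Sg D c s}) (hne : ∃ s, Sg D c s)
    (ha : Aff D c E χ) : False := by
  classical
  obtain ⟨s0, hs0⟩ := hne
  -- the differences as a set
  let Dw : V → Set V := fun w => {d | d ∈ Rd E χ ∧ Df D χ c w d}
  obtain ⟨w0, ⟨hw0, hw0'⟩, hmax⟩ := Set.exists_max_image {w : V | w ∈ E ∧ w ∉ Rd E χ}
    (fun w => (Dw w).ncard) (Set.toFinite _) ⟨s0, X.sd _ hs0, X.slot_rd hs0⟩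
  have hall : ∀ w ∈ E, Dw w ⊆ Dw w0 := by
    rintro w hw d ⟨hd, hd'⟩
    by_contra hcon
    have hd0 : ¬ Df D χ c w0 d := fun hh => hcon ⟨hd, hh⟩
    have hw1 : w + w0 ∉ Rd E χ := fun hh => hd0 (X.df_cl hw hw0 hh hd')
    have hw1E : w + w0 ∈ E := E.add_mem hw hw0
    have i1 : ∀ x, Df D χ c w x → Df D χ c w0 x ∨ Df D χ c (w + w0) x := by
      intro x hx
      refine Df.split ?_
      rwa [show w0 + (w + w0) = w from eo (by
        abel_nf <;> simp only [ch2, ch3, ch4, add_zero, zero_add])]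
    have i2 : ∀ x, Df D χ c w0 x → Df D χ c w x ∨ Df D χ c (w + w0) x := by
      intro x hx
      refine Df.split ?_
      rwa [show w + (w + w0) = w0 from eo (by
        abel_nf <;> simp only [ch2, ch3, ch4, add_zero, zero_add])]
    have i3 : Df D χ c (w + w0) d := (i1 d hd').resolve_left hd0
    have i4 : Dw w ⊆ Dw (w + w0) := by
      rintro x ⟨hx, hx'⟩
      rcases i1 x hx' with h1 | h1
      · refine ⟨hx, ?_⟩
        have h2 := X.df_add ha hw hd hx hd' hx'
        rcases i1 _ h2 with h3 | h3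
        · exfalso
          apply hd0
          have := X.df_add ha hw0 (Submodule.add_mem _ hd hx) hx h3 h1
          rwa [show d + x + x = d from eo (by
            abel_nf <;> simp only [ch2, ch3, ch4, add_zero, zero_add])] at this
        · have := X.df_add ha hw1E (Submodule.add_mem _ hd hx) hd h3 i3
          rwa [show d + x + d = x from eo (by
            abel_nf <;> simp only [ch2, ch3, ch4, add_zero, zero_add])] at this
      · exact ⟨hx, h1⟩
    have i5 : Dw w0 ⊆ Dw (w + w0) := by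
      rintro x ⟨hx, hx'⟩
      rcases i2 x hx' with h1 | h1
      · exact i4 ⟨hx, h1⟩
      · exact ⟨hx, h1⟩
    have i6 : Dw w0 = Dw (w + w0) :=
      Set.eq_of_subset_of_ncard_le i5 (hmax _ ⟨hw1E, hw1⟩) (Set.toFinite _)
    exact hcon (by rw [i6]; exact i4 ⟨hd, hd'⟩)
  let G : Submodule (ZMod 2) V := mkS (fun d => d ∈ Rd E χ ∧ Df D χ c w0 d)
    ⟨Submodule.zero_mem _, X.df_zero hw0 hw0'⟩ fun a b h h' =>
      ⟨Submodule.add_mem _ h.1 h'.1, X.df_add ha hw0 h.1 h'.1 h.2 h'.2⟩
  have hG := X.four (G := G) hsp (fun s s' hs hs' h => hall s (X.sd _ hs)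
    ⟨h, X.df_of hs hs'⟩) (fun d hd => hd.1)
  -- the classes which are not full
  let W2 : Submodule (ZMod 2) V := mkS (fun w => w ∈ E ∧ ¬ ∀ d ∈ Rd E χ, Df D χ c w d)
    ⟨E.zero_mem, fun hh => X.df_nr E.zero_mem (hh 0 (Submodule.zero_mem _))
      (Submodule.zero_mem _)⟩ (by
      rintro a b ⟨aE, h⟩ ⟨bE, h'⟩
      refine ⟨E.add_mem aE bE, fun hh => ?_⟩
      push Not at h h'
      obtain ⟨d, h1, h2⟩ := h
      obtain ⟨d', h3, h4⟩ := h'
      have h5 : Df D χ c b d := (Df.split (hh d h1)).resolve_left h2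
      have h6 : Df D χ c a d' := (Df.split (hh d' h3)).resolve_right h4
      have h7 := Submodule.add_mem _ h1 h3
      rcases Df.split (hh _ h7) with h8 | h8
      · apply h2
        have := X.df_add ha aE h7 h3 h8 h6
        rwa [show d + d' + d' = d from eo (by
          abel_nf <;> simp only [ch2, ch3, ch4, add_zero, zero_add])] at this
      · apply h4
        have := X.df_add ha bE h7 h1 h8 h5
        rwa [show d + d' + d = d' from eo (by
          abel_nf <;> simp only [ch2, ch3, ch4, add_zero, zero_add])] at this)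
  have hW : w0 ∉ W2 := fun hh => hh.2 fun d hd => (hG hd).2
  obtain ⟨l, l1, l2⟩ := ETC.exists_dual_sep hW
  refine false_of_HP X.he X.cne k4 X.sd (l := l) (fun v hv hl => ?_) ⟨w0, hw0, l1⟩
  have h1 : ∀ d ∈ Rd E χ, Df D χ c v d := by
    by_contra hcon
    have := l2 v ⟨hv, hcon⟩
    rw [hl] at this
    exact one_ne_zero this
  obtain ⟨s, h2, h3⟩ := X.cov v hv (X.df_nr hv (h1 0 (Submodule.zero_mem _)))
  obtain ⟨s', h4, h5, h6⟩ := X.df_pair hv (h1 _ h3)
  have h7 : s + s' ∈ Rd E χ := by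
    have := Submodule.add_mem _ h3 h6
    rwa [show s + v + (s' + v) = s + s' from eo (by
      abel_nf <;> simp only [ch2, ch3, ch4, add_zero, zero_add])] at this
  have h8 := ha s s' (s' + (s + v)) h2 h4 h5 h7 (by
    have := Submodule.add_mem _ h7 h3
    rwa [add_assoc] at this)
  rwa [show s + s' + (s' + (s + v)) = v from eo (by
      abel_nf <;> simp only [ch2, ch3, ch4, add_zero, zero_add])] at h8

/-- one class is a point -/
theorem false_of_point [Finite V] (k4 : ∀ z, z ≠ 0 → ETCD2.K4At D z)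
    (hsp : E ≤ Submodule.span (ZMod 2) {s | Sg D c s}) {z : V} (hz : Sg D c z)
    (hu : ∀ s, Sg D c s → s + z ∈ Rd E χ → s = z) : False := by
  have zE := X.sd _ hz
  have n1 : ∀ y, Sg D c y → χ y z = 1 → D.q y z = c := by
    intro y hy h
    obtain ⟨s, h1, h2⟩ := X.nb hy zE h
    rwa [hu s (Sg.right h1) h2] at h1
  obtain ⟨p, hp, p1⟩ := X.ex1 zE (X.slot_rd hz)
  let G : Submodule (ZMod 2) V := mkS (fun d => d ∈ Rd E χ ∧ C D z d)
    ⟨Submodule.zero_mem _, C.zero z⟩ fun a b h h' =>
      ⟨Submodule.add_mem _ h.1 h'.1, h.2.add h'.2⟩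
  have hG := X.four (G := G) hsp (by
    intro s s' hs hs' h
    refine ⟨h, ?_⟩
    obtain ⟨y, h1, h2⟩ := hs.common hs'
    rw [D.symm] at h1 h2
    have hyd : C D y (s + s') := q_eq_iff.1 (h1.trans h2.symm)
    have sy : Sg D c y := Sg.left h1
    -- a class `v` with `χ v z = 1`, `χ y v = 1`
    obtain ⟨v, hv, v1, v2⟩ : ∃ v ∈ E, χ v z = 1 ∧ χ y v = 1 := by
      have sE := X.sd _ hs
      have y1 := X.r1 _ _ h1
      rcases zm (χ s z) with h3 | h3
      · rcases zm (χ y p) with h4 | h4
        · exact ⟨p + s, E.add_mem hp sE, by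
            rw [map_add, LinearMap.add_apply, p1, h3, add_zero], by
            rw [map_add, h4, y1, zero_add]⟩
        · exact ⟨p, hp, p1, h4⟩
      · exact ⟨s, sE, h3, y1⟩
    obtain ⟨s1, h5, h6⟩ := X.nb sy hv v2
    have s1E := X.sd _ (Sg.right h5)
    have h7 : χ s1 z = 1 := by rw [X.cl zE h6]; exact v1
    have h8 : D.q y (s1 + (s + s')) = c := qa h5 hyd
    have h9 : χ (s1 + (s + s')) z = 1 := by
      rw [map_add, LinearMap.add_apply, h7, h.2 z zE, add_zero]
    have i1 := n1 _ (Sg.right h5) h7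
    have i2 := n1 _ (Sg.right h8) h9
    rw [D.symm] at i1 i2
    have i3 : C D z (s1 + (s1 + (s + s'))) := q_eq_iff.1 (i1.trans i2.symm)
    exact i3.of_eq rfl (eo (by
      abel_nf <;> simp only [ch2, ch3, ch4, add_zero, zero_add]))) (fun d hd => hd.1)
  obtain ⟨r, hr⟩ := hz
  refine false_of_HP X.he X.cne k4 X.sd (l := χ z) (fun v hv hl => ?_)
    ⟨r, X.sd _ (Sg.right hr), X.r1 _ _ hr⟩
  obtain ⟨y, h1, h2⟩ := X.nb ⟨r, hr⟩ hv hl
  have h3 := qa h1 (hG h2).2
  rw [show y + (y + v) = v from eo (by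
      abel_nf <;> simp only [ch2, ch3, ch4, add_zero, zero_add])] at h3
  exact Sg.right h3

end CV

end Pool.Agent.ETPN
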