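import Pool.Agent.ETPN.N4

/-!
THEOREM HP (note 2730, helper38), steps (1)-(4): one symbol `c` whose set of slots contains the
complement of a hyperplane of its span.
-/

set_option autoImplicit false
set_option linter.unusedSimpArgs false
set_option linter.unnecessarySeqFocus false
set_option linter.unusedSectionVars false

namespace Pool.Agent.ETPN

open Pool.Agent.Helper58.PLine (QData)
open Pool.Agent.ETCP
open Pool.Agent.ETPF
open Pool.Agent.ETPG
open ETC (ind ind_true ind_false ind_and ind_congr ind_nonneg ind_le sum_ind_shift sg zm)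

variable {V Q : Type} [AddCommGroup V] [Module (ZMod 2) V] {D : QData V Q}

/-- `v + v0 + v0 = v` -/
theorem vv (v v0 : V) : v + v0 + v0 = v := eo (by
  abel_nf <;> simp only [ch2, ch3, ch4, add_zero, zero_add])

/-- a character sum over a subgroup on which the character is not trivial -/
theorem pd_zero [Fintype V] (P : V → Prop) (hP : ∀ u v, P u → P v → P (u + v))
    (b : Module.Dual (ZMod 2) V) {x : V} (hx : P x) (hb : b x = 1) :
    ∑ u, ind (P u) * sg (b u) = 0 := by
  have h1 : ∑ u, ind (P u) * sg (b u) = ∑ u, ind (P (u + x)) * sg (b (u + x)) :=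
    (Equiv.sum_comp (Equiv.addRight x) (fun u => ind (P u) * sg (b u))).symm
  have h2 : ∑ u, ind (P (u + x)) * sg (b (u + x)) = - ∑ u, ind (P u) * sg (b u) := by
    rw [← Finset.sum_neg_distrib]
    refine Finset.sum_congr rfl fun u _ => ?_
    have : P (u + x) ↔ P u :=
      ⟨fun h3 => by
        have := hP _ _ h3 hx
        rwa [vv] at this, fun h3 => hP _ _ h3 hx⟩
    rw [ind_congr this, map_add, ETC.sg_add, hb, ETC.sg_one]; ring
  omega

/-- `T² = M` -/
theorem lk' [Fintype V] {c : Q} {a b : V} (ha : Sg D c a) (hb : Sg D c b) :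
    ∑ r, ind (D.q r a = c ∧ D.q r b = c) = ∑ v, ind (C D v a ∧ C D v b) := by
  obtain ⟨r, h1, h2⟩ := ha.common hb
  refine sum_ind_shift _ _ r fun v => ?_
  rw [q_shift' (by rw [D.symm]; exact h1), q_shift' (by rw [D.symm]; exact h2)]

/-- the hypotheses: all slots of `c` are in `E`, and `{l = 1} ∩ E` consists of slots -/
structure HPS (D : QData V Q) (c : Q) (E : Submodule (ZMod 2) V)
    (l : Module.Dual (ZMod 2) V) : Prop where
  he : D.e = 0
  cne : c ≠ D.z
  sd : ∀ s, Sg D c s → s ∈ E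
  hc : ∀ v ∈ E, l v = 1 → Sg D c v

/-- `y` a slot with `V_y ⊆ ker l` -/
def Aa (D : QData V Q) (c : Q) (l : Module.Dual (ZMod 2) V) (y : V) : Prop :=
  Sg D c y ∧ ∀ v, C D y v → l v = 0

variable {c : Q} {E : Submodule (ZMod 2) V} {l : Module.Dual (ZMod 2) V}

theorem one_of {x : ZMod 2} (h : x ≠ 0) : x = 1 := (zm x).resolve_left h

namespace HPS

variable (X : HPS D c E l)

include X

theorem nz : ¬ Sg D c 0 := by
  rintro ⟨r, hr⟩
  exact X.cne (hr.symm.trans (C.zero' r))

theorem nb_mem {s r : V} (h : D.q s r = c) : r ∈ E := X.sd _ (Sg.right h)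

theorem ann_mem {s v : V} (hs : Sg D c s) (hv : C D s v) : v ∈ E := by
  obtain ⟨r, hr⟩ := hs
  have h1 := X.nb_mem (qa hr hv)
  have h2 := E.add_mem (X.nb_mem hr) h1
  rwa [show r + (r + v) = v from eo (by
    abel_nf <;> simp only [ch2, ch3, ch4, add_zero, zero_add])] at h2

/-- the inner sum on the right side of (1) -/
theorem inner_neg [Fintype V] {n v : V} (hn : n ∈ E) (ln : l n = 1) (hv : C D v n) :
    ∑ s, ind (Sg D c s) * ind (C D v s) * sg (l s) < 0 := by
  have e1 : ∑ s, ind (s ∈ E ∧ C D v s) * sg (l s) = 0 :=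
    pd_zero (fun s => s ∈ E ∧ C D v s) (fun s t h h' => ⟨E.add_mem h.1 h'.1, h.2.add h'.2⟩) l
      ⟨hn, hv⟩ ln
  have e2 : ∀ s, ind (Sg D c s) * ind (C D v s) * sg (l s) =
      ind (s ∈ E ∧ C D v s) * sg (l s) - ind ((s ∈ E ∧ C D v s) ∧ ¬ Sg D c s) := by
    intro s
    by_cases hs : Sg D c s
    · by_cases h : C D v s
      · have h1 : ind ((s ∈ E ∧ C D v s) ∧ ¬ Sg D c s) = 0 := ind_false fun hh => hh.2 hs
        rw [ind_true hs, ind_true h, ind_true ⟨X.sd _ hs, h⟩, h1]; ring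
      · have h1 : ind ((s ∈ E ∧ C D v s) ∧ ¬ Sg D c s) = 0 := ind_false fun hh => hh.2 hs
        have h2 : ind (s ∈ E ∧ C D v s) = 0 := ind_false fun hh => h hh.2
        rw [ind_false h, h1, h2]; ring
    · by_cases h : s ∈ E ∧ C D v s
      · have h1 : l s = 0 := (zm (l s)).resolve_right fun h1 => hs (X.hc _ h.1 h1)
        have h2 : ind ((s ∈ E ∧ C D v s) ∧ ¬ Sg D c s) = 1 := ind_true ⟨h, hs⟩
        rw [ind_false hs, ind_true h, h2, h1, ETC.sg_zero]; ring
      · have h1 : ind ((s ∈ E ∧ C D v s) ∧ ¬ Sg D c s) = 0 := ind_false fun hh => h hh.1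
        rw [ind_false hs, h1, ind_false h]; ring
  rw [Finset.sum_congr rfl fun s _ => e2 s, Finset.sum_sub_distrib, e1]
  have : 0 < ∑ s, ind ((s ∈ E ∧ C D v s) ∧ ¬ Sg D c s) :=
    sum_ind_pos (v := (0 : V)) ⟨⟨Submodule.zero_mem _, C.zero v⟩, X.nz⟩
  omega

/-- **(1)** every `n ∈ E` with `l n = 1` has a neighbour `y` with `V_y ⊆ ker l` -/
theorem one [Finite V] {n : V} (hn : n ∈ E) (ln : l n = 1) :
    ∃ y, D.q n y = c ∧ Aa D c l y := by
  have := Fintype.ofFinite V
  have sn : Sg D c n := X.hc n hn ln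
  by_contra hcon
  push Not at hcon
  -- the two sides
  have e1 : ∑ s, ind (Sg D c s) * sg (l s) * ∑ y, ind (D.q y n = c ∧ D.q y s = c) =
      ∑ s, ind (Sg D c s) * sg (l s) * ∑ v, ind (C D v n ∧ C D v s) := by
    refine Finset.sum_congr rfl fun s _ => ?_
    by_cases hs : Sg D c s
    · rw [lk' sn hs]
    · rw [ind_false hs]; ring
  have e2 : ∑ s, ind (Sg D c s) * sg (l s) * ∑ y, ind (D.q y n = c ∧ D.q y s = c) = 0 := by
    have h1 : ∀ s, ind (Sg D c s) * sg (l s) * ∑ y, ind (D.q y n = c ∧ D.q y s = c) =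
        ∑ y, ind (D.q y n = c) * (ind (D.q y s = c) * sg (l s)) := by
      intro s
      rw [Finset.mul_sum]
      refine Finset.sum_congr rfl fun y _ => ?_
      rw [ind_and]
      by_cases hs : D.q y s = c
      · rw [ind_true (Sg.right hs)]; ring
      · rw [ind_false hs]; ring
    rw [Finset.sum_congr rfl fun s _ => h1 s, Finset.sum_comm]
    refine Finset.sum_eq_zero fun y _ => ?_
    rw [← Finset.mul_sum]
    by_cases hy : D.q y n = c
    · -- `V_y` is not inside `ker l`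
      have h2 : ¬ Aa D c l y := hcon y (by rw [D.symm]; exact hy)
      have h3 : ∃ v, C D y v ∧ l v ≠ 0 := by
        by_contra h3
        push Not at h3
        exact h2 ⟨Sg.left hy, h3⟩
      obtain ⟨v, h4, h5⟩ := h3
      have h5' := one_of h5
      have h6 : ∑ s, ind (D.q y s = c) * sg (l s) =
          ∑ s, ind (D.q y (s + v) = c) * sg (l (s + v)) :=
        (Equiv.sum_comp (Equiv.addRight v) (fun s => ind (D.q y s = c) * sg (l s))).symm
      have h7 : ∑ s, ind (D.q y (s + v) = c) * sg (l (s + v)) =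
          - ∑ s, ind (D.q y s = c) * sg (l s) := by
        rw [← Finset.sum_neg_distrib]
        refine Finset.sum_congr rfl fun s _ => ?_
        have h8 : D.q y (s + v) = D.q y s := q_eq (h4.of_eq rfl (eo (by
          abel_nf <;> simp only [ch2, ch3, ch4, add_zero, zero_add])))
        rw [h8, map_add, ETC.sg_add, h5', ETC.sg_one]; ring
      have h9 : ∑ s, ind (D.q y s = c) * sg (l s) = 0 := by omega
      rw [h9, mul_zero]
    · rw [ind_false hy, zero_mul]
  have e3 : ∑ s, ind (Sg D c s) * sg (l s) * ∑ v, ind (C D v n ∧ C D v s) =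
      ∑ v, ind (C D v n) * ∑ s, ind (Sg D c s) * ind (C D v s) * sg (l s) := by
    simp only [Finset.mul_sum]
    rw [Finset.sum_comm]
    refine Finset.sum_congr rfl fun v _ => Finset.sum_congr rfl fun s _ => ?_
    rw [ind_and]; ring
  have e4 : ∑ v, ind (C D v n) * ∑ s, ind (Sg D c s) * ind (C D v s) * sg (l s) < 0 := by
    rw [← Finset.sum_const_zero (s := (Finset.univ : Finset V))]
    refine Finset.sum_lt_sum (fun v _ => ?_) ⟨0, Finset.mem_univ _, ?_⟩
    · by_cases hv : C D v n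
      · rw [ind_true hv, one_mul]; exact (X.inner_neg hn ln hv).le
      · rw [ind_false hv, zero_mul]
    · rw [ind_true (C.zero' n : C D 0 n), one_mul]
      exact X.inner_neg hn ln (C.zero' n)
  rw [← e3, ← e1, e2] at e4
  exact lt_irrefl _ e4

omit X in
theorem _root_.Pool.Agent.ETPN.Aa.l0 (he : D.e = 0) {y : V} (h : Aa D c l y) : l y = 0 :=
  h.2 y (C.self he y)

/-- `N_y ⊆ {l = 1}` for `y ∈ A` -/
theorem nA [Finite V] {n0 : V} (hn0 : n0 ∈ E) (ln0 : l n0 = 1) {y r : V} (hy : Aa D c l y)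
    (hr : D.q y r = c) : l r = 1 := by
  obtain ⟨y', h1, h2⟩ := X.one hn0 ln0
  obtain ⟨r', h3, h4⟩ := hy.1.common h2.1
  have h5 : l (r' + n0) = 0 := h2.2 _ (q_eq_iff.1 (h4.trans (by rw [D.symm]; exact h1.symm)))
  have h6 : l (r + r') = 0 := hy.2 _ (q_eq_iff.1 (hr.trans h3.symm))
  rw [map_add, ln0] at h5
  rw [map_add] at h6
  revert h5 h6
  generalize l r' = x
  generalize l r = z
  revert x z
  decide

/-- `y + V_n ⊆ S` for `y ∈ A`, `l n = 1` -/
theorem fA [Finite V] {y n : V} (hy : Aa D c l y) (hn : n ∈ E) (ln : l n = 1) :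
    Fm D c n y := by
  have h1 : Fm D c y n := by
    intro w hw
    refine X.hc _ (E.add_mem hn (X.ann_mem hy.1 hw)) ?_
    rw [map_add, ln, hy.2 w hw, add_zero]
  exact Fm.swap (X.hc n hn ln) hy.1 h1

/-- **(3)** differences of elements of `A` are in the stabilizer -/
theorem tA [Finite V] {n0 : V} (hn0 : n0 ∈ E) (ln0 : l n0 = 1) {y y' : V} (hy : Aa D c l y)
    (hy' : Aa D c l y') : y + y' ∈ Gm D c := by
  intro s hs
  have ly := hy.l0 X.he
  have ly' := hy'.l0 X.he
  rcases zm (l s) with h0 | h1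
  · obtain ⟨r, h2, h3⟩ := hs.common hy.1
    have lr := X.nA hn0 ln0 hy h3
    have h4 : C D r (s + y) := q_eq_iff.1 (by rw [D.symm r s, D.symm r y, h2, h3])
    have h5 := X.fA hy' (X.nb_mem h3) lr _ h4
    rwa [show y' + (s + y) = s + (y + y') from by abel] at h5
  · refine X.hc _ (E.add_mem (X.sd _ hs) (E.add_mem (X.sd _ hy.1) (X.sd _ hy'.1))) ?_
    rw [map_add, map_add, h1, ly, ly', add_zero, add_zero]

theorem slot_not_gm {s : V} (hs : Sg D c s) : s ∉ Gm D c := by
  intro h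
  have h1 := h s hs
  rw [ZModModule.add_self] at h1
  exact X.nz h1

theorem gm_mem {s t : V} (hs : Sg D c s) (ht : t ∈ Gm D c) : t ∈ E := by
  have h1 := E.add_mem (X.sd _ hs) (X.sd _ (ht s hs))
  rwa [show s + (s + t) = t from eo (by
    abel_nf <;> simp only [ch2, ch3, ch4, add_zero, zero_add])] at h1

theorem gm_l {s t : V} (hs : Sg D c s) (ht : t ∈ Gm D c) : l t = 0 :=
  (zm (l t)).resolve_right fun h => X.slot_not_gm (X.hc t (X.gm_mem hs ht) h) ht

/-- `A + Stab ⊆ A` -/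
theorem At [Finite V] {y t : V} (hy : Aa D c l y) (ht : t ∈ Gm D c) : Aa D c l (y + t) := by
  have sy : Sg D c (y + t) := ht _ hy.1
  refine ⟨sy, fun v hv => (zm (l v)).resolve_right fun hl => ?_⟩
  have hvE : v ∈ E := X.ann_mem sy hv
  have h1 := X.fA hy hvE hl
  have h2 := Fm.gm h1 ht
  have h3 : Fm D c (y + t) v := Fm.swap sy (X.hc v hvE hl) h2
  have h4 := h3 v hv
  rw [ZModModule.add_self] at h4
  exact X.nz h4

end HPS

/-- the hypotheses together with a base point `a ∈ A` and `n0 ∈ E`, `l n0 = 1` -/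
structure HPB (D : QData V Q) (c : Q) (E : Submodule (ZMod 2) V)
    (l : Module.Dual (ZMod 2) V) (a n0 : V) : Prop extends HPS D c E l where
  ha : Aa D c l a
  hn0 : n0 ∈ E
  ln0 : l n0 = 1

variable (E l) in
/-- `E ∩ ker l` -/
def Hm : Submodule (ZMod 2) V :=
  mkS (fun v => v ∈ E ∧ l v = 0) ⟨E.zero_mem, map_zero l⟩ fun a b h h' =>
    ⟨E.add_mem h.1 h'.1, by rw [map_add, h.2, h'.2, add_zero]⟩

theorem mem_Hm {v : V} : v ∈ Hm E l ↔ v ∈ E ∧ l v = 0 := Iff.rfl

variable (E l) in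
/-- `{l = 1} ∩ E` -/
def Cc (v : V) : Prop := v ∈ E ∧ l v = 1

theorem cc_shift {v m : V} (hm : Cc E l m) : Cc E l (v + m) ↔ v ∈ Hm E l := by
  constructor
  · rintro ⟨h1, h2⟩
    refine ⟨(Submodule.add_mem_iff_left E hm.1).1 h1, ?_⟩
    rw [map_add, hm.2] at h2
    revert h2
    generalize l v = x
    revert x; decide
  · rintro ⟨h1, h2⟩
    refine ⟨E.add_mem h1 hm.1, ?_⟩
    rw [map_add, h2, hm.2, zero_add]

theorem hm_shift {v m : V} (hm : Cc E l m) : v + m ∈ Hm E l ↔ Cc E l v := by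
  rw [← cc_shift hm, vv]

namespace HPB

variable {a n0 : V} (X : HPB D c E l a n0)

include X

theorem slot {n : V} (hn : Cc E l n) : Sg D c n := X.hc n hn.1 hn.2

theorem nC {y r : V} [Finite V] (hy : Aa D c l y) (hr : D.q y r = c) : Cc E l r :=
  ⟨X.nb_mem hr, X.nA X.hn0 X.ln0 hy hr⟩

theorem a_iff [Finite V] {y : V} : Aa D c l y ↔ y + a ∈ Gm D c := by
  constructor
  · intro h
    exact X.tA X.hn0 X.ln0 h X.ha
  · intro h
    have := X.At X.ha h
    rwa [show a + (y + a) = y from eo (by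
      abel_nf <;> simp only [ch2, ch3, ch4, add_zero, zero_add])] at this

/-- every `n ∈ C` has a neighbour in `a + Stab` -/
theorem mA [Finite V] {n : V} (hn : Cc E l n) : ∃ w, w + a ∈ Gm D c ∧ D.q w n = c := by
  obtain ⟨y, h1, h2⟩ := X.one hn.1 hn.2
  exact ⟨y, X.a_iff.1 h2, by rw [D.symm]; exact h1⟩

/-- every `V_t`, `t ∈ Stab`, meets `C` -/
theorem tC [Finite V] {t : V} (ht : t ∈ Gm D c) : ∃ r, Cc E l r ∧ C D t r := by
  obtain ⟨r, h1, h2⟩ := X.ha.1.common (ht _ X.ha.1)
  refine ⟨r, X.nC X.ha h1, ?_⟩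
  exact (q_eq'_iff.1 (h1.trans h2.symm)).of_eq (eo (by
    abel_nf <;> simp only [ch2, ch3, ch4, add_zero, zero_add])) rfl

theorem cw [Fintype V] {w : V} (hw : w + a ∈ Gm D c) :
    ∑ n, ind (Cc E l n ∧ D.q w n = c) = cA D (Hm E l) w := by
  have hA : Aa D c l w := X.a_iff.2 hw
  obtain ⟨r, hr⟩ := hA.1
  refine sum_ind_shift _ _ r fun v => ?_
  rw [cc_shift (X.nC hA hr), q_shift hr]

theorem ct [Fintype V] {t : V} (ht : t ∈ Gm D c) :
    ∑ n, ind (Cc E l n ∧ C D t n) = cA D (Hm E l) t := by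
  obtain ⟨r, h1, h2⟩ := X.tC ht
  refine sum_ind_shift _ _ r fun v => ?_
  rw [cc_shift h1, C_shift h2]

/-- **(4)** the first moments -/
theorem m1 [Fintype V] : ∑ w, ind (w + a ∈ Gm D c) * cA D (Hm E l) w =
    ∑ t, ind (t ∈ Gm D c) * cA D (Hm E l) t := by
  calc ∑ w, ind (w + a ∈ Gm D c) * cA D (Hm E l) w
      = ∑ w, ∑ n, ind (w + a ∈ Gm D c) * ind (Cc E l n ∧ D.q w n = c) := by
        refine Finset.sum_congr rfl fun w _ => ?_
        by_cases hw : w + a ∈ Gm D c
        · rw [← Finset.mul_sum, X.cw hw]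
        · simp only [ind_false hw, zero_mul, Finset.sum_const_zero]
    _ = ∑ n, ind (Cc E l n) * ∑ w, ind (w + a ∈ Gm D c ∧ D.q w n = c) := by
        rw [Finset.sum_comm]
        refine Finset.sum_congr rfl fun n _ => ?_
        rw [Finset.mul_sum]
        refine Finset.sum_congr rfl fun w _ => ?_
        simp only [ind_and]; ring
    _ = ∑ n, ind (Cc E l n) * ∑ t, ind (t ∈ Gm D c ∧ C D t n) := by
        refine Finset.sum_congr rfl fun n _ => ?_
        by_cases hn : Cc E l n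
        · congr 1
          obtain ⟨w, h1, h2⟩ := X.mA hn
          refine sum_ind_shift _ _ w fun v => ?_
          rw [mem_shift h1, q_shift' h2]
        · rw [ind_false hn, zero_mul, zero_mul]
    _ = ∑ t, ∑ n, ind (t ∈ Gm D c) * ind (Cc E l n ∧ C D t n) := by
        simp only [Finset.mul_sum]
        rw [Finset.sum_comm]
        refine Finset.sum_congr rfl fun t _ => Finset.sum_congr rfl fun n _ => ?_
        simp only [ind_and]; ring
    _ = _ := by
        refine Finset.sum_congr rfl fun t _ => ?_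
        by_cases ht : t ∈ Gm D c
        · rw [← Finset.mul_sum, X.ct ht]
        · simp only [ind_false ht, zero_mul, Finset.sum_const_zero]

/-- the second moments, if any two elements of `C` have a common neighbour in `a + Stab` -/
theorem m2 [Fintype V] (h6 : ∀ n n', Cc E l n → Cc E l n' → ∃ w, w + a ∈ Gm D c ∧
    D.q w n = c ∧ D.q w n' = c) :
    ∑ w, ind (w + a ∈ Gm D c) * (cA D (Hm E l) w * cA D (Hm E l) w) =
      ∑ t, ind (t ∈ Gm D c) * (cA D (Hm E l) t * cA D (Hm E l) t) := by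
  have h1 := tT_sum (D := D) c a (fun n => Cc E l n) (fun n => Cc E l n)
  have h2 := tB_sum (D := D) c (fun n => Cc E l n) (fun n => Cc E l n)
  have h3 : ∑ n, ∑ n', ind (Cc E l n) * ind (Cc E l n') * tT D c a n n' =
      ∑ n, ∑ n', ind (Cc E l n) * ind (Cc E l n') * tB D c n n' := by
    refine Finset.sum_congr rfl fun n _ => Finset.sum_congr rfl fun n' _ => ?_
    by_cases hn : Cc E l n
    · by_cases hn' : Cc E l n'
      · obtain ⟨w, g1, g2, g3⟩ := h6 n n' hn hn'
        rw [tT_eq g1 g2 g3]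
      · rw [ind_false hn', mul_zero, zero_mul, zero_mul]
    · rw [ind_false hn, zero_mul, zero_mul, zero_mul]
  rw [h1, h2] at h3
  have h4 : ∀ w, ind (w + a ∈ Gm D c) * ((∑ n, ind (Cc E l n ∧ D.q w n = c)) *
      ∑ n, ind (Cc E l n ∧ D.q w n = c)) =
      ind (w + a ∈ Gm D c) * (cA D (Hm E l) w * cA D (Hm E l) w) := by
    intro w
    by_cases hw : w + a ∈ Gm D c
    · rw [X.cw hw]
    · rw [ind_false hw, zero_mul, zero_mul]
  have h5 : ∀ t, ind (t ∈ Gm D c) * ((∑ n, ind (Cc E l n ∧ C D t n)) *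
      ∑ n, ind (Cc E l n ∧ C D t n)) =
      ind (t ∈ Gm D c) * (cA D (Hm E l) t * cA D (Hm E l) t) := by
    intro t
    by_cases ht : t ∈ Gm D c
    · rw [X.ct ht]
    · rw [ind_false ht, zero_mul, zero_mul]
  rw [Finset.sum_congr rfl fun s _ => h4 s, Finset.sum_congr rfl fun t _ => h5 t] at h3
  exact h3

end HPB

end Pool.Agent.ETPN
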