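import Pool.Agent.ETPG.G

/-!
ETC-38N (note 2686, helper38), step (1): LAW F at one symbol `c`.
-/

set_option autoImplicit false
set_option linter.unusedSimpArgs false
set_option linter.unnecessarySeqFocus false
set_option linter.unusedSectionVars false

namespace Pool.Agent.ETPN

open Pool.Agent.Helper58.PLine (QData)
open Pool.Agent.ETCP
open Pool.Agent.ETPF
open Pool.Agent.ETPG
open ETC (ind ind_true ind_false ind_and ind_congr ind_nonneg ind_le sum_ind_shift)

variable {V Q : Type} [AddCommGroup V] [Module (ZMod 2) V] {D : QData V Q}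

/-- `-1 = 1`, `c ≠ 0` and LAW F at `c` -/
structure LF (D : QData V Q) (c : Q) : Prop where
  he : D.e = 0
  cne : c ≠ D.z
  lf : ∀ x t, Sg D c x → Fm D c x t → ∃ g ∈ Gm D c, D.q (x + g) t = c

variable (D) in
/-- `V_s + Stab` -/
def Gs (c : Q) (s : V) : Submodule (ZMod 2) V :=
  mkS (fun h => ∃ g ∈ Gm D c, C D s (h + g)) ⟨0, Submodule.zero_mem _, by
      rw [add_zero]; exact C.zero s⟩ fun a b => by
    rintro ⟨g, h1, h2⟩ ⟨g', h3, h4⟩
    refine ⟨g + g', Submodule.add_mem _ h1 h3, ?_⟩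
    have := h2.add h4
    rwa [show a + g + (b + g') = a + b + (g + g') from by abel] at this

theorem mem_Gs {c : Q} {s h : V} : h ∈ Gs D c s ↔ ∃ g ∈ Gm D c, C D s (h + g) := Iff.rfl

variable (D) in
/-- `N_s + Stab` -/
def YY (c : Q) (s y : V) : Prop := ∃ g ∈ Gm D c, D.q (s + g) y = c

theorem YY.of {c : Q} {s y : V} (h : D.q s y = c) : YY D c s y :=
  ⟨0, Submodule.zero_mem _, by rwa [add_zero]⟩

theorem YY.of' {c : Q} {s w y : V} (hw : w + s ∈ Gm D c) (h : D.q w y = c) : YY D c s y := by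
  refine ⟨w + s, hw, ?_⟩
  rwa [show s + (w + s) = w from eo (by
    abel_nf <;> simp only [ch2, ch3, ch4, add_zero, zero_add])]

theorem YY.slot {c : Q} {s y : V} (h : YY D c s y) : Sg D c s := by
  obtain ⟨g, h1, h2⟩ := h
  have h3 : Sg D c (s + g) := ⟨y, h2⟩
  have h4 := h1 _ h3
  rwa [show s + g + g = s from eo (by
    abel_nf <;> simp only [ch2, ch3, ch4, add_zero, zero_add])] at h4

theorem YY.slot' {c : Q} {s y : V} (h : YY D c s y) : Sg D c y := by
  obtain ⟨g, -, h2⟩ := h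
  exact Sg.right h2

theorem Gm_le_Gs {c : Q} {s g : V} (hg : g ∈ Gm D c) : g ∈ Gs D c s :=
  ⟨g, hg, by rw [ZModModule.add_self]; exact C.zero s⟩

theorem C_le_Gs {c : Q} {s h : V} (hh : C D s h) : h ∈ Gs D c s :=
  ⟨0, Submodule.zero_mem _, by rwa [add_zero]⟩

/-- the shift of the base point of `Fm` by the stabilizer -/
theorem Fm.gm {c : Q} {d y g : V} (h : Fm D c d y) (hg : g ∈ Gm D c) : Fm D c d (y + g) := by
  intro w hw
  have := hg _ (h w hw)
  rwa [show y + w + g = y + g + w from by abel] at this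

/-- the shift of `Fm` by elements of `V_d` -/
theorem Fm.ann {c : Q} {d y u : V} (h : Fm D c d y) (hu : C D d u) : Fm D c d (y + u) := by
  intro w hw
  have := h _ (hu.add hw)
  rwa [show y + (u + w) = y + u + w from by abel] at this

theorem Fm.slot {c : Q} {d y : V} (h : Fm D c d y) : Sg D c y := by
  have := h 0 (C.zero d)
  rwa [add_zero] at this

theorem YY.fm [Finite V] {c : Q} {s y : V} (h : YY D c s y) : Fm D c s y := by
  obtain ⟨g, h1, h2⟩ := h
  have h3 : Fm D c y (s + g) := Fm.self (by rw [D.symm]; exact h2)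
  have h4 := Fm.gm h3 h1
  rw [show s + g + g = s from eo (by
    abel_nf <;> simp only [ch2, ch3, ch4, add_zero, zero_add])] at h4
  exact Fm.swap (Fm.slot h4) (Sg.right h2) h4

namespace LF

variable {c : Q} (X : LF D c)

include X

theorem yy_iff [Finite V] {s y : V} (hs : Sg D c s) : YY D c s y ↔ Fm D c s y :=
  ⟨fun h => h.fm, fun h => X.lf s y hs h⟩

theorem yy_symm [Finite V] {s y : V} (h : YY D c s y) : YY D c y s :=
  X.lf y s h.slot' (Fm.swap h.slot' h.slot h.fm)

/-- **VSIG** -/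
theorem vsig [Finite V] {s g u : V} (hs : Sg D c s) (hg : g ∈ Gm D c) (hu : C D (s + g) u) :
    ∃ g' ∈ Gm D c, C D s (u + g') := by
  obtain ⟨z, hz⟩ := hs
  have hs : Sg D c s := ⟨z, hz⟩
  have sz : Sg D c z := Sg.right hz
  have h1 : Fm D c z (s + g) := Fm.gm (Fm.self (by rw [D.symm]; exact hz)) hg
  have h2 : Fm D c (s + g) z := Fm.swap (hg s hs) sz h1
  have h3 := Fm.ann h2 hu
  have h4 : Fm D c (z + u) (s + g) := Fm.swap (Fm.slot h3) (hg s hs) h3
  have h5 := Fm.gm h4 hg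
  rw [show s + g + g = s from eo (by
    abel_nf <;> simp only [ch2, ch3, ch4, add_zero, zero_add])] at h5
  obtain ⟨g', h6, h7⟩ := X.lf _ _ (Fm.slot h3) h5
  refine ⟨g', h6, ?_⟩
  rw [D.symm] at h7
  have h8 : C D s (z + u + g' + z) := q_eq_iff.1 (h7.trans hz.symm)
  exact h8.of_eq rfl (eo (by abel_nf <;> simp only [ch2, ch3, ch4, add_zero, zero_add]))

theorem gs_sub [Finite V] {s w h : V} (hs : Sg D c s) (hw : w + s ∈ Gm D c)
    (hh : h ∈ Gs D c w) : h ∈ Gs D c s := by
  obtain ⟨g, h1, h2⟩ := hh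
  obtain ⟨g', h3, h4⟩ := X.vsig (u := h + g) hs hw (h2.of_eq (eo (by
    abel_nf <;> simp only [ch2, ch3, ch4, add_zero, zero_add])) rfl)
  exact ⟨g + g', Submodule.add_mem _ h1 h3, by rwa [← add_assoc]⟩

/-- `V_w ⊆ V_s + Stab` for `w ∈ s + Stab` -/
theorem ann_sub [Finite V] {s w h : V} (hs : Sg D c s) (hw : w + s ∈ Gm D c)
    (hh : C D w h) : h ∈ Gs D c s := X.gs_sub hs hw (C_le_Gs hh)

/-- `N_s + Stab` is a coset of `V_s + Stab` -/
theorem yy_coset [Finite V] {s y y0 : V} (h0 : YY D c s y0) :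
    YY D c s y ↔ y + y0 ∈ Gs D c s := by
  obtain ⟨g, h1, h2⟩ := X.yy_symm h0
  rw [D.symm] at h2
  constructor
  · intro h
    obtain ⟨g', h3, h4⟩ := X.yy_symm h
    rw [D.symm] at h4
    refine ⟨g' + g, Submodule.add_mem _ h3 h1, ?_⟩
    have h5 : C D s (y + g' + (y0 + g)) := q_eq_iff.1 (h4.trans h2.symm)
    rwa [show y + g' + (y0 + g) = y + y0 + (g' + g) from by abel] at h5
  · rintro ⟨g', h3, h4⟩
    have h5 := qa h2 h4
    rw [show y0 + g + (y + y0 + g') = y + (g + g') from eo (by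
      abel_nf <;> simp only [ch2, ch3, ch4, add_zero, zero_add]), D.symm] at h5
    exact X.yy_symm ⟨g + g', Submodule.add_mem _ h1 h3, h5⟩

theorem yy_shift [Finite V] {s v y0 : V} (h0 : YY D c s y0) :
    YY D c s (v + y0) ↔ v ∈ Gs D c s := by
  rw [X.yy_coset h0, show v + y0 + y0 = v from eo (by
    abel_nf <;> simp only [ch2, ch3, ch4, add_zero, zero_add])]

end LF

end Pool.Agent.ETPN
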