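import Pool.Agent.ETPN.N1

/-!
ETC-38N (note 2686, helper38), steps (2), (3): double counting.
-/

set_option autoImplicit false
set_option linter.unusedSimpArgs false
set_option linter.unnecessarySeqFocus false
set_option linter.unusedSectionVars false

namespace Pool.Agent.ETPN

open Pool.Agent.Helper58.PLine (QData)
open Pool.Agent.ETCP
open Pool.Agent.ETPF
open Pool.Agent.ETPG
open ETC (ind ind_true ind_false ind_and ind_congr ind_nonneg ind_le sum_ind_shift)

variable {V Q : Type} [AddCommGroup V] [Module (ZMod 2) V] {D : QData V Q}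

variable (D) in
/-- `|G ∩ V_w|` -/
noncomputable def cA [Fintype V] (G : Submodule (ZMod 2) V) (w : V) : ℤ :=
  ∑ h, ind (h ∈ G ∧ C D w h)

theorem cA_swap [Fintype V] (G : Submodule (ZMod 2) V) (P : V → Prop) :
    ∑ w, ind (P w) * cA D G w = ∑ h, ind (h ∈ G) * ∑ w, ind (P w ∧ C D w h) := by
  simp only [cA, Finset.mul_sum]
  rw [Finset.sum_comm]
  refine Finset.sum_congr rfl fun h _ => Finset.sum_congr rfl fun w _ => ?_
  simp only [ind_and]; ring

theorem cM_eq [Fintype V] (c : Q) (w : V) : cM D c w = cA D (Gm D c) w := rfl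

namespace LF

variable {c : Q} (X : LF D c)

include X

/-- the neighbours of `w ∈ s + Stab` -/
theorem b1 [Fintype V] {s w : V} (hs : Sg D c s) (hw : w + s ∈ Gm D c) :
    ∑ y, ind (YY D c s y ∧ D.q w y = c) = cA D (Gs D c s) w := by
  obtain ⟨y, hy⟩ := TG.a2 hs hw
  refine sum_ind_shift _ _ y fun v => ?_
  rw [X.yy_shift (YY.of' hw hy), q_shift hy]

/-- the neighbours of `y ∈ N_s + Stab` in `s + Stab` -/
theorem b2 [Fintype V] {s y : V} (hy : YY D c s y) :
    ∑ w, ind (w + s ∈ Gm D c ∧ D.q w y = c) = cM D c y := by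
  obtain ⟨g, h1, h2⟩ := hy
  have h3 : s + g + s ∈ Gm D c := by
    rwa [show s + g + s = g from eo (by
      abel_nf <;> simp only [ch2, ch3, ch4, add_zero, zero_add])]
  refine sum_ind_shift _ _ (s + g) fun v => ?_
  rw [mem_shift h3, q_shift' h2]
  exact and_congr_right fun _ => ⟨C.symm, C.symm⟩

/-- `V_g` meets `N_s`, `g ∈ Stab` -/
theorem b3 {s g : V} (hs : Sg D c s) (hg : g ∈ Gm D c) : ∃ r, D.q s r = c ∧ C D g r := by
  obtain ⟨r, h1, h2⟩ := hs.common (TG.sl_gm hs hg)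
  refine ⟨r, h1, ?_⟩
  exact (q_eq'_iff.1 (h1.trans h2.symm)).of_eq (eo (by
    abel_nf <;> simp only [ch2, ch3, ch4, add_zero, zero_add])) rfl

theorem b4 [Fintype V] {s g : V} (hs : Sg D c s) (hg : g ∈ Gm D c) :
    ∑ y, ind (YY D c s y ∧ C D g y) = cA D (Gs D c s) g := by
  obtain ⟨r, h1, h2⟩ := X.b3 hs hg
  refine sum_ind_shift _ _ r fun v => ?_
  rw [X.yy_shift (YY.of h1), C_shift h2]

/-- **(2)** `∑_{w ∈ s + Stab} |V_w| = ∑_{g ∈ Stab} |V_g ∩ G_s|` -/
theorem e0 [Fintype V] {s : V} (hs : Sg D c s) :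
    ∑ w, ind (w + s ∈ Gm D c) * cA D (Gs D c s) w =
      ∑ g, ind (g ∈ Gm D c) * cA D (Gs D c s) g := by
  calc ∑ w, ind (w + s ∈ Gm D c) * cA D (Gs D c s) w
      = ∑ w, ∑ y, ind (w + s ∈ Gm D c) * ind (YY D c s y ∧ D.q w y = c) := by
        refine Finset.sum_congr rfl fun w _ => ?_
        by_cases hw : w + s ∈ Gm D c
        · rw [← Finset.mul_sum, X.b1 hs hw]
        · simp only [ind_false hw, zero_mul, Finset.sum_const_zero]
    _ = ∑ y, ∑ w, ind (YY D c s y) * ind (w + s ∈ Gm D c ∧ D.q w y = c) := by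
        rw [Finset.sum_comm]
        refine Finset.sum_congr rfl fun y _ => Finset.sum_congr rfl fun w _ => ?_
        simp only [ind_and]; ring
    _ = ∑ y, ∑ g, ind (YY D c s y) * ind (g ∈ Gm D c ∧ C D y g) := by
        refine Finset.sum_congr rfl fun y _ => ?_
        by_cases hy : YY D c s y
        · rw [← Finset.mul_sum, ← Finset.mul_sum, X.b2 hy, cM]
        · simp only [ind_false hy, zero_mul]
    _ = ∑ g, ∑ y, ind (g ∈ Gm D c) * ind (YY D c s y ∧ C D g y) := by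
        rw [Finset.sum_comm]
        refine Finset.sum_congr rfl fun g _ => Finset.sum_congr rfl fun y _ => ?_
        simp only [ind_and]
        rw [ind_congr (show C D y g ↔ C D g y from ⟨C.symm, C.symm⟩)]; ring
    _ = _ := by
        refine Finset.sum_congr rfl fun g _ => ?_
        rw [← Finset.mul_sum]
        by_cases hg : g ∈ Gm D c
        · rw [X.b4 hs hg]
        · rw [ind_false hg, zero_mul, zero_mul]

/-- **(*)**: every `h ∈ G_s` commutes with some `w ∈ s + Stab` -/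
theorem star [Fintype V] {s h : V} (hs : Sg D c s) (hh : h ∈ Gs D c s) :
    ∃ w, w + s ∈ Gm D c ∧ C D w h := by
  have e := X.e0 hs
  rw [cA_swap, cA_swap] at e
  have hle : ∀ h ∈ (Finset.univ : Finset V), ind (h ∈ Gs D c s) *
      ∑ w, ind (w + s ∈ Gm D c ∧ C D w h) ≤ ind (h ∈ Gs D c s) *
      ∑ g, ind (g ∈ Gm D c ∧ C D g h) := by
    intro h _
    refine mul_le_mul_of_nonneg_left (sum_ind_le fun w0 hw0 v => ?_) (ind_nonneg _)
    rw [mem_shift hw0.1, C_shift' hw0.2]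
  have e1 := (Finset.sum_eq_sum_iff_of_le hle).1 e h (Finset.mem_univ _)
  rw [ind_true hh, one_mul, one_mul] at e1
  have e2 : 0 < ∑ g, ind (g ∈ Gm D c ∧ C D g h) :=
    sum_ind_pos (v := (0 : V)) ⟨Submodule.zero_mem _, C.zero' h⟩
  rw [← e1] at e2
  exact exists_of_sum_pos e2

/-- the relation `y ∈ G_s` is symmetric on slots -/
theorem gs_symm [Fintype V] {s y : V} (hs : Sg D c s) (h : y ∈ Gs D c s) : s ∈ Gs D c y := by
  obtain ⟨w, h1, h2⟩ := X.star hs h
  refine ⟨w + s, h1, ?_⟩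
  exact h2.symm.of_eq rfl (eo (by
    abel_nf <;> simp only [ch2, ch3, ch4, add_zero, zero_add]))

theorem r1 [Fintype V] {y v : V} (hy : Sg D c y) :
    (∑ a, ind (a + y ∈ Gm D c ∧ C D v a)) * (∑ a, ind (a + y ∈ Gm D c ∧ C D v a)) =
      ind (v ∈ Gs D c y) * (cM D c v * cM D c v) := by
  by_cases hv : v ∈ Gs D c y
  · obtain ⟨w, h1, h2⟩ := X.star hy hv
    rw [ind_true hv, one_mul]
    have : ∑ a, ind (a + y ∈ Gm D c ∧ C D v a) = cM D c v := by
      refine sum_ind_shift _ _ w fun u => ?_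
      rw [mem_shift h1, C_shift h2.symm]
    rw [this]
  · rw [ind_false hv, zero_mul, sum_ind_zero fun a ha => hv (X.ann_sub hy ha.1 ha.2.symm), zero_mul]

theorem r2 [Fintype V] {y r : V} :
    (∑ a, ind (a + y ∈ Gm D c ∧ D.q r a = c)) * (∑ a, ind (a + y ∈ Gm D c ∧ D.q r a = c)) =
      ind (YY D c y r) * (cM D c r * cM D c r) := by
  by_cases hv : YY D c y r
  · rw [ind_true hv, one_mul]
    have h1 := X.b2 hv
    have h2 : ∑ a, ind (a + y ∈ Gm D c ∧ D.q r a = c) = cM D c r := by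
      rw [← h1]
      refine Finset.sum_congr rfl fun a _ => ?_
      rw [D.symm r a]
    rw [h2]
  · rw [ind_false hv, zero_mul, sum_ind_zero fun a ha => hv ?_, zero_mul]
    exact YY.of' ha.1 (by rw [D.symm]; exact ha.2)

/-- `T² = M` -/
theorem lk [Fintype V] {a b : V} (ha : Sg D c a) (hb : Sg D c b) :
    ∑ r, ind (D.q r a = c ∧ D.q r b = c) = ∑ v, ind (C D v a ∧ C D v b) := by
  obtain ⟨r, h1, h2⟩ := ha.common hb
  refine sum_ind_shift _ _ r fun v => ?_
  rw [q_shift' (by rw [D.symm]; exact h1), q_shift' (by rw [D.symm]; exact h2)]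

/-- **(3)** -/
theorem dd [Fintype V] {y : V} (hy : Sg D c y) :
    ∑ r, ind (YY D c y r) * (cM D c r * cM D c r) =
      ∑ v, ind (v ∈ Gs D c y) * (cM D c v * cM D c v) := by
  have e1 : ∀ r, ind (YY D c y r) * (cM D c r * cM D c r) =
      ∑ a, ∑ b, ind (a + y ∈ Gm D c) * ind (b + y ∈ Gm D c) *
        ind (D.q r a = c ∧ D.q r b = c) := by
    intro r
    rw [← X.r2, Finset.sum_mul_sum]
    refine Finset.sum_congr rfl fun a _ => Finset.sum_congr rfl fun b _ => ?_
    simp only [ind_and]; ring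
  have e2 : ∀ v, ind (v ∈ Gs D c y) * (cM D c v * cM D c v) =
      ∑ a, ∑ b, ind (a + y ∈ Gm D c) * ind (b + y ∈ Gm D c) *
        ind (C D v a ∧ C D v b) := by
    intro v
    rw [← X.r1 hy, Finset.sum_mul_sum]
    refine Finset.sum_congr rfl fun a _ => Finset.sum_congr rfl fun b _ => ?_
    simp only [ind_and]; ring
  rw [Finset.sum_congr rfl fun r _ => e1 r, Finset.sum_congr rfl fun r _ => e2 r,
    Finset.sum_comm, Finset.sum_comm (f := fun v a => ∑ b, ind (a + y ∈ Gm D c) *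
      ind (b + y ∈ Gm D c) * ind (C D v a ∧ C D v b))]
  refine Finset.sum_congr rfl fun a _ => ?_
  rw [Finset.sum_comm, Finset.sum_comm (f := fun v b => ind (a + y ∈ Gm D c) *
      ind (b + y ∈ Gm D c) * ind (C D v a ∧ C D v b))]
  refine Finset.sum_congr rfl fun b _ => ?_
  rw [← Finset.mul_sum, ← Finset.mul_sum]
  by_cases ha : a + y ∈ Gm D c
  · by_cases hb : b + y ∈ Gm D c
    · rw [X.lk (TG.a2 hy ha) (TG.a2 hy hb)]
    · rw [ind_false hb, mul_zero, zero_mul, zero_mul]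
  · rw [ind_false ha, zero_mul, zero_mul, zero_mul]

end LF

/-- `|Stab ∩ V_r| ^ 2` as a sum over pairs -/
theorem cM_sq [Fintype V] (c : Q) (P : V → Prop) :
    ∑ r, ind (P r) * (cM D c r * cM D c r) =
      ∑ g, ∑ g', ind (g ∈ Gm D c) * ind (g' ∈ Gm D c) * ∑ r, ind (P r ∧ C D g r ∧ C D g' r) := by
  have e1 : ∀ r, ind (P r) * (cM D c r * cM D c r) =
      ∑ g, ∑ g', ind (g ∈ Gm D c) * ind (g' ∈ Gm D c) * ind (P r ∧ C D g r ∧ C D g' r) := by
    intro r
    unfold cM
    rw [Finset.sum_mul_sum, Finset.mul_sum]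
    refine Finset.sum_congr rfl fun a _ => ?_
    rw [Finset.mul_sum]
    refine Finset.sum_congr rfl fun b _ => ?_
    simp only [ind_and]
    rw [ind_congr (show C D r a ↔ C D a r from ⟨C.symm, C.symm⟩),
      ind_congr (show C D r b ↔ C D b r from ⟨C.symm, C.symm⟩)]
    ring
  rw [Finset.sum_congr rfl fun r _ => e1 r, Finset.sum_comm]
  refine Finset.sum_congr rfl fun g _ => ?_
  rw [Finset.sum_comm]
  refine Finset.sum_congr rfl fun g' _ => ?_
  rw [Finset.mul_sum]

namespace LF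

variable {c : Q} (X : LF D c)

include X

/-- `V_g ∩ V_g'` meets `N_y + Stab` for all `g, g' ∈ Stab` -/
theorem meet [Fintype V] {y g g' : V} (hy : Sg D c y) (hg : g ∈ Gm D c) (hg' : g' ∈ Gm D c) :
    ∃ r, YY D c y r ∧ C D g r ∧ C D g' r := by
  have e := X.dd hy
  rw [cM_sq, cM_sq c (fun v => v ∈ Gs D c y)] at e
  have hle : ∀ g g', ind (g ∈ Gm D c) * ind (g' ∈ Gm D c) *
      ∑ r, ind (YY D c y r ∧ C D g r ∧ C D g' r) ≤ ind (g ∈ Gm D c) * ind (g' ∈ Gm D c) *
      ∑ r, ind (r ∈ Gs D c y ∧ C D g r ∧ C D g' r) := by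
    intro g g'
    refine mul_le_mul_of_nonneg_left (sum_ind_le fun w0 hw0 v => ?_)
      (mul_nonneg (ind_nonneg _) (ind_nonneg _))
    rw [X.yy_shift hw0.1, C_shift hw0.2.1, C_shift hw0.2.2]
  have e3 := (Finset.sum_eq_sum_iff_of_le fun a _ => Finset.sum_le_sum fun b _ => hle a b).1 e g
    (Finset.mem_univ _)
  have e4 := (Finset.sum_eq_sum_iff_of_le fun b _ => hle g b).1 e3 g' (Finset.mem_univ _)
  rw [ind_true hg, ind_true hg', one_mul, one_mul, one_mul] at e4
  have e5 : 0 < ∑ r, ind (r ∈ Gs D c y ∧ C D g r ∧ C D g' r) :=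
    sum_ind_pos (v := (0 : V)) ⟨Submodule.zero_mem _, C.zero g, C.zero g'⟩
  rw [← e4] at e5
  exact exists_of_sum_pos e5

end LF

end Pool.Agent.ETPN
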