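import Pool.Agent.ETPN.N3

/-!
**ETC-38N** (note 2686, helper38; note 2702, helper60, for the parity of the set of slots): one
symbol `c ≠ 0` with LAW F and a hub refutes a structure with `K4At`, in every world.
-/

set_option autoImplicit false
set_option linter.unusedSimpArgs false
set_option linter.unnecessarySeqFocus false
set_option linter.unusedSectionVars false

namespace Pool.Agent.ETPN

open Pool.Agent.Helper58.PLine (QData)
open Pool.Agent.ETCP
open Pool.Agent.ETPF
open Pool.Agent.ETPG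
open ETC (ind ind_true ind_false ind_and ind_congr ind_nonneg ind_le sum_ind_shift sg zm)

variable {V Q : Type} [AddCommGroup V] [Module (ZMod 2) V] {D : QData V Q}

/-- `a` is a hub of `c` -/
def Hub (D : QData V Q) (c : Q) (a : V) : Prop :=
  Sg D c a ∧ ∀ s, Sg D c s → s ∈ Gs D c a ∨ YY D c a s

theorem sq_swap [Fintype V] (A : V → V → ℤ) :
    ∑ v, (∑ s, A v s) * (∑ s, A v s) = ∑ s, ∑ t, ∑ v, A v s * A v t := by
  calc ∑ v, (∑ s, A v s) * (∑ s, A v s) = ∑ v, ∑ s, ∑ t, A v s * A v t :=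
        Finset.sum_congr rfl fun v _ => Finset.sum_mul_sum _ _ _ _
    _ = ∑ s, ∑ v, ∑ t, A v s * A v t := Finset.sum_comm
    _ = _ := Finset.sum_congr rfl fun s _ => Finset.sum_comm

/-- counting `Γ ∩ (k + V_w)` over `k ∈ G` -/
theorem cA_mul [Fintype V] {Γ G : Submodule (ZMod 2) V} (h : Γ ≤ G) (w : V) :
    (∑ g, ind (g ∈ Γ)) * cA D G w = ∑ k, ind (k ∈ G) * ∑ g, ind (g ∈ Γ ∧ C D w (k + g)) := by
  unfold cA
  rw [Finset.sum_mul_sum]
  calc ∑ g, ∑ h, ind (g ∈ Γ) * ind (h ∈ G ∧ C D w h)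
      = ∑ g, ∑ k, ind (g ∈ Γ) * ind (k + g ∈ G ∧ C D w (k + g)) := by
        refine Finset.sum_congr rfl fun g _ => ?_
        exact (Equiv.sum_comp (Equiv.addRight g) (fun h => ind (g ∈ Γ) *
          ind (h ∈ G ∧ C D w h))).symm
    _ = _ := by
        rw [Finset.sum_comm]
        refine Finset.sum_congr rfl fun k _ => ?_
        rw [Finset.mul_sum]
        refine Finset.sum_congr rfl fun g _ => ?_
        by_cases hg : g ∈ Γ
        · simp only [ind_and]
          rw [ind_congr (mem_shift' (h hg) : k + g ∈ G ↔ k ∈ G)]; ring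
        · have h2 : ind (g ∈ Γ ∧ C D w (k + g)) = 0 := ind_false fun hh => hg hh.1
          rw [ind_false hg, h2, zero_mul, mul_zero]

theorem cA_le [Fintype V] {Γ G : Submodule (ZMod 2) V} (h : Γ ≤ G) (w : V) :
    (∑ g, ind (g ∈ Γ)) * cA D G w ≤ (∑ k, ind (k ∈ G)) * cA D Γ w := by
  rw [cA_mul h, Finset.sum_mul]
  refine Finset.sum_le_sum fun k _ => mul_le_mul_of_nonneg_left
    (sum_ind_le fun g hg v => ?_) (ind_nonneg _)
  rw [mem_shift' hg.1]
  refine and_congr_right fun _ => ?_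
  rw [show k + (v + g) = v + (k + g) from by abel, C_shift hg.2]

theorem cA_eq [Fintype V] {Γ G : Submodule (ZMod 2) V} (h : Γ ≤ G) {w : V}
    (hw : ∀ k ∈ G, ∃ g ∈ Γ, C D w (k + g)) :
    (∑ g, ind (g ∈ Γ)) * cA D G w = (∑ k, ind (k ∈ G)) * cA D Γ w := by
  rw [cA_mul h, Finset.sum_mul]
  refine Finset.sum_congr rfl fun k _ => ?_
  by_cases hk : k ∈ G
  · obtain ⟨g, h1, h2⟩ := hw k hk
    congr 1
    refine sum_ind_shift _ _ g fun v => ?_
    rw [mem_shift' h1]
    refine and_congr_right fun _ => ?_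
    rw [show k + (v + g) = v + (k + g) from by abel, C_shift h2]
  · rw [ind_false hk, zero_mul, zero_mul]

namespace LF

variable {c : Q} (X : LF D c)

include X

/-- (note 2702, helper60) `s ↦ s + a` maps the slots outside `a + Stab` to slots -/
theorem shift [Finite V] {a s : V} (hub : Hub D c a) (hs : Sg D c s) (h : s + a ∉ Gm D c) :
    Sg D c (s + a) := by
  have := Fintype.ofFinite V
  rcases hub.2 s hs with h1 | h1
  · by_cases h2 : ∃ r, D.q s r = c ∧ r ∈ Gs D c a
    · obtain ⟨r, h3, h4⟩ := h2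
      obtain ⟨w, h5, h6⟩ := X.star hub.1 h4
      have h7 : Sg D c (s + w) := (sg_add hs).2 ⟨r, h6, h3⟩
      have h8 := h5 _ h7
      rwa [show s + w + (w + a) = s + a from eo (by
        abel_nf <;> simp only [ch2, ch3, ch4, add_zero, zero_add])] at h8
    · push Not at h2
      exfalso
      apply h
      intro t ht
      obtain ⟨r, h3, h4⟩ := ht.common hs
      have h5 : YY D c a r := (hub.2 r (Sg.right h3)).resolve_left (h2 r h4)
      obtain ⟨g, h6, h7⟩ := h5
      have h8 : C D (t + s) r := q_eq'_iff.1 (h3.trans h4.symm)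
      have h9 : Sg D c (a + g + (t + s)) := (sg_add ⟨r, h7⟩).2 ⟨r, h8, h7⟩
      have h10 := h6 _ h9
      rwa [show a + g + (t + s) + g = t + (s + a) from eo (by
        abel_nf <;> simp only [ch2, ch3, ch4, add_zero, zero_add])] at h10
  · obtain ⟨g, h2, h3⟩ := h1
    have h4 : Sg D c (s + (a + g)) := (sg_add hs).2 ⟨a + g, C.self X.he _, by
      rw [D.symm]; exact h3⟩
    have h5 := h2 _ h4
    rwa [show s + (a + g) + g = s + a from eo (by
      abel_nf <;> simp only [ch2, ch3, ch4, add_zero, zero_add])] at h5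

theorem slot_not_gm {s : V} (hs : Sg D c s) : s ∉ Gm D c := by
  intro h
  have h1 := h s hs
  rw [ZModModule.add_self] at h1
  obtain ⟨r, hr⟩ := h1
  exact X.cne (hr.symm.trans (C.zero' r))

/-- the signed number of slots is not zero, if `χ a = 1` -/
theorem sum_ne [Fintype V] {a : V} (hub : Hub D c a) (χ : Module.Dual (ZMod 2) V)
    (hΓ : ∀ g ∈ Gm D c, χ g = 0) (ha : χ a = 1) :
    ∑ s, ind (Sg D c s) * sg (χ s) ≠ 0 := by
  have e1 : ∀ s, ind (Sg D c s) * sg (χ s) =
      ind (Sg D c s ∧ s + a ∉ Gm D c) * sg (χ s) - ind (s + a ∈ Gm D c) := by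
    intro s
    by_cases h : s + a ∈ Gm D c
    · have h1 : Sg D c s := TG.a2 hub.1 h
      have h2 : χ s = 1 := by
        have := hΓ _ h
        rw [map_add, ha] at this
        rcases zm (χ s) with h3 | h3
        · rw [h3, zero_add] at this; exact absurd this one_ne_zero
        · exact h3
      have h3 : ind (Sg D c s ∧ s + a ∉ Gm D c) = 0 := ind_false fun hh => hh.2 h
      rw [ind_true h1, ind_true h, h3, h2, ETC.sg_one]; ring
    · have h3 : ind (Sg D c s ∧ s + a ∉ Gm D c) = ind (Sg D c s) :=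
        ind_congr ⟨fun hh => hh.1, fun hh => ⟨hh, h⟩⟩
      rw [h3, ind_false h]; ring
  have e2 : ∑ s, ind (Sg D c s ∧ s + a ∉ Gm D c) * sg (χ s) = 0 := by
    have h1 : ∑ s, ind (Sg D c s ∧ s + a ∉ Gm D c) * sg (χ s) =
        ∑ s, ind (Sg D c (s + a) ∧ s + a + a ∉ Gm D c) * sg (χ (s + a)) :=
      (Equiv.sum_comp (Equiv.addRight a) (fun s => ind (Sg D c s ∧ s + a ∉ Gm D c) *
        sg (χ s))).symm
    have h2 : ∑ s, ind (Sg D c (s + a) ∧ s + a + a ∉ Gm D c) * sg (χ (s + a)) =
        - ∑ s, ind (Sg D c s ∧ s + a ∉ Gm D c) * sg (χ s) := by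
      rw [← Finset.sum_neg_distrib]
      refine Finset.sum_congr rfl fun s _ => ?_
      have h3 : (Sg D c (s + a) ∧ s + a + a ∉ Gm D c) ↔ (Sg D c s ∧ s + a ∉ Gm D c) := by
        constructor
        · rintro ⟨h4, h5⟩
          have h6 := X.shift hub h4 h5
          rw [show s + a + a = s from eo (by
            abel_nf <;> simp only [ch2, ch3, ch4, add_zero, zero_add])] at h6
          exact ⟨h6, X.slot_not_gm h4⟩
        · rintro ⟨h4, h5⟩
          refine ⟨X.shift hub h4 h5, ?_⟩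
          rw [show s + a + a = s from eo (by
            abel_nf <;> simp only [ch2, ch3, ch4, add_zero, zero_add])]
          exact X.slot_not_gm h4
      rw [ind_congr h3, map_add, ETC.sg_add, ha, ETC.sg_one]; ring
    omega
  rw [Finset.sum_congr rfl fun s _ => e1 s, Finset.sum_sub_distrib, e2]
  have h1 : 0 < ∑ s, ind (s + a ∈ Gm D c) :=
    sum_ind_pos (v := a) (by rw [ZModModule.add_self]; exact Submodule.zero_mem _)
  omega

/-- **(4)** some `V_y`, `y` a slot, is killed by `χ` -/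
theorem om [Finite V] {a : V} (hub : Hub D c a) (χ : Module.Dual (ZMod 2) V)
    (hΓ : ∀ g ∈ Gm D c, χ g = 0) (ha : χ a = 1) : ∃ y, Sg D c y ∧ ∀ v, C D y v → χ v = 0 := by
  have := Fintype.ofFinite V
  by_contra hcon
  push Not at hcon
  apply X.sum_ne hub χ hΓ ha
  -- `T (-1)^χ = 0`
  have e1 : ∀ r, ∑ s, ind (D.q r s = c) * sg (χ s) = 0 := by
    intro r
    by_cases hr : Sg D c r
    · obtain ⟨v, h1, h2⟩ := hcon r hr
      have h2' := (zm (χ v)).resolve_left h2
      have h3 : ∑ s, ind (D.q r s = c) * sg (χ s) =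
          ∑ s, ind (D.q r (s + v) = c) * sg (χ (s + v)) :=
        (Equiv.sum_comp (Equiv.addRight v) (fun s => ind (D.q r s = c) * sg (χ s))).symm
      have h4 : ∑ s, ind (D.q r (s + v) = c) * sg (χ (s + v)) =
          - ∑ s, ind (D.q r s = c) * sg (χ s) := by
        rw [← Finset.sum_neg_distrib]
        refine Finset.sum_congr rfl fun s _ => ?_
        have h5 : D.q r (s + v) = D.q r s := q_eq (h1.of_eq rfl (eo (by
          abel_nf <;> simp only [ch2, ch3, ch4, add_zero, zero_add])))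
        rw [h5, map_add, ETC.sg_add, h2', ETC.sg_one]; ring
      omega
    · refine Finset.sum_eq_zero fun s _ => ?_
      rw [ind_false fun h => hr ⟨s, h⟩, zero_mul]
  have e2 : ∑ v, (∑ s, ind (Sg D c s) * ind (C D v s) * sg (χ s)) *
      (∑ s, ind (Sg D c s) * ind (C D v s) * sg (χ s)) = 0 := by
    have h1 : ∑ v, (∑ s, ind (Sg D c s) * ind (C D v s) * sg (χ s)) *
        (∑ s, ind (Sg D c s) * ind (C D v s) * sg (χ s)) =
        ∑ s, ∑ t, ind (Sg D c s) * ind (Sg D c t) * sg (χ s) * sg (χ t) *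
          ∑ v, ind (C D v s ∧ C D v t) := by
      rw [sq_swap]
      refine Finset.sum_congr rfl fun s _ => Finset.sum_congr rfl fun t _ => ?_
      rw [Finset.mul_sum]
      refine Finset.sum_congr rfl fun v _ => ?_
      rw [ind_and]; ring
    have h2 : ∑ r, (∑ s, ind (D.q r s = c) * sg (χ s)) * (∑ s, ind (D.q r s = c) * sg (χ s)) =
        ∑ s, ∑ t, ind (Sg D c s) * ind (Sg D c t) * sg (χ s) * sg (χ t) *
          ∑ r, ind (D.q r s = c ∧ D.q r t = c) := by
      rw [sq_swap]
      refine Finset.sum_congr rfl fun s _ => Finset.sum_congr rfl fun t _ => ?_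
      rw [Finset.mul_sum]
      refine Finset.sum_congr rfl fun r _ => ?_
      rw [ind_and]
      by_cases h3 : D.q r s = c
      · by_cases h4 : D.q r t = c
        · rw [ind_true (Sg.right h3), ind_true (Sg.right h4)]; ring
        · rw [ind_false h4]; ring
      · rw [ind_false h3]; ring
    rw [h1]
    have h3 : ∑ r, (∑ s, ind (D.q r s = c) * sg (χ s)) * (∑ s, ind (D.q r s = c) * sg (χ s)) = 0 :=
      Finset.sum_eq_zero fun r _ => by rw [e1, zero_mul]
    rw [← h3, h2]
    refine Finset.sum_congr rfl fun s _ => Finset.sum_congr rfl fun t _ => ?_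
    by_cases hs : Sg D c s
    · by_cases ht : Sg D c t
      · rw [X.lk hs ht]
      · rw [ind_false ht]; ring
    · rw [ind_false hs]; ring
  have e3 := (Finset.sum_eq_zero_iff_of_nonneg fun v _ => mul_self_nonneg _).1 e2 0
    (Finset.mem_univ _)
  have e4 := mul_self_eq_zero.1 e3
  rw [← e4]
  refine Finset.sum_congr rfl fun s _ => ?_
  rw [ind_true (C.zero' s : C D 0 s), mul_one]

/-- **(5)** -/
theorem joint [Finite V] {a g g' : V} (hub : Hub D c a) (hg : g ∈ Gm D c)
    (hg' : g' ∈ Gm D c) : ∃ γ ∈ Gm D c, C D g (a + γ) ∧ C D g' (a + γ) := by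
  have := Fintype.ofFinite V
  let W : Submodule (ZMod 2) V := mkS (fun v => ∃ γ ∈ Gm D c, C D g (v + γ) ∧ C D g' (v + γ))
    ⟨0, Submodule.zero_mem _, by rw [add_zero]; exact C.zero g, by rw [add_zero]; exact C.zero g'⟩
    fun a b => by
      rintro ⟨γ, h1, h2, h3⟩ ⟨γ', h4, h5, h6⟩
      refine ⟨γ + γ', Submodule.add_mem _ h1 h4, ?_, ?_⟩
      · have := h2.add h5
        rwa [show a + γ + (b + γ') = a + b + (γ + γ') from by abel] at this
      · have := h3.add h6
        rwa [show a + γ + (b + γ') = a + b + (γ + γ') from by abel] at this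
  by_contra hcon
  have haW : a ∉ W := hcon
  obtain ⟨χ, h1, h2⟩ := ETC.exists_dual_sep haW
  have hΓ : ∀ g ∈ Gm D c, χ g = 0 := fun γ hγ => h2 γ ⟨γ, hγ, by
    rw [ZModModule.add_self]; exact ⟨C.zero g, C.zero g'⟩⟩
  obtain ⟨y, sy, hy⟩ := X.om hub χ hΓ h1
  have hG : ∀ v ∈ Gs D c y, χ v = 0 := by
    rintro v ⟨γ, h3, h4⟩
    have := hy _ h4
    rwa [map_add, hΓ γ h3, add_zero] at this
  rcases hub.2 y sy with h3 | h3
  · have := hG a (X.gs_symm hub.1 h3)
    rw [h1] at this
    exact one_ne_zero this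
  · have h4 := X.yy_symm h3
    obtain ⟨r, h5, h6, h7⟩ := X.meet sy hg hg'
    have h8 : χ r = 0 := h2 r ⟨0, Submodule.zero_mem _, by
      rw [add_zero]; exact ⟨h6, h7⟩⟩
    have h9 := hG _ ((X.yy_coset h4).1 h5)
    rw [map_add, h8, h1, zero_add] at h9
    exact one_ne_zero h9

theorem m1' [Fintype V] {a : V} (hub : Hub D c a) :
    ∑ w, ind (w + a ∈ Gm D c) * cM D c w = ∑ g, ind (g ∈ Gm D c) * cM D c g := by
  have e : ∀ P : V → Prop, ∑ w, ind (P w) * cM D c w =
      ∑ g, ind (g ∈ Gm D c) * ∑ w, ind (P w ∧ C D g w) := by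
    intro P
    rw [show (∑ w, ind (P w) * cM D c w) = ∑ w, ind (P w) * cA D (Gm D c) w from rfl, cA_swap]
    refine Finset.sum_congr rfl fun g _ => ?_
    congr 1
    refine Finset.sum_congr rfl fun w _ => ?_
    rw [ind_congr (show (P w ∧ C D w g) ↔ (P w ∧ C D g w) from
      and_congr_right fun _ => ⟨C.symm, C.symm⟩)]
  rw [e, e (fun g => g ∈ Gm D c)]
  refine Finset.sum_congr rfl fun g _ => ?_
  by_cases hg : g ∈ Gm D c
  · congr 1
    obtain ⟨γ, h1, h2, -⟩ := X.joint hub hg (Submodule.zero_mem _)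
    refine sum_ind_shift _ _ (a + γ) fun v => ?_
    rw [mem_shift (x := a) (by
      rwa [show a + γ + a = γ from eo (by
        abel_nf <;> simp only [ch2, ch3, ch4, add_zero, zero_add])]), C_shift h2]
  · rw [ind_false hg, zero_mul, zero_mul]

theorem m2' [Fintype V] {a : V} (hub : Hub D c a) :
    ∑ w, ind (w + a ∈ Gm D c) * (cM D c w * cM D c w) =
      ∑ g, ind (g ∈ Gm D c) * (cM D c g * cM D c g) := by
  rw [cM_sq, cM_sq c (fun g => g ∈ Gm D c)]
  refine Finset.sum_congr rfl fun g _ => Finset.sum_congr rfl fun g' _ => ?_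
  by_cases hg : g ∈ Gm D c
  · by_cases hg' : g' ∈ Gm D c
    · congr 1
      obtain ⟨γ, h1, h2, h3⟩ := X.joint hub hg hg'
      refine sum_ind_shift _ _ (a + γ) fun v => ?_
      rw [mem_shift (x := a) (by
        rwa [show a + γ + a = γ from eo (by
          abel_nf <;> simp only [ch2, ch3, ch4, add_zero, zero_add])]), C_shift h2, C_shift h3]
    · rw [ind_false hg', mul_zero, zero_mul, zero_mul]
  · rw [ind_false hg, zero_mul, zero_mul, zero_mul]

/-- **(6)**: some `a0 ∈ a + Stab` has `V_{a0} = V_a + Stab` -/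
theorem base [Finite V] {a : V} (hub : Hub D c a) :
    ∃ a0, a0 + a ∈ Gm D c ∧ ∀ h ∈ Gs D c a, C D a0 h := by
  have hle : Gm D c ≤ Gs D c a := fun g hg => Gm_le_Gs hg
  have hNG : ∀ [Fintype V], 0 < ∑ g, ind (g ∈ Gm D c) := fun {_} =>
    sum_ind_pos (v := (0 : V)) (Submodule.zero_mem _)
  -- the elements of `a + Stab`
  have q1 : ∀ [Fintype V] (w : V), ind (w + a ∈ Gm D c) * ((∑ g, ind (g ∈ Gm D c)) *
      cA D (Gs D c a) w) = ind (w + a ∈ Gm D c) * ((∑ k, ind (k ∈ Gs D c a)) * cM D c w) := by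
    intro _ w
    by_cases hw : w + a ∈ Gm D c
    · congr 1
      refine cA_eq hle fun k hk => ?_
      have h1 : a + w ∈ Gm D c := by rwa [add_comm]
      exact X.gs_sub (TG.a2 hub.1 hw) h1 hk
    · rw [ind_false hw, zero_mul, zero_mul]
  have q2 : ∀ [Fintype V], ∑ g, ind (g ∈ Gm D c) * ((∑ g, ind (g ∈ Gm D c)) *
      cA D (Gs D c a) g) = ∑ g, ind (g ∈ Gm D c) * ((∑ k, ind (k ∈ Gs D c a)) * cM D c g) := by
    intro _
    have h1 := X.e0 hub.1
    have h2 := X.m1' hub
    have h3 := Finset.sum_congr (rfl : (Finset.univ : Finset V) = Finset.univ) fun w _ => q1 w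
    simp only [mul_left_comm (ind _) (∑ g, ind (g ∈ Gm D c)) _,
      mul_left_comm (ind _) (∑ k, ind (k ∈ Gs D c a)) _, ← Finset.mul_sum] at h3 ⊢
    rw [← h1, h3, h2]
  have q3 : ∀ [Fintype V] (g : V), ind (g ∈ Gm D c) * ((∑ g, ind (g ∈ Gm D c)) *
      cA D (Gs D c a) g) = ind (g ∈ Gm D c) * ((∑ k, ind (k ∈ Gs D c a)) * cM D c g) := by
    intro _ g
    exact (Finset.sum_eq_sum_iff_of_le fun g _ =>
      mul_le_mul_of_nonneg_left (cA_le hle g) (ind_nonneg _)).1 q2 g (Finset.mem_univ _)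
  refine base_of_moments (fun s hs k hk => X.ann_sub hub.1 hs hk) ?_ ?_
  · intro _
    exact X.e0 hub.1
  · intro _
    have h2 := X.m2' hub
    have key : ∀ (w : V) (p A M N N' : ℤ), p * (N * A) = p * (N' * M) → p * p = p →
        N * N * (p * (A * A)) = N' * N' * (p * (M * M)) := by
      intro _ p A M N N' h hp
      calc N * N * (p * (A * A)) = (p * p) * ((N * A) * (N * A)) := by rw [hp]; ring
        _ = (p * (N * A)) * (p * (N * A)) := by ring
        _ = (p * (N' * M)) * (p * (N' * M)) := by rw [h]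
        _ = (p * p) * ((N' * M) * (N' * M)) := by ring
        _ = _ := by rw [hp]; ring
    have hpp : ∀ P : Prop, ind P * ind P = ind P := by
      intro P
      by_cases h : P
      · rw [ind_true h, one_mul]
      · rw [ind_false h, zero_mul]
    have h3 := Finset.sum_congr (rfl : (Finset.univ : Finset V) = Finset.univ) fun w _ =>
      key w _ _ _ _ _ (q1 w) (hpp _)
    have h4 := Finset.sum_congr (rfl : (Finset.univ : Finset V) = Finset.univ) fun w _ =>
      key w _ _ _ _ _ (q3 w) (hpp _)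
    rw [← Finset.mul_sum, ← Finset.mul_sum] at h3 h4
    rw [h2, ← h4] at h3
    exact mul_left_cancel₀ (mul_pos hNG hNG).ne' h3

/-- a hub gives a slot `a0` with `q (a0, n) ∈ {0, c}` for all slots `n` of `c` -/
theorem exists_pair [Finite V] {a : V} (hub : Hub D c a) :
    ∃ a0, Sg D c a0 ∧ ∀ n, Sg D c n → C D a0 n ∨ D.q a0 n = c := by
  obtain ⟨a0, h1, h2⟩ := X.base hub
  have s0 : Sg D c a0 := TG.a2 hub.1 h1
  refine ⟨a0, s0, fun n hn => ?_⟩
  rcases hub.2 n hn with h3 | h3
  · exact Or.inl (h2 n h3)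
  · right
    obtain ⟨r, hr⟩ := s0
    have h4 : YY D c a r := YY.of' h1 hr
    have h5 := h2 _ ((X.yy_coset h4).1 h3)
    rw [← hr]
    exact q_eq_iff.2 h5

end LF

/-- a slot `a0` with `q (a0, n) ∈ {0, c}` for all slots `n` of `c` contradicts `K4At` -/
theorem false_of_pair {c : Q} (cne : c ≠ D.z) {a0 : V} (h0 : Sg D c a0) (k4 : ETCD2.K4At D a0)
    (h : ∀ n, Sg D c n → C D a0 n ∨ D.q a0 n = c) : False := by
  obtain ⟨u, hu⟩ := h0
  have hu' : ¬ C D a0 u := fun hh => cne (hu.symm.trans hh)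
  obtain ⟨w, s, h1, h2, h3, h4⟩ := k4 u hu'
  have hw : D.q a0 w = c := by rw [← hu]; exact (q_eq h1).symm
  have sw : Sg D c w := Sg.right hw
  obtain ⟨r, hr⟩ := sw
  have hr2 : D.q w (r + s) = c := qa hr h2
  rcases h r (Sg.right hr) with h5 | h5
  · rcases h (r + s) (Sg.right hr2) with h6 | h6
    · apply h3
      have := h5.add h6
      rwa [show r + (r + s) = s from eo (by
        abel_nf <;> simp only [ch2, ch3, ch4, add_zero, zero_add])] at this
    · apply h4
      have h7 : C D a0 (r + s + u) := q_eq_iff.1 (h6.trans hu.symm)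
      have := h5.add h7
      rwa [show r + (r + s + u) = s + u from eo (by
        abel_nf <;> simp only [ch2, ch3, ch4, add_zero, zero_add])] at this
  · rcases h (r + s) (Sg.right hr2) with h6 | h6
    · apply h4
      have h7 : C D a0 (r + u) := q_eq_iff.1 (h5.trans hu.symm)
      have := h6.add h7
      rwa [show r + s + (r + u) = s + u from eo (by
        abel_nf <;> simp only [ch2, ch3, ch4, add_zero, zero_add])] at this
    · apply h3
      have h7 : C D a0 (r + (r + s)) := q_eq_iff.1 (h5.trans h6.symm)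
      rwa [show r + (r + s) = s from eo (by
        abel_nf <;> simp only [ch2, ch3, ch4, add_zero, zero_add])] at h7

/-- **ETC-38N**: LAW F and a hub at one symbol `c ≠ 0` refute a structure with `K4At`. -/
theorem false_of_FH [Finite V] (he : D.e = 0) {c : Q} (cne : c ≠ D.z)
    (k4 : ∀ z, z ≠ 0 → ETCD2.K4At D z)
    (lf : ∀ x t, Sg D c x → Fm D c x t → ∃ g ∈ Gm D c, D.q (x + g) t = c)
    {a : V} (hub : Hub D c a) : False := by
  have X : LF D c := ⟨he, cne, lf⟩
  obtain ⟨a0, h1, h2⟩ := X.exists_pair hub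
  refine false_of_pair cne h1 (k4 a0 ?_) h2
  rintro rfl
  obtain ⟨r, hr⟩ := h1
  exact cne (hr.symm.trans (C.zero' r))

end Pool.Agent.ETPN
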