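import Mathlib

/-!
**Real rank parity** (notes 2768 of helper53 and 2771 of helper51).

Three finite sets `I₁, I₂, I₃` and three real matrices `A : I₁ × I₂`, `B : I₂ × I₃`, `C : I₁ × I₃`
such that the product of two of them (through the third set) is the all-ones matrix, the two row
sums at a point agree, and for each of the three sets the sum of the two squares is positive
definite.  Then the row sums are constants `u₁, u₂, u₃`, `|I₁| = u₂ u₃` etc. and
`|I₁| + |I₂| + |I₃|` is odd.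
-/

set_option autoImplicit false
set_option linter.unusedSectionVars false
set_option linter.unusedVariables false

namespace Pool.Agent.ETPN.RankParity

open Matrix Finset

/-- all-ones matrix -/
def J (m n : Type) : Matrix m n ℝ := fun _ _ => 1

section rank

variable {n : Type} [Fintype n] [DecidableEq n]

/-- the sum functional -/
def sm (n : Type) [Fintype n] : (n → ℝ) →ₗ[ℝ] ℝ where
  toFun x := ∑ i, x i
  map_add' x y := by simp [Finset.sum_add_distrib]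
  map_smul' r x := by simp [Finset.mul_sum]

theorem sm_apply (x : n → ℝ) : sm n x = ∑ i, x i := rfl

theorem finrank_ker_sm [Nonempty n] :
    Module.finrank ℝ (LinearMap.ker (sm n)) + 1 = Fintype.card n := by
  have h := LinearMap.finrank_range_add_finrank_ker (sm n)
  have hr : LinearMap.range (sm n) = ⊤ := by
    rw [LinearMap.range_eq_top]
    intro r
    obtain ⟨i⟩ := ‹Nonempty n›
    refine ⟨Pi.single i r, ?_⟩
    rw [sm_apply]; simp
  rw [hr, finrank_top, Module.finrank_self, Module.finrank_fintype_fun_eq_card] at h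
  omega

/-- a symmetric matrix with constant row sums multiplies the coordinate sum -/
theorem sm_mulVec {P : Matrix n n ℝ} {p : ℝ} (hP : Pᵀ = P) (h1 : ∀ i, ∑ j, P i j = p)
    (x : n → ℝ) : sm n (P *ᵥ x) = p * sm n x := by
  rw [sm_apply, sm_apply]
  simp only [mulVec, dotProduct]
  rw [Finset.sum_comm, Finset.mul_sum]
  refine Finset.sum_congr rfl fun j _ => ?_
  rw [← Finset.sum_mul]
  congr 1
  rw [← h1 j]
  refine Finset.sum_congr rfl fun i _ => ?_
  exact (congrFun (congrFun hP i) j).symm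

theorem rank_add [Nonempty n] {P Q : Matrix n n ℝ} {p q k : ℝ} (hP : Pᵀ = P) (hQ : Qᵀ = Q)
    (hp : p ≠ 0) (hq : q ≠ 0) (h1 : ∀ i, ∑ j, P i j = p) (h2 : ∀ i, ∑ j, Q i j = q)
    (hPQ : ∀ i j, (P * Q) i j = k) (hinj : ∀ x, (P + Q) *ᵥ x = 0 → x = 0) :
    P.rank + Q.rank = Fintype.card n + 1 := by
  set E := LinearMap.ker (sm n) with hE
  set KP := LinearMap.ker P.mulVecLin with hKP
  set KQ := LinearMap.ker Q.mulVecLin with hKQ
  have eE := finrank_ker_sm (n := n)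
  rw [← hE] at eE
  have rP := LinearMap.finrank_range_add_finrank_ker P.mulVecLin
  have rQ := LinearMap.finrank_range_add_finrank_ker Q.mulVecLin
  rw [Module.finrank_fintype_fun_eq_card, ← hKP] at rP
  rw [Module.finrank_fintype_fun_eq_card, ← hKQ] at rQ
  have rP' : P.rank + Module.finrank ℝ KP = Fintype.card n := rP
  have rQ' : Q.rank + Module.finrank ℝ KQ = Fintype.card n := rQ
  have kPE : KP ≤ E := by
    intro x hx
    have hx' : P *ᵥ x = 0 := hx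
    have := sm_mulVec hP h1 x
    rw [hx', map_zero] at this
    rw [hE, LinearMap.mem_ker]
    rcases mul_eq_zero.1 this.symm with h | h
    · exact absurd h hp
    · exact h
  have kQE : KQ ≤ E := by
    intro x hx
    have hx' : Q *ᵥ x = 0 := hx
    have := sm_mulVec hQ h2 x
    rw [hx', map_zero] at this
    rw [hE, LinearMap.mem_ker]
    rcases mul_eq_zero.1 this.symm with h | h
    · exact absurd h hq
    · exact h
  have dis : KP ⊓ KQ = ⊥ := by
    rw [eq_bot_iff]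
    rintro x ⟨hx, hy⟩
    have hx' : P *ᵥ x = 0 := hx
    have hy' : Q *ᵥ x = 0 := hy
    rw [Submodule.mem_bot]
    refine hinj x ?_
    rw [Matrix.add_mulVec, hx', hy', add_zero]
  have le1 : Module.finrank ℝ KP + Module.finrank ℝ KQ ≤ Module.finrank ℝ E := by
    have h := Submodule.finrank_sup_add_finrank_inf_eq KP KQ
    rw [dis, finrank_bot, add_zero] at h
    rw [← h]
    exact Submodule.finrank_mono (sup_le kPE kQE)
  have le2 : Module.finrank ℝ E ≤ Module.finrank ℝ KP + Module.finrank ℝ KQ := by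
    have h := LinearMap.finrank_range_add_finrank_ker (Q.mulVecLin.domRestrict E)
    have hr : LinearMap.range (Q.mulVecLin.domRestrict E) ≤ KP := by
      rintro y ⟨⟨x, hx⟩, rfl⟩
      have hs : sm n x = 0 := hx
      rw [sm_apply] at hs
      show P *ᵥ (Q *ᵥ x) = 0
      rw [Matrix.mulVec_mulVec]
      funext i
      simp only [mulVec, dotProduct, Pi.zero_apply]
      rw [Finset.sum_congr rfl fun j _ => by rw [hPQ i j], ← Finset.mul_sum, hs, mul_zero]
    have hk : Module.finrank ℝ (LinearMap.ker (Q.mulVecLin.domRestrict E)) ≤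
        Module.finrank ℝ KQ := by
      have e1 : (LinearMap.ker (Q.mulVecLin.domRestrict E)).map E.subtype ≤ KQ := by
        rintro y ⟨x, hx, rfl⟩
        exact hx
      rw [(Submodule.equivMapOfInjective E.subtype E.injective_subtype
        (LinearMap.ker (Q.mulVecLin.domRestrict E))).finrank_eq]
      exact Submodule.finrank_mono e1
    have := Submodule.finrank_mono hr
    omega
  omega

end rank

section parity

variable {I₁ I₂ I₃ : Type} [Fintype I₁] [Fintype I₂] [Fintype I₃]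
  [DecidableEq I₁] [DecidableEq I₂] [DecidableEq I₃]

/-- if `A * B`, `C * Bᵀ` and `Aᵀ * C` are all-ones matrices and `A`, `C` have the same row sums on
`I₁`, then the row sums are constant on `I₁` -/
theorem row_const {A : Matrix I₁ I₂ ℝ} {B : Matrix I₂ I₃ ℝ} {C : Matrix I₁ I₃ ℝ}
    (hAB : ∀ s r, (A * B) s r = 1) (hCB : ∀ s t, (C * Bᵀ) s t = 1)
    (rA : ∀ s, ∑ t, A s t = ∑ r, C s r) (s s' : I₁) : ∑ r, C s r = ∑ r, C s' r := by
  -- `C Bᵀ Aᵀ` computed in two ways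
  have h1 : ((C * Bᵀ) * Aᵀ) s s' = ∑ t, A s' t := by
    rw [Matrix.mul_apply]
    exact Finset.sum_congr rfl fun t _ => by rw [hCB, one_mul, Matrix.transpose_apply]
  have h2 : (C * (Bᵀ * Aᵀ)) s s' = ∑ r, C s r := by
    rw [Matrix.mul_apply]
    exact Finset.sum_congr rfl fun r _ => by
      rw [← Matrix.transpose_mul, Matrix.transpose_apply, hAB, mul_one]
  rw [← h2, ← Matrix.mul_assoc, h1, rA]

/-- `|I₂| = u₁ u₃` -/
theorem card_eq {B : Matrix I₂ I₃ ℝ} {C : Matrix I₁ I₃ ℝ} {u₁ u₃ : ℝ} (s : I₁)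
    (hCB : ∀ s t, (C * Bᵀ) s t = 1) (hC : ∀ s, ∑ r, C s r = u₁) (hB : ∀ r, ∑ t, B t r = u₃) :
    (Fintype.card I₂ : ℝ) = u₁ * u₃ := by
  have h1 : ∑ t, (C * Bᵀ) s t = (Fintype.card I₂ : ℝ) := by
    rw [Finset.sum_congr rfl fun t _ => hCB s t]; simp
  rw [← h1]
  simp only [Matrix.mul_apply, Matrix.transpose_apply]
  rw [Finset.sum_comm]
  simp only [← Finset.mul_sum, hB]
  rw [← Finset.sum_mul, hC]

/-- the rank statement at one of the three sets -/
theorem rank_one {W : Type} [Fintype W] [Nonempty I₁] {A : Matrix I₁ I₂ ℝ} {B : Matrix I₂ I₃ ℝ}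
    {C : Matrix I₁ I₃ ℝ} (hAC : ∀ t r, (Aᵀ * C) t r = 1) {u₁ u₂ u₃ : ℝ}
    (hu1 : 0 < u₁) (hu2 : 0 < u₂) (hu3 : 0 < u₃)
    (hA : ∀ s, ∑ t, A s t = u₁) (hC : ∀ s, ∑ r, C s r = u₁)
    (hA' : ∀ t, ∑ s, A s t = u₂) (hC' : ∀ r, ∑ s, C s r = u₃)
    {K : Matrix I₁ W ℝ} {d : ℝ} (hd : 0 < d)
    (hK : A * Aᵀ + C * Cᵀ = K * Kᵀ + d • (1 : Matrix I₁ I₁ ℝ)) :
    A.rank + C.rank = Fintype.card I₁ + 1 := by
  rw [← Matrix.rank_self_mul_transpose A, ← Matrix.rank_self_mul_transpose C]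
  refine rank_add (p := u₁ * u₂) (q := u₁ * u₃) (k := u₁ * u₁) ?_ ?_ (mul_pos hu1 hu2).ne'
    (mul_pos hu1 hu3).ne' ?_ ?_ ?_ ?_
  · rw [Matrix.transpose_mul, Matrix.transpose_transpose]
  · rw [Matrix.transpose_mul, Matrix.transpose_transpose]
  · intro i
    simp only [Matrix.mul_apply, Matrix.transpose_apply]
    rw [Finset.sum_comm]
    simp only [← Finset.mul_sum, hA']
    rw [← Finset.sum_mul, hA]
  · intro i
    simp only [Matrix.mul_apply, Matrix.transpose_apply]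
    rw [Finset.sum_comm]
    simp only [← Finset.mul_sum, hC']
    rw [← Finset.sum_mul, hC]
  · intro i j
    rw [Matrix.mul_assoc, ← Matrix.mul_assoc Aᵀ C Cᵀ, Matrix.mul_apply]
    have : ∀ t, (Aᵀ * C * Cᵀ) t j = u₁ := by
      intro t
      rw [Matrix.mul_apply]
      simp only [hAC, one_mul, Matrix.transpose_apply]
      exact hC j
    simp only [this]
    rw [← Finset.sum_mul, hA]
  · intro x hx
    rw [hK] at hx
    have h1 : x ⬝ᵥ ((K * Kᵀ + d • (1 : Matrix I₁ I₁ ℝ)) *ᵥ x) = 0 := by rw [hx, dotProduct_zero]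
    rw [Matrix.add_mulVec, dotProduct_add, Matrix.smul_mulVec, Matrix.one_mulVec,
      ← Matrix.mulVec_mulVec, dotProduct_mulVec, ← Matrix.mulVec_transpose, dotProduct_smul,
      smul_eq_mul] at h1
    have h2 : 0 ≤ (Kᵀ *ᵥ x) ⬝ᵥ (Kᵀ *ᵥ x) := by
      simp only [dotProduct]
      exact Finset.sum_nonneg fun i _ => mul_self_nonneg _
    have h3 : 0 ≤ x ⬝ᵥ x := by
      simp only [dotProduct]
      exact Finset.sum_nonneg fun i _ => mul_self_nonneg _
    have h4 : x ⬝ᵥ x = 0 := by nlinarith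
    exact dotProduct_self_eq_zero.1 h4

/-- **real rank parity** -/
theorem odd_card {W₁ W₂ W₃ : Type} [Fintype W₁] [Fintype W₂] [Fintype W₃]
    [Nonempty I₁] [Nonempty I₂] [Nonempty I₃]
    {A : Matrix I₁ I₂ ℝ} {B : Matrix I₂ I₃ ℝ} {C : Matrix I₁ I₃ ℝ}
    (hAB : ∀ s r, (A * B) s r = 1) (hCB : ∀ s t, (C * Bᵀ) s t = 1)
    (hAC : ∀ t r, (Aᵀ * C) t r = 1)
    (r1 : ∀ s, ∑ t, A s t = ∑ r, C s r) (r2 : ∀ t, ∑ s, A s t = ∑ r, B t r)
    (r3 : ∀ r, ∑ s, C s r = ∑ t, B t r)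
    (p1 : ∀ s, 0 < ∑ r, C s r) (p2 : ∀ t, 0 < ∑ r, B t r) (p3 : ∀ r, 0 < ∑ t, B t r)
    {K₁ : Matrix I₁ W₁ ℝ} {K₂ : Matrix I₂ W₂ ℝ} {K₃ : Matrix I₃ W₃ ℝ} {d₁ d₂ d₃ : ℝ}
    (hd₁ : 0 < d₁) (hd₂ : 0 < d₂) (hd₃ : 0 < d₃)
    (hK₁ : A * Aᵀ + C * Cᵀ = K₁ * K₁ᵀ + d₁ • (1 : Matrix I₁ I₁ ℝ))
    (hK₂ : Aᵀ * A + B * Bᵀ = K₂ * K₂ᵀ + d₂ • (1 : Matrix I₂ I₂ ℝ))
    (hK₃ : Cᵀ * C + Bᵀ * B = K₃ * K₃ᵀ + d₃ • (1 : Matrix I₃ I₃ ℝ)) :
    ∃ u₁ u₂ u₃ : ℝ, (∀ s, ∑ r, C s r = u₁) ∧ (∀ t, ∑ r, B t r = u₂) ∧ (∀ r, ∑ t, B t r = u₃) ∧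
      (Fintype.card I₁ : ℝ) = u₂ * u₃ ∧ (Fintype.card I₂ : ℝ) = u₁ * u₃ ∧
      (Fintype.card I₃ : ℝ) = u₁ * u₂ ∧
      Odd (Fintype.card I₁ + Fintype.card I₂ + Fintype.card I₃) := by
  obtain ⟨i1⟩ := ‹Nonempty I₁›
  obtain ⟨i2⟩ := ‹Nonempty I₂›
  obtain ⟨i3⟩ := ‹Nonempty I₃›
  have tr : ∀ {m n l : Type} [Fintype m] [Fintype n] [Fintype l] (X : Matrix m n ℝ)
      (Y : Matrix n l ℝ) (c : ℝ), (∀ i j, (X * Y) i j = c) → ∀ j i, (Yᵀ * Xᵀ) j i = c := by
    intro m n l _ _ _ X Y c h j i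
    rw [← Matrix.transpose_mul, Matrix.transpose_apply, h]
  have hBA : ∀ r s, (Bᵀ * Aᵀ) r s = 1 := tr A B 1 hAB
  have hBC : ∀ t s, (B * Cᵀ) t s = 1 := by
    have := tr C Bᵀ 1 hCB
    simpa using this
  have hCA : ∀ r t, (Cᵀ * A) r t = 1 := by
    have := tr Aᵀ C 1 hAC
    simpa using this
  have c1 : ∀ s, ∑ r, C s r = ∑ r, C i1 r := fun s => row_const hAB hCB r1 s i1
  have c2 : ∀ t, ∑ r, B t r = ∑ r, B i2 r := by
    intro t
    -- roles: I₁ ↦ I₂, I₂ ↦ I₁, I₃ ↦ I₃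
    refine row_const (A := Aᵀ) (B := C) (C := B) hAC hBC ?_ t i2
    intro t; simpa using r2 t
  have c3 : ∀ r, ∑ t, B t r = ∑ t, B t i3 := by
    intro r
    -- roles: I₁ ↦ I₃, I₂ ↦ I₁, I₃ ↦ I₂
    have := row_const (A := Cᵀ) (B := A) (C := Bᵀ) hCA (by simpa using hBA)
      (by intro r; simpa using r3 r) r i3
    simpa using this
  set u₁ := ∑ r, C i1 r with hu₁
  set u₂ := ∑ r, B i2 r with hu₂
  set u₃ := ∑ t, B t i3 with hu₃
  have q1 : 0 < u₁ := p1 i1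
  have q2 : 0 < u₂ := p2 i2
  have q3 : 0 < u₃ := p3 i3
  have e1 : A.rank + C.rank = Fintype.card I₁ + 1 :=
    rank_one (B := B) hAC q1 q2 q3 (fun s => (r1 s).trans (c1 s)) c1
      (fun t => (r2 t).trans (c2 t)) (fun r => (r3 r).trans (c3 r)) hd₁ hK₁
  have e2 : Aᵀ.rank + B.rank = Fintype.card I₂ + 1 :=
    rank_one (A := Aᵀ) (B := C) (C := B) (u₁ := u₂) (u₂ := u₁) (u₃ := u₃)
      (by simpa using hAB) q2 q1 q3
      (fun t => by simpa using (r2 t).trans (c2 t)) c2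
      (fun s => by simpa using (r1 s).trans (c1 s)) c3 hd₂ (by simpa using hK₂)
  have e3 : Cᵀ.rank + Bᵀ.rank = Fintype.card I₃ + 1 :=
    rank_one (A := Cᵀ) (B := A) (C := Bᵀ) (u₁ := u₃) (u₂ := u₁) (u₃ := u₂)
      (by simpa using hCB) q3 q1 q2
      (fun r => by simpa using (r3 r).trans (c3 r)) (fun r => by simpa using c3 r)
      (fun s => by simpa using c1 s) (fun t => by simpa using c2 t) hd₃ (by simpa using hK₃)
  rw [Matrix.rank_transpose] at e2 e3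
  rw [Matrix.rank_transpose] at e3
  refine ⟨u₁, u₂, u₃, c1, c2, c3, ?_, ?_, ?_, ?_⟩
  · -- `|I₁| = u₂ u₃`
    exact card_eq (I₁ := I₂) (I₂ := I₁) (I₃ := I₃) (B := C) (C := B) i2 hBC c2
      (fun r => (r3 r).trans (c3 r))
  · exact card_eq i1 hCB c1 c3
  · -- `|I₃| = u₁ u₂`
    exact card_eq (I₁ := I₁) (I₂ := I₃) (I₃ := I₂) (B := Bᵀ) (C := A) i1 (by simpa using hAB)
      (fun s => (r1 s).trans (c1 s)) (fun t => by simpa using c2 t)
  · rw [Nat.odd_iff]
    omega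

end parity

end Pool.Agent.ETPN.RankParity
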