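import Pool.Agent.ETPN.W
import Pool.Agent.ETPN.HP2

/-!
**THEOREM U** (note 2756, helper82): one slot `x` of one symbol `c ≠ 0` with
`x + S_c ⊆ S_c ∪ Stab (S_c)` refutes a structure with `K4At`.
-/

set_option autoImplicit false
set_option linter.unusedSimpArgs false
set_option linter.unnecessarySeqFocus false
set_option linter.unusedSectionVars false

namespace Pool.Agent.ETPN

open Pool.Agent.Helper58.PLine (QData)
open Pool.Agent.ETCP
open Pool.Agent.ETPF
open Pool.Agent.ETPG
open ETC (ind ind_true ind_false ind_and ind_congr ind_nonneg ind_le sum_ind_shift)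

variable {V Q : Type} [AddCommGroup V] [Module (ZMod 2) V] {D : QData V Q}

/-- `|V_s ∩ V_t|` -/
noncomputable def mm' (D : QData V Q) [Fintype V] (s t : V) : ℤ := ∑ v, ind (C D s v ∧ C D t v)

theorem mm'_pos [Fintype V] (s t : V) : 0 < mm' D s t :=
  sum_ind_pos (v := (0 : V)) ⟨C.zero s, C.zero t⟩

theorem mm'_symm [Fintype V] (s t : V) : mm' D s t = mm' D t s :=
  Finset.sum_congr rfl fun _ _ => ind_congr and_comm

/-- `#{v : q s v = g, q t v = g'}` is `|V_s ∩ V_t|` if not zero -/
theorem cnt' [Fintype V] {g g' : Q} {s t r : V} (h : D.q s r = g) (h' : D.q t r = g') :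
    ∑ v, ind (D.q s v = g ∧ D.q t v = g') = mm' D s t := by
  refine sum_ind_shift _ _ r fun v => ?_
  rw [q_shift h, q_shift h']

/-- the common neighbours minus the neighbours of `s` which commute with `t` -/
noncomputable def inn (D : QData V Q) (c : Q) [Fintype V] (s t : V) : ℤ :=
  ∑ u, (ind (D.q s u = c ∧ D.q t u = c) - ind (D.q s u = c ∧ D.q t u = D.z))

theorem inn_zero [Fintype V] {c : Q} {s t : V} (hs : Sg D c s) (ht : Sg D c t)
    (h : Sg D c (s + t)) : inn D c s t = 0 := by
  obtain ⟨r, h1, h2⟩ := hs.common ht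
  obtain ⟨r', h3, h4⟩ := (sg_add hs).1 h
  rw [inn, Finset.sum_sub_distrib, cnt' h1 h2, cnt' h4 h3, sub_self]

theorem inn_pos [Fintype V] {c : Q} {s t : V} (hs : Sg D c s) (ht : Sg D c t)
    (h : ¬ Sg D c (s + t)) : 0 < inn D c s t := by
  obtain ⟨r, h1, h2⟩ := hs.common ht
  rw [inn, Finset.sum_sub_distrib, cnt' h1 h2, sum_ind_zero fun r' h' =>
    h ((sg_add hs).2 ⟨r', h'.2, h'.1⟩), sub_zero]
  exact mm'_pos _ _

theorem inn_swap [Fintype V] (c : Q) (s x : V) :
    ∑ t, ind (D.q x t = c) * inn D c s t = ∑ u, ind (D.q s u = c) * inn D c x u := by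
  simp only [inn, Finset.mul_sum]
  rw [Finset.sum_comm]
  refine Finset.sum_congr rfl fun u _ => Finset.sum_congr rfl fun t _ => ?_
  rw [D.symm t u]
  simp only [ind_and]
  ring

/-- **(E)** -/
theorem edge [Finite V] {c : Q} {s x : V} (hs : Sg D c s) (hx : Sg D c x)
    (h : ∃ t, D.q x t = c ∧ ¬ Sg D c (s + t)) : ∃ u, D.q s u = c ∧ ¬ Sg D c (u + x) := by
  have := Fintype.ofFinite V
  by_contra hcon
  push Not at hcon
  have e1 : ∑ u, ind (D.q s u = c) * inn D c x u = 0 := by
    refine Finset.sum_eq_zero fun u _ => ?_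
    by_cases hu : D.q s u = c
    · rw [inn_zero hx (Sg.right hu) (by rw [add_comm]; exact hcon u hu), mul_zero]
    · rw [ind_false hu, zero_mul]
  have e2 : 0 < ∑ t, ind (D.q x t = c) * inn D c s t := by
    obtain ⟨t, h1, h2⟩ := h
    refine Finset.sum_pos' (fun t _ => ?_) ⟨t, Finset.mem_univ _, ?_⟩
    · by_cases ht : D.q x t = c
      · rw [ind_true ht, one_mul]
        by_cases h3 : Sg D c (s + t)
        · rw [inn_zero hs (Sg.right ht) h3]
        · exact (inn_pos hs (Sg.right ht) h3).le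
      · rw [ind_false ht, zero_mul]
    · rw [ind_true h1, one_mul]
      exact inn_pos hs (Sg.right h1) h2
  rw [inn_swap, e1] at e2
  exact lt_irrefl _ e2

/-- the hypotheses of THEOREM U -/
structure TU (D : QData V Q) (c : Q) (x : V) : Prop where
  he : D.e = 0
  cne : c ≠ D.z
  hx : Sg D c x
  hU : ∀ s, Sg D c s → Sg D c (s + x) ∨ s + x ∈ Gm D c

/-- `A`: the neighbours of `x + Stab` -/
def An (D : QData V Q) (c : Q) (x a : V) : Prop := ∃ w, w + x ∈ Gm D c ∧ D.q w a = c

namespace TU

variable {c : Q} {x : V} (X : TU D c x)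

include X

theorem nz : ¬ Sg D c 0 := by
  rintro ⟨r, hr⟩
  exact X.cne (hr.symm.trans (C.zero' r))

/-- **(1)** -/
theorem one [Finite V] {n a : V} (hn : ¬ Sg D c n) (ha : An D c x a) (h : Sg D c (a + n)) :
    An D c x (a + n) := by
  obtain ⟨w, h1, h2⟩ := ha
  obtain ⟨u, h3, h4⟩ := edge (s := a + n) (x := w) h (Sg.left h2) ⟨a, h2, by
    rwa [show a + n + a = n from eo (by
      abel_nf <;> simp only [ch2, ch3, ch4, add_zero, zero_add])]⟩
  -- `u + w` is not a slot
  refine ⟨u, ?_, by rw [D.symm]; exact h3⟩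
  rcases X.hU u (Sg.right h3) with h5 | h5
  · exfalso
    apply h4
    have := h1 _ h5
    rwa [show u + x + (w + x) = u + w from eo (by
      abel_nf <;> simp only [ch2, ch3, ch4, add_zero, zero_add])] at this
  · exact h5

/-- `A ⊆ y0 + G` -/
theorem two [Finite V] {y0 a : V} (h0 : D.q x y0 = c) (ha : An D c x a) :
    a + y0 ∈ Gf D c x := by
  obtain ⟨w, h1, h2⟩ := ha
  obtain ⟨y1, h3, h4⟩ := (Sg.left h2).common X.hx
  have h5 : a + y1 ∈ Gf D c x := ann_Gf X.hx h1 (q_eq_iff.1 (h2.trans h3.symm))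
  have h6 : y1 + y0 ∈ Gf D c x := ann_Gf X.hx (w := x) (by
    rw [ZModModule.add_self]; exact Submodule.zero_mem _) (q_eq_iff.1 (h4.trans h0.symm))
  have := Submodule.add_mem _ h5 h6
  rwa [show a + y1 + (y1 + y0) = a + y0 from eo (by
      abel_nf <;> simp only [ch2, ch3, ch4, add_zero, zero_add])] at this

/-- **(3)** -/
theorem three [Finite V] {n w : V} (hn : ¬ Sg D c n)
    (hnW : n ∉ Submodule.span (ZMod 2) {a | An D c x a})
    (hw : w ∈ Submodule.span (ZMod 2) {a | An D c x a}) : ¬ Sg D c (n + w) := by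
  set W := Submodule.span (ZMod 2) {a | An D c x a} with hWdef
  let U : Submodule (ZMod 2) V := mkS (fun w => w ∈ W ∧ ∀ n, ¬ Sg D c n → n ∉ W →
      ¬ Sg D c (n + w)) ⟨W.zero_mem, fun n h _ => by rwa [add_zero]⟩ (by
    rintro a b ⟨h1, h2⟩ ⟨h3, h4⟩
    refine ⟨W.add_mem h1 h3, fun n h5 h6 => ?_⟩
    rw [← add_assoc]
    refine h4 _ (h2 n h5 h6) fun h7 => h6 ?_
    exact (Submodule.add_mem_iff_left W h1).1 h7)
  have hU : W ≤ U := by
    rw [hWdef]
    refine Submodule.span_le.2 fun a ha => ?_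
    refine ⟨Submodule.subset_span ha, fun n h1 h2 h3 => h2 ?_⟩
    have h4 : An D c x (a + n) := X.one h1 ha (by rwa [add_comm])
    exact (Submodule.add_mem_iff_right W (Submodule.subset_span ha : a ∈ W)).1
      (Submodule.subset_span h4)
  exact (hU hw).2 n hn hnW

theorem inv [Finite V] {s w : V} (hs : Sg D c s)
    (hsW : s ∉ Submodule.span (ZMod 2) {a | An D c x a})
    (hw : w ∈ Submodule.span (ZMod 2) {a | An D c x a}) : Sg D c (s + w) := by
  by_contra hcon
  have h1 : s + w ∉ Submodule.span (ZMod 2) {a | An D c x a} := fun h2 =>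
    hsW ((Submodule.add_mem_iff_left _ hw).1 h2)
  have := X.three hcon h1 hw
  rw [vv] at this
  exact this hs

/-- **(4)** all slots are in the span of `A` -/
theorem four [Finite V] {s : V} (hs : Sg D c s) :
    s ∈ Submodule.span (ZMod 2) {a | An D c x a} := by
  have := Fintype.ofFinite V
  by_contra hsW
  set W := Submodule.span (ZMod 2) {a | An D c x a} with hWdef
  have e0 : x + x ∈ Gm D c := by rw [ZModModule.add_self]; exact Submodule.zero_mem _
  have nW : ∀ y, D.q x y = c → y ∈ W := fun y hy => Submodule.subset_span ⟨x, e0, hy⟩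
  obtain ⟨y0, hy0⟩ := X.hx
  have vW : ∀ v, C D x v → v ∈ W := fun v hv => by
    have := W.add_mem (nW _ (qa hy0 hv)) (nW _ hy0)
    rwa [show y0 + v + y0 = v from eo (by
      abel_nf <;> simp only [ch2, ch3, ch4, add_zero, zero_add])] at this
  have xW : x ∈ W := vW x (C.self X.he x)
  -- the double sum
  have row : ∀ s', s' + s ∈ W → ∑ w, ind (C D x w ∨ D.q x w = c) *
      (ind (C D w s') - ind (D.q w s' = c)) = 0 := by
    intro s' hs'
    have h1 : Sg D c s' := by
      have := X.inv hs hsW hs'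
      rwa [show s + (s' + s) = s' from eo (by
        abel_nf <;> simp only [ch2, ch3, ch4, add_zero, zero_add])] at this
    have h2 : Sg D c (s' + x) := by
      have := X.inv hs hsW (W.add_mem hs' xW)
      rwa [show s + (s' + s + x) = s' + x from eo (by
        abel_nf <;> simp only [ch2, ch3, ch4, add_zero, zero_add])] at this
    obtain ⟨r1, i1, i2⟩ := (sg_add h1).1 h2
    obtain ⟨r2, j1, j2⟩ := (sg_add X.hx).1 (by rwa [add_comm] at h2 : Sg D c (x + s'))
    obtain ⟨r3, k1, k2⟩ := X.hx.common h1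
    have dis : ∀ w, ind (C D x w ∨ D.q x w = c) = ind (C D x w) + ind (D.q x w = c) := by
      intro w
      by_cases h3 : C D x w
      · have h4 : ¬ D.q x w = c := fun h4 => X.cne (h4.symm.trans h3)
        rw [ind_true (Or.inl h3), ind_true h3, ind_false h4, add_zero]
      · by_cases h4 : D.q x w = c
        · rw [ind_true (Or.inr h4), ind_false h3, ind_true h4, zero_add]
        · rw [ind_false (by tauto), ind_false h3, ind_false h4, add_zero]
    have e1 : ∑ w, ind (C D x w) * ind (C D w s') = mm' D x s' := by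
      refine Finset.sum_congr rfl fun w _ => ?_
      rw [← ind_and]
      exact ind_congr ⟨fun h => ⟨h.1, h.2.symm⟩, fun h => ⟨h.1, h.2.symm⟩⟩
    have e2 : ∑ w, ind (C D x w) * ind (D.q w s' = c) = mm' D x s' := by
      rw [← cnt' (g := D.z) (g' := c) i1 i2]
      refine Finset.sum_congr rfl fun w _ => ?_
      rw [← ind_and]
      exact ind_congr ⟨fun h => ⟨h.1, by rw [D.symm]; exact h.2⟩,
        fun h => ⟨h.1, by rw [D.symm]; exact h.2⟩⟩
    have e3 : ∑ w, ind (D.q x w = c) * ind (C D w s') = mm' D x s' := by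
      rw [← cnt' (g := c) (g' := D.z) j2 j1]
      refine Finset.sum_congr rfl fun w _ => ?_
      rw [← ind_and]
      exact ind_congr ⟨fun h => ⟨h.1, h.2.symm⟩, fun h => ⟨h.1, C.symm h.2⟩⟩
    have e4 : ∑ w, ind (D.q x w = c) * ind (D.q w s' = c) = mm' D x s' := by
      rw [← cnt' (g := c) (g' := c) k1 k2]
      refine Finset.sum_congr rfl fun w _ => ?_
      rw [← ind_and]
      exact ind_congr ⟨fun h => ⟨h.1, by rw [D.symm]; exact h.2⟩,
        fun h => ⟨h.1, by rw [D.symm]; exact h.2⟩⟩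
    have e5 : ∑ w, ind (C D x w ∨ D.q x w = c) * (ind (C D w s') - ind (D.q w s' = c)) =
        ∑ w, ind (C D x w) * ind (C D w s') - ∑ w, ind (C D x w) * ind (D.q w s' = c) +
        (∑ w, ind (D.q x w = c) * ind (C D w s') -
          ∑ w, ind (D.q x w = c) * ind (D.q w s' = c)) := by
      rw [← Finset.sum_sub_distrib, ← Finset.sum_sub_distrib, ← Finset.sum_add_distrib]
      refine Finset.sum_congr rfl fun w _ => ?_
      rw [dis]; ring
    rw [e5, e1, e2, e3, e4]; ring
  have tot : ∑ s', ind (s' + s ∈ W) * ∑ w, ind (C D x w ∨ D.q x w = c) *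
      (ind (C D w s') - ind (D.q w s' = c)) = 0 := by
    refine Finset.sum_eq_zero fun s' _ => ?_
    by_cases h : s' + s ∈ W
    · rw [row s' h, mul_zero]
    · rw [ind_false h, zero_mul]
  have sw : ∑ s', ind (s' + s ∈ W) * ∑ w, ind (C D x w ∨ D.q x w = c) *
      (ind (C D w s') - ind (D.q w s' = c)) = ∑ w, ind (C D x w ∨ D.q x w = c) *
      (∑ s', ind (s' + s ∈ W ∧ C D w s') - ∑ s', ind (s' + s ∈ W ∧ D.q w s' = c)) := by
    simp only [Finset.mul_sum]
    rw [Finset.sum_comm]
    refine Finset.sum_congr rfl fun w _ => ?_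
    rw [← Finset.sum_sub_distrib, Finset.mul_sum]
    refine Finset.sum_congr rfl fun s' _ => ?_
    simp only [ind_and]; ring
  have ge : ∀ w, 0 ≤ ind (C D x w ∨ D.q x w = c) *
      (∑ s', ind (s' + s ∈ W ∧ C D w s') - ∑ s', ind (s' + s ∈ W ∧ D.q w s' = c)) := by
    intro w
    by_cases hw : C D x w ∨ D.q x w = c
    · rw [ind_true hw, one_mul, sub_nonneg]
      by_cases h1 : ∃ s', s' + s ∈ W ∧ D.q w s' = c
      · obtain ⟨s', h2, h3⟩ := h1
        -- `N_w` meets `W`
        obtain ⟨r, h4, h5⟩ : ∃ r, r ∈ W ∧ D.q w r = c := by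
          rcases hw with hw | hw
          · rcases X.hU w (Sg.left h3) with h6 | h6
            · obtain ⟨r, i1, i2⟩ := (sg_add (Sg.left h3)).1 h6
              exact ⟨r, vW r i1, i2⟩
            · obtain ⟨r, hr⟩ := Sg.left h3
              exact ⟨r, Submodule.subset_span ⟨w, h6, hr⟩, hr⟩
          · exact ⟨x, xW, by rw [D.symm]; exact hw⟩
        have a1 : ∑ s', ind (s' + s ∈ W ∧ D.q w s' = c) = ∑ v, ind (v ∈ W ∧ C D w v) := by
          refine sum_ind_shift _ _ s' fun v => ?_
          rw [mem_shift h2, q_shift h3]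
        have a2 : ∑ s', ind (s' + s ∈ W ∧ C D w s') = ∑ v, ind (v ∈ W ∧ C D w v) := by
          have h6 : s' + r + s ∈ W := by
            have := W.add_mem h2 h4
            rwa [show s' + s + r = s' + r + s from by abel] at this
          have h7 : C D w (s' + r) := q_eq_iff.1 (h3.trans h5.symm)
          refine sum_ind_shift _ _ (s' + r) fun v => ?_
          rw [mem_shift h6, C_shift h7]
        rw [a1, a2]
      · push Not at h1
        rw [sum_ind_zero fun s' hh => h1 s' hh.1 hh.2]
        exact Finset.sum_nonneg fun _ _ => ind_nonneg _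
    · rw [ind_false hw, zero_mul]
  have pos : 0 < ∑ w, ind (C D x w ∨ D.q x w = c) *
      (∑ s', ind (s' + s ∈ W ∧ C D w s') - ∑ s', ind (s' + s ∈ W ∧ D.q w s' = c)) := by
    refine Finset.sum_pos' (fun w _ => ge w) ⟨0, Finset.mem_univ _, ?_⟩
    have h1 : ∀ s', ¬ (s' + s ∈ W ∧ D.q 0 s' = c) := fun s' hh =>
      X.cne (hh.2.symm.trans (C.zero' s'))
    rw [ind_true (Or.inl (C.zero x)), one_mul, sum_ind_zero h1, sub_zero]
    exact sum_ind_pos (v := s) ⟨by rw [ZModModule.add_self]; exact W.zero_mem, C.zero' s⟩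
  rw [← sw, tot] at pos
  exact lt_irrefl _ pos

end TU

/-- **THEOREM U** (note 2756, helper82): one slot `x` of one symbol `c ≠ 0` such that `s + x` is
a slot or an element of the stabilizer, for all slots `s`, refutes a structure with `K4At`. -/
theorem false_of_U [Finite V] (he : D.e = 0) {c : Q} (cne : c ≠ D.z)
    (k4 : ∀ z, z ≠ 0 → ETCD2.K4At D z) {x : V} (hx : Sg D c x)
    (hU : ∀ s, Sg D c s → Sg D c (s + x) ∨ s + x ∈ Gm D c) : False := by
  have X : TU D c x := ⟨he, cne, hx, hU⟩
  obtain ⟨y0, hy0⟩ := hx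
  have hx : Sg D c x := ⟨y0, hy0⟩
  have hyx : D.q y0 x = c := by rw [D.symm]; exact hy0
  have h0 : y0 ∉ Gf D c x := by
    intro h
    have h1 := slot_Gf hy0 h
    rw [ZModModule.add_self] at h1
    exact X.nz h1
  obtain ⟨l, l1, l2⟩ := ETC.exists_dual_sep h0
  have e0 : x + x ∈ Gm D c := by rw [ZModModule.add_self]; exact Submodule.zero_mem _
  -- `⟨A⟩ ⊆ G ∪ (y0 + G)`
  let U : Submodule (ZMod 2) V := mkS (fun w => w ∈ Gf D c x ∨ w + y0 ∈ Gf D c x)
    (Or.inl (Submodule.zero_mem _)) (by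
      rintro a b (h | h) (h' | h')
      · exact Or.inl (Submodule.add_mem _ h h')
      · right
        have := Submodule.add_mem _ h h'
        rwa [← add_assoc] at this
      · right
        have := Submodule.add_mem _ h h'
        rwa [show a + y0 + b = a + b + y0 from by abel] at this
      · left
        have := Submodule.add_mem _ h h'
        rwa [show a + y0 + (b + y0) = a + b from eo (by
          abel_nf <;> simp only [ch2, ch3, ch4, add_zero, zero_add])] at this)
  have hW : Submodule.span (ZMod 2) {a | An D c x a} ≤ U :=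
    Submodule.span_le.2 fun a ha => Or.inr (X.two hy0 ha)
  refine false_of_HP he cne k4 (E := Submodule.span (ZMod 2) {a | An D c x a}) (l := l)
    (fun s hs => X.four hs) (fun v hv hl => ?_) ⟨y0, Submodule.subset_span ⟨x, e0, hy0⟩, l1⟩
  rcases hW hv with h1 | h1
  · exfalso
    rw [l2 v h1] at hl
    exact zero_ne_one hl
  · have h2 := slot_Gf hy0 h1
    rwa [show y0 + (v + y0) = v from eo (by
      abel_nf <;> simp only [ch2, ch3, ch4, add_zero, zero_add])] at h2

end Pool.Agent.ETPN
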